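import Mathlib

/-!
# The Three Intervals Game: definitions and the two basic bounds
-/

set_option autoImplicit false

namespace Pool.Agent.K6.H13.TIG

open MeasureTheory Set

/-- An admissible choice of RED for the lengths `α`: closed intervals `J i ⊆ [0, 1]` of lengths at
most `α i`. -/
def Admissible (α : Fin 3 → ℝ) (J : Fin 3 → Set ℝ) : Prop :=
  ∀ i, ∃ a b : ℝ, 0 ≤ a ∧ a ≤ b ∧ b ≤ 1 ∧ b - a ≤ α i ∧ J i = Icc a b

/-- A mixed strategy of BLUE: a Borel probability measure on `[0, 1]`. -/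
def BlueStrategy : Type := {μ : Measure ℝ // IsProbabilityMeasure μ ∧ μ (Icc 0 1)ᶜ = 0}

/-- A pure strategy of RED. -/
def RedStrategy (α : Fin 3 → ℝ) : Type := {J : Fin 3 → Set ℝ // Admissible α J}

/-- BLUE's escape probability: the supremum over BLUE's mixed strategies of the infimum over RED's
pure strategies of the probability that the point is not covered. -/
noncomputable def G (α : Fin 3 → ℝ) : ℝ :=
  ⨆ μ : BlueStrategy, ⨅ J : RedStrategy α, μ.1.real (Icc 0 1 \ ⋃ i, J.1 i)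

/-- `G(1/u, 1/v, 1/w)` -/
noncomputable def G3 (u v w : ℕ) : ℝ := G ![1 / (u : ℝ), 1 / (v : ℝ), 1 / (w : ℝ)]

instance : Nonempty BlueStrategy :=
  ⟨⟨Measure.dirac 0, inferInstance, by simp⟩⟩

lemma blue_le_one (μ : BlueStrategy) (s : Set ℝ) : μ.1.real s ≤ 1 := by
  have := μ.2.1
  exact measureReal_le_one

lemma inf_bdd {α : Fin 3 → ℝ} (μ : BlueStrategy) :
    BddBelow (range fun J : RedStrategy α => μ.1.real (Icc 0 1 \ ⋃ i, J.1 i)) :=
  ⟨0, by rintro _ ⟨J, rfl⟩; exact measureReal_nonneg⟩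

lemma sup_bdd {α : Fin 3 → ℝ} [Nonempty (RedStrategy α)] :
    BddAbove (range fun μ : BlueStrategy =>
      ⨅ J : RedStrategy α, μ.1.real (Icc 0 1 \ ⋃ i, J.1 i)) := by
  refine ⟨1, ?_⟩
  rintro _ ⟨μ, rfl⟩
  obtain ⟨J⟩ := ‹Nonempty (RedStrategy α)›
  exact (ciInf_le (inf_bdd μ) J).trans (blue_le_one μ _)

lemma red_nonempty {α : Fin 3 → ℝ} (hα : ∀ i, 0 ≤ α i) : Nonempty (RedStrategy α) :=
  ⟨⟨fun _ => Icc 0 0, fun i => ⟨0, 0, le_rfl, le_rfl, zero_le_one, by simpa using hα i, rfl⟩⟩⟩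

lemma Admissible.measurable {α : Fin 3 → ℝ} {J : Fin 3 → Set ℝ} (hJ : Admissible α J) :
    MeasurableSet (⋃ i, J i) := by
  refine MeasurableSet.iUnion fun i => ?_
  obtain ⟨a, b, -, -, -, -, h⟩ := hJ i
  rw [h]
  exact measurableSet_Icc

/-- **RED's side.** A finite weighted family of admissible triples that covers every point of
`[0, 1]` with weight at least `c` (out of a total weight `1`) shows `G ≤ 1 - c`. -/
lemma G_le {α : Fin 3 → ℝ} {ι : Type} [Fintype ι] (p : ι → ℝ) (hp : ∀ i, 0 ≤ p i)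
    (hp1 : ∑ i, p i = 1) (J : ι → Fin 3 → Set ℝ) (hJ : ∀ i, Admissible α (J i)) (c : ℝ)
    (hc : ∀ x ∈ Icc (0 : ℝ) 1, c ≤ ∑ i, p i * (⋃ k, J i k).indicator 1 x) : G α ≤ 1 - c := by
  classical
  refine ciSup_le fun μ => ?_
  have := μ.2.1
  have hprob := μ.2.2
  -- the infimum is at most the weighted average
  have h1 : ⨅ J : RedStrategy α, μ.1.real (Icc 0 1 \ ⋃ i, J.1 i) ≤
      ∑ i, p i * μ.1.real (Icc 0 1 \ ⋃ k, J i k) := by
    calc ⨅ J : RedStrategy α, μ.1.real (Icc 0 1 \ ⋃ i, J.1 i)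
        = ∑ i, p i * ⨅ J : RedStrategy α, μ.1.real (Icc 0 1 \ ⋃ i, J.1 i) := by
          rw [← Finset.sum_mul, hp1, one_mul]
      _ ≤ _ := Finset.sum_le_sum fun i _ =>
          mul_le_mul_of_nonneg_left (ciInf_le (inf_bdd μ) (⟨J i, hJ i⟩ : RedStrategy α)) (hp i)
  refine h1.trans ?_
  have h2 : ∀ i, μ.1.real (Icc 0 1 \ ⋃ k, J i k) =
      1 - ∫ x, (⋃ k, J i k).indicator (1 : ℝ → ℝ) x ∂μ.1 := by
    intro i
    rw [integral_indicator_one (hJ i).measurable]
    have h3 : μ.1.real (Icc 0 1 \ ⋃ k, J i k) = μ.1.real (⋃ k, J i k)ᶜ := by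
      refine measureReal_congr ?_
      have h4 : ∀ᵐ x ∂μ.1, x ∈ Icc (0 : ℝ) 1 := by
        rw [ae_iff]; exact hprob
      filter_upwards [h4] with x hx
      refine propext ?_
      show x ∈ Icc (0 : ℝ) 1 \ ⋃ k, J i k ↔ x ∈ (⋃ k, J i k)ᶜ
      simp [hx]
    rw [h3, probReal_compl_eq_one_sub (hJ i).measurable]
  have h3 : ∑ i, p i * μ.1.real (Icc 0 1 \ ⋃ k, J i k) =
      1 - ∫ x, ∑ i, p i * (⋃ k, J i k).indicator (1 : ℝ → ℝ) x ∂μ.1 := by
    rw [integral_finsetSum]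
    · simp_rw [h2, mul_sub, integral_const_mul]
      rw [Finset.sum_sub_distrib]
      simp [hp1]
    · intro i _
      exact ((integrable_const (1 : ℝ)).indicator (hJ i).measurable).const_mul _
  rw [h3]
  have h4 : c ≤ ∫ x, ∑ i, p i * (⋃ k, J i k).indicator (1 : ℝ → ℝ) x ∂μ.1 := by
    have h5 : c = ∫ _x, c ∂μ.1 := by simp
    rw [h5]
    refine integral_mono_ae (integrable_const c) ?_ ?_
    · exact integrable_finsetSum _ fun i _ =>
        ((integrable_const (1 : ℝ)).indicator (hJ i).measurable).const_mul _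
    · have h4 : ∀ᵐ x ∂μ.1, x ∈ Icc (0 : ℝ) 1 := by
        rw [ae_iff]; exact hprob
      filter_upwards [h4] with x hx
      exact hc x hx
  linarith

/-- **BLUE's side, with the uniform distribution.** -/
lemma le_G_uniform {α : Fin 3 → ℝ} (hα : ∀ i, 0 ≤ α i) : 1 - ∑ i, α i ≤ G α := by
  have := red_nonempty hα
  let μ : BlueStrategy := ⟨volume.restrict (Icc 0 1), ⟨by simp⟩, by
    rw [Measure.restrict_apply measurableSet_Icc.compl]; simp⟩
  refine le_trans ?_ (le_ciSup sup_bdd μ)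
  refine le_ciInf fun J => ?_
  have hm := J.2.measurable
  have hprob : IsProbabilityMeasure μ.1 := μ.2.1
  have h1 : μ.1.real (⋃ i, J.1 i) ≤ ∑ i, α i := by
    refine (measureReal_iUnion_fintype_le _).trans (Finset.sum_le_sum fun i _ => ?_)
    obtain ⟨a, b, h0, h1, h2, h3, h4⟩ := J.2 i
    rw [h4]
    have h5 : μ.1 (Icc a b) ≤ ENNReal.ofReal (b - a) := by
      refine (Measure.restrict_apply_le _ _).trans ?_
      rw [Real.volume_Icc]
    have h6 : μ.1.real (Icc a b) ≤ b - a := by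
      rw [Measure.real]
      exact ENNReal.toReal_le_of_le_ofReal (by linarith) h5
    linarith
  have h2 : μ.1.real (Icc 0 1 \ ⋃ i, J.1 i) = 1 - μ.1.real (⋃ i, J.1 i) := by
    rw [← probReal_compl_eq_one_sub hm]
    refine measureReal_congr ?_
    have h4 : ∀ᵐ x ∂μ.1, x ∈ Icc (0 : ℝ) 1 := by
      rw [ae_iff]; exact μ.2.2
    filter_upwards [h4] with x hx
    refine propext ?_
    show x ∈ Icc (0 : ℝ) 1 \ ⋃ k, J.1 k ↔ x ∈ (⋃ k, J.1 k)ᶜ
    simp [hx]
  linarith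

end Pool.Agent.K6.H13.TIG
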