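import Mathlib
import Pool.Agent.K6.H13.TIG.Basic

/-!
# Couplings of tiles

RED's strategy in all generic cases: a random triple of tiles of the three uniform partitions,
pairwise without common interior points, each tile being uniformly distributed.
-/

set_option autoImplicit false

namespace Pool.Agent.K6.H13.TIG

open Set

/-- the tiles `[i/a, (i+1)/a]` and `[j/b, (j+1)/b]` have no common interior point -/
def NoOv (a b i j : ℕ) : Prop := (i + 1) * b ≤ j * a ∨ (j + 1) * a ≤ i * b

instance (a b i j : ℕ) : Decidable (NoOv a b i j) := inferInstanceAs (Decidable (_ ∨ _))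

/-- A coupling of the three uniform tiles. -/
structure Cpl (u v w : ℕ) where
  ι : Type
  fin : Fintype ι
  p : ι → ℝ
  a : ι → ℕ
  b : ι → ℕ
  c : ι → ℕ
  nonneg : ∀ i, 0 ≤ p i
  total : ∑ i, p i = 1
  ha : ∀ i, a i < u
  hb : ∀ i, b i < v
  hc : ∀ i, c i < w
  uv : ∀ i, NoOv u v (a i) (b i)
  uw : ∀ i, NoOv u w (a i) (c i)
  vw : ∀ i, NoOv v w (b i) (c i)
  ma : ∀ x < u, 1 / (u : ℝ) ≤ ∑ i, if a i = x then p i else 0
  mb : ∀ x < v, 1 / (v : ℝ) ≤ ∑ i, if b i = x then p i else 0
  mc : ∀ x < w, 1 / (w : ℝ) ≤ ∑ i, if c i = x then p i else 0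

attribute [instance] Cpl.fin

/-- the index of a tile containing `x` -/
noncomputable def tix (n : ℕ) (x : ℝ) : ℕ := if x = 1 then n - 1 else ⌊x * n⌋₊

lemma tix_spec {n : ℕ} (hn : 0 < n) {x : ℝ} (hx : x ∈ Icc (0 : ℝ) 1) :
    tix n x < n ∧ (tix n x : ℝ) ≤ x * n ∧ x * n ≤ tix n x + 1 := by
  have hn' : (0 : ℝ) < n := by exact_mod_cast hn
  unfold tix
  split_ifs with h
  · refine ⟨by omega, ?_, ?_⟩
    · rw [h, one_mul]; exact_mod_cast Nat.sub_le n 1
    · rw [h, one_mul]
      have : n ≤ n - 1 + 1 := by omega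
      exact_mod_cast this
  · have h1 : x < 1 := lt_of_le_of_ne hx.2 h
    refine ⟨?_, Nat.floor_le (mul_nonneg hx.1 hn'.le), (Nat.lt_floor_add_one _).le⟩
    rw [Nat.floor_lt (mul_nonneg hx.1 hn'.le)]
    calc x * n < 1 * n := mul_lt_mul_of_pos_right h1 hn'
      _ = n := one_mul _

lemma tix_ov {m n : ℕ} (hm : 0 < m) (hn : 0 < n) {x : ℝ} (hx : x ∈ Icc (0 : ℝ) 1) :
    ¬ NoOv m n (tix m x) (tix n x) := by
  have hn' : (0 : ℝ) < n := by exact_mod_cast hn
  have hm' : (0 : ℝ) < m := by exact_mod_cast hm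
  unfold NoOv tix
  split_ifs with h
  · obtain ⟨m', rfl⟩ : ∃ m', m = m' + 1 := ⟨m - 1, by omega⟩
    obtain ⟨n', rfl⟩ : ∃ n', n = n' + 1 := ⟨n - 1, by omega⟩
    simp only [Nat.add_sub_cancel]
    rintro (h1 | h1)
    · nlinarith
    · nlinarith
  · have a1 := Nat.lt_floor_add_one (x * m)
    have a2 := Nat.floor_le (mul_nonneg hx.1 hm'.le)
    have b1 := Nat.lt_floor_add_one (x * n)
    have b2 := Nat.floor_le (mul_nonneg hx.1 hn'.le)
    rintro (h1 | h1)
    · have h2 : ((⌊x * m⌋₊ : ℝ) + 1) * n ≤ ⌊x * n⌋₊ * m := by exact_mod_cast h1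
      have h3 : x * m * n < ((⌊x * m⌋₊ : ℝ) + 1) * n := mul_lt_mul_of_pos_right a1 hn'
      have h4 : (⌊x * n⌋₊ : ℝ) * m ≤ x * n * m := mul_le_mul_of_nonneg_right b2 hm'.le
      nlinarith
    · have h2 : ((⌊x * n⌋₊ : ℝ) + 1) * m ≤ ⌊x * m⌋₊ * n := by exact_mod_cast h1
      have h3 : x * n * m < ((⌊x * n⌋₊ : ℝ) + 1) * m := mul_lt_mul_of_pos_right b1 hm'
      have h4 : (⌊x * m⌋₊ : ℝ) * n ≤ x * m * n := mul_le_mul_of_nonneg_right a2 hn'.le
      nlinarith

lemma lengths_nonneg (u v w : ℕ) :
    ∀ i, 0 ≤ (![1 / (u : ℝ), 1 / (v : ℝ), 1 / (w : ℝ)] : Fin 3 → ℝ) i := by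
  intro i; fin_cases i <;> simp

lemma le_G3 (u v w : ℕ) : 1 - 1 / (u : ℝ) - 1 / v - 1 / w ≤ G3 u v w := by
  have h1 := le_G_uniform (lengths_nonneg u v w)
  rw [Fin.sum_univ_three] at h1
  simp only [Matrix.cons_val_zero, Matrix.cons_val_one, Matrix.cons_val] at h1
  unfold G3
  linarith

/-- **A coupling gives the value.** -/
theorem Cpl.value {u v w : ℕ} (C : Cpl u v w) (hu : 0 < u) (hv : 0 < v) (hw : 0 < w) :
    G3 u v w = 1 - 1 / (u : ℝ) - 1 / v - 1 / w := by
  refine le_antisymm ?_ (le_G3 u v w)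
  have hu' : (0 : ℝ) < u := by exact_mod_cast hu
  have hv' : (0 : ℝ) < v := by exact_mod_cast hv
  have hw' : (0 : ℝ) < w := by exact_mod_cast hw
  let n : Fin 3 → ℕ := ![u, v, w]
  let t : C.ι → Fin 3 → ℕ := fun i => ![C.a i, C.b i, C.c i]
  have hn : ∀ k, 0 < n k := by intro k; fin_cases k <;> simp [n] <;> assumption
  have hnr : ∀ k, (0 : ℝ) < n k := fun k => by exact_mod_cast hn k
  have ht : ∀ i k, t i k < n k := by
    intro i k
    fin_cases k
    · exact C.ha i
    · exact C.hb i
    · exact C.hc i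
  let J : C.ι → Fin 3 → Set ℝ := fun i k => Icc ((t i k : ℝ) / n k) (((t i k : ℝ) + 1) / n k)
  have hJ : ∀ i, Admissible ![1 / (u : ℝ), 1 / (v : ℝ), 1 / (w : ℝ)] (J i) := by
    intro i k
    refine ⟨_, _, by positivity, ?_, ?_, ?_, rfl⟩
    · exact div_le_div_of_nonneg_right (by linarith) (hnr k).le
    · rw [div_le_one (hnr k)]
      exact_mod_cast ht i k
    · rw [← sub_div, add_sub_cancel_left]
      fin_cases k <;> simp [n]
  have hfin := G_le (α := ![1 / (u : ℝ), 1 / (v : ℝ), 1 / (w : ℝ)]) C.p C.nonneg C.total J hJ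
    (1 / (u : ℝ) + 1 / v + 1 / w) ?_
  · unfold G3
    linarith
  · intro x hx
    have h1 := C.ma (tix u x) (tix_spec hu hx).1
    have h2 := C.mb (tix v x) (tix_spec hv hx).1
    have h3 := C.mc (tix w x) (tix_spec hw hx).1
    refine (add_le_add (add_le_add h1 h2) h3).trans ?_
    rw [← Finset.sum_add_distrib, ← Finset.sum_add_distrib]
    refine Finset.sum_le_sum fun i _ => ?_
    have hcov : ∀ k, t i k = tix (n k) x → (⋃ k, J i k).indicator (1 : ℝ → ℝ) x = 1 := by
      intro k hk
      rw [indicator_of_mem, Pi.one_apply]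
      rw [mem_iUnion]
      refine ⟨k, ?_⟩
      show x ∈ Icc ((t i k : ℝ) / n k) (((t i k : ℝ) + 1) / n k)
      rw [hk]
      obtain ⟨_, s2, s3⟩ := tix_spec (hn k) hx
      exact ⟨by rw [div_le_iff₀ (hnr k)]; exact s2, by rw [le_div_iff₀ (hnr k)]; exact s3⟩
    have hp := C.nonneg i
    have huv := C.uv i
    have huw := C.uw i
    have hvw := C.vw i
    have o1 := tix_ov hu hv hx
    have o2 := tix_ov hu hw hx
    have o3 := tix_ov hv hw hx
    by_cases e1 : C.a i = tix u x
    · have e2 : C.b i ≠ tix v x := fun h => o1 (by rw [← e1, ← h]; exact huv)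
      have e3 : C.c i ≠ tix w x := fun h => o2 (by rw [← e1, ← h]; exact huw)
      rw [if_pos e1, if_neg e2, if_neg e3, hcov 0 e1]
      linarith
    · by_cases e2 : C.b i = tix v x
      · have e3 : C.c i ≠ tix w x := fun h => o3 (by rw [← e2, ← h]; exact hvw)
        rw [if_neg e1, if_pos e2, if_neg e3, hcov 1 e2]
        linarith
      · by_cases e3 : C.c i = tix w x
        · rw [if_neg e1, if_neg e2, if_pos e3, hcov 2 e3]
          linarith
        · rw [if_neg e1, if_neg e2, if_neg e3]
          have : 0 ≤ (⋃ k, J i k).indicator (1 : ℝ → ℝ) x :=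
            indicator_nonneg (fun _ _ => by simp) _
          have := mul_nonneg hp this
          linarith

/-! ### Lifting a coupling from `w` to `w + D` -/

lemma noOv_lift {u w D a k : ℕ} (hw : 0 < w) (hD : 0 < D) (hu : u ∣ D) (hu0 : 0 < u)
    (h : NoOv u w a k) :
    NoOv u (w + D) a (k + k * D / w + 1) := by
  obtain ⟨q, rfl⟩ := hu
  have hq : 0 < q := Nat.pos_of_ne_zero (by rintro rfl; simp at hD)
  have hm := Nat.div_add_mod (k * (u * q)) w
  have hl := Nat.mod_lt (k * (u * q)) hw
  set s := k * (u * q) / w with hs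
  set r := k * (u * q) % w with hr
  unfold NoOv at h ⊢
  rcases h with h | h
  · left
    -- `(a + 1) w ≤ k u`
    have h1 : (a + 1) * q ≤ s := by
      rw [hs, Nat.le_div_iff_mul_le hw]
      calc (a + 1) * q * w = ((a + 1) * w) * q := by ring
        _ ≤ (k * u) * q := Nat.mul_le_mul_right _ h
        _ = _ := by ring
    calc (a + 1) * (w + u * q) = (a + 1) * w + ((a + 1) * q) * u := by ring
      _ ≤ k * u + s * u := add_le_add h (Nat.mul_le_mul_right _ h1)
      _ ≤ (k + s + 1) * u := by nlinarith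
  · right
    -- `(k + 1) u ≤ a w`
    have h1 : s < a * q := by
      rw [hs, Nat.div_lt_iff_lt_mul hw]
      calc k * (u * q) < ((k + 1) * u) * q := by nlinarith
        _ ≤ (a * w) * q := Nat.mul_le_mul_right _ h
        _ = _ := by ring
    calc (k + s + 1 + 1) * u = (k + 1) * u + (s + 1) * u := by ring
      _ ≤ a * w + (a * q) * u := add_le_add h (Nat.mul_le_mul_right _ h1)
      _ = a * (w + u * q) := by ring

lemma noOv_insert {u w D a s : ℕ} (hD : 0 < D) (hwD : D ≤ w) (h : NoOv u D a s) :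
    NoOv u (w + D) a ((s * w + D - 1) / D + s) := by
  have hw : 0 < w := by omega
  set c := (s * w + D - 1) / D with hc
  have hm := Nat.div_add_mod (s * w + D - 1) D
  have hl := Nat.mod_lt (s * w + D - 1) hD
  rw [← hc] at hm
  have c1 : s * w ≤ D * c := by omega
  have c2 : D * c ≤ s * w + D := by omega
  unfold NoOv at h ⊢
  rcases h with h | h
  · left
    -- `(a+1) D ≤ s u`; want `(a+1)(w+D) ≤ (c+s) u`
    have h1 : (a + 1) * w ≤ c * u := by
      have : (a + 1) * w * D ≤ c * u * D := by
        calc (a + 1) * w * D = ((a + 1) * D) * w := by ring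
          _ ≤ (s * u) * w := Nat.mul_le_mul_right _ h
          _ = (s * w) * u := by ring
          _ ≤ (D * c) * u := Nat.mul_le_mul_right _ c1
          _ = _ := by ring
      exact Nat.le_of_mul_le_mul_right this hD
    nlinarith
  · right
    -- `(s+1) u ≤ a D`; want `(c+s+1) u ≤ a (w+D)`
    have h1 : c * u ≤ a * w := by
      have h2 : D * c ≤ (s + 1) * w := by nlinarith
      have : c * u * D ≤ a * w * D := by
        calc c * u * D = (D * c) * u := by ring
          _ ≤ ((s + 1) * w) * u := Nat.mul_le_mul_right _ h2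
          _ = ((s + 1) * u) * w := by ring
          _ ≤ (a * D) * w := Nat.mul_le_mul_right _ h
          _ = _ := by ring
      exact Nat.le_of_mul_le_mul_right this hD
    nlinarith

/-- **Lifting.** -/
theorem Cpl.lift {u v w D : ℕ} (hu0 : 0 < u) (hv0 : 0 < v) (hu : u ∣ D) (hv : v ∣ D) (hD : 0 < D)
    (hwD : D ≤ w) (C : Cpl u v w) (E : Cpl u v D) : Nonempty (Cpl u v (w + D)) := by
  have hw : 0 < w := by omega
  have hw' : (0 : ℝ) < w := by exact_mod_cast hw
  have hD' : (0 : ℝ) < D := by exact_mod_cast hD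
  have key : ∀ (x : ℕ) (n : ℕ) (f : C.ι → ℕ) (g : E.ι → ℕ)
      (_ : 1 / (n : ℝ) ≤ ∑ i, if f i = x then C.p i else 0)
      (_ : 1 / (n : ℝ) ≤ ∑ i, if g i = x then E.p i else 0),
      1 / (n : ℝ) ≤ ∑ i : C.ι ⊕ E.ι, if Sum.elim f g i = x then
        Sum.elim (fun i => (w : ℝ) / (w + D) * C.p i) (fun i => (D : ℝ) / (w + D) * E.p i) i
        else 0 := by
    intro x n f g h1 h2
    rw [Fintype.sum_sum_type]
    change 1 / (n : ℝ) ≤ (∑ i, if f i = x then (w : ℝ) / (w + D) * C.p i else 0) +
      ∑ i, if g i = x then (D : ℝ) / (w + D) * E.p i else 0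
    have e1 : (∑ i, if f i = x then (w : ℝ) / (w + D) * C.p i else 0) =
        (w : ℝ) / (w + D) * ∑ i, if f i = x then C.p i else 0 := by
      rw [Finset.mul_sum]
      exact Finset.sum_congr rfl fun i _ => by split_ifs <;> simp
    have e2 : (∑ i, if g i = x then (D : ℝ) / (w + D) * E.p i else 0) =
        (D : ℝ) / (w + D) * ∑ i, if g i = x then E.p i else 0 := by
      rw [Finset.mul_sum]
      exact Finset.sum_congr rfl fun i _ => by split_ifs <;> simp
    rw [e1, e2]
    have e3 : 1 / (n : ℝ) = (w : ℝ) / (w + D) * (1 / n) + (D : ℝ) / (w + D) * (1 / n) := by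
      rw [← add_mul, ← add_div, div_self (by positivity), one_mul]
    rw [e3]
    exact add_le_add (mul_le_mul_of_nonneg_left h1 (by positivity))
      (mul_le_mul_of_nonneg_left h2 (by positivity))
  refine ⟨{
    ι := C.ι ⊕ E.ι
    fin := inferInstance
    p := Sum.elim (fun i => (w : ℝ) / (w + D) * C.p i) (fun i => (D : ℝ) / (w + D) * E.p i)
    a := Sum.elim C.a E.a
    b := Sum.elim C.b E.b
    c := Sum.elim (fun i => C.c i + C.c i * D / w + 1) (fun i => (E.c i * w + D - 1) / D + E.c i)
    nonneg := ?_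
    total := ?_
    ha := ?_
    hb := ?_
    hc := ?_
    uv := ?_
    uw := ?_
    vw := ?_
    ma := ?_
    mb := ?_
    mc := ?_ }⟩
  · rintro (i | i)
    · exact mul_nonneg (by positivity) (C.nonneg i)
    · exact mul_nonneg (by positivity) (E.nonneg i)
  · rw [Fintype.sum_sum_type]
    simp only [Sum.elim_inl, Sum.elim_inr]
    rw [← Finset.mul_sum, ← Finset.mul_sum, C.total, E.total, mul_one, mul_one, ← add_div,
      div_self (by positivity)]
  · rintro (i | i)
    · exact C.ha i
    · exact E.ha i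
  · rintro (i | i)
    · exact C.hb i
    · exact E.hb i
  · rintro (i | i)
    · show C.c i + C.c i * D / w + 1 < w + D
      have h1 := C.hc i
      have h2 : C.c i * D / w < D := by
        rw [Nat.div_lt_iff_lt_mul hw]
        nlinarith
      omega
    · show (E.c i * w + D - 1) / D + E.c i < w + D
      have h1 := E.hc i
      have h2 : (E.c i * w + D - 1) / D ≤ w := by
        rw [Nat.div_le_iff_le_mul_add_pred hD]
        have h3 : E.c i * w ≤ D * w := Nat.mul_le_mul_right _ h1.le
        omega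
      omega
  · rintro (i | i)
    · exact C.uv i
    · exact E.uv i
  · rintro (i | i)
    · exact noOv_lift hw hD hu hu0 (C.uw i)
    · exact noOv_insert hD hwD (E.uw i)
  · rintro (i | i)
    · exact noOv_lift hw hD hv hv0 (C.vw i)
    · exact noOv_insert hD hwD (E.vw i)
  · intro x hx
    exact key x u C.a E.a (C.ma x hx) (E.ma x hx)
  · intro x hx
    exact key x v C.b E.b (C.mb x hx) (E.mb x hx)
  · intro x hx
    rw [Fintype.sum_sum_type]
    change 1 / ((w + D : ℕ) : ℝ) ≤
      (∑ i, if C.c i + C.c i * D / w + 1 = x then (w : ℝ) / (w + D) * C.p i else 0) +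
      ∑ i, if (E.c i * w + D - 1) / D + E.c i = x then (D : ℝ) / (w + D) * E.p i else 0
    -- the cell of `x`
    set s := x * D / (w + D) with hs
    have hm := Nat.div_add_mod (x * D) (w + D)
    have hl := Nat.mod_lt (x * D) (show 0 < w + D by omega)
    rw [← hs] at hm
    have s1 : (w + D) * s ≤ x * D := by omega
    have s2 : x * D < (w + D) * s + (w + D) := by omega
    clear_value s
    have hsD : s < D := by
      by_contra hcon
      have : (w + D) * D ≤ (w + D) * s := Nat.mul_le_mul_left _ (by omega)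
      nlinarith
    have hsx : s ≤ x := by
      by_contra hcon
      nlinarith
    have n1 : 0 ≤ ∑ i, if C.c i + C.c i * D / w + 1 = x then (w : ℝ) / (w + D) * C.p i else 0 :=
      Finset.sum_nonneg fun i _ => by
        split_ifs
        · exact mul_nonneg (by positivity) (C.nonneg i)
        · exact le_rfl
    have n2 : 0 ≤ ∑ i, if (E.c i * w + D - 1) / D + E.c i = x then (D : ℝ) / (w + D) * E.p i
        else 0 :=
      Finset.sum_nonneg fun i _ => by
        split_ifs
        · exact mul_nonneg (by positivity) (E.nonneg i)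
        · exact le_rfl
    by_cases hx1 : x = (s * w + D - 1) / D + s
    · -- inserted tile
      have h1 := E.mc s hsD
      have h2 : (D : ℝ) / (w + D) * (1 / D) ≤
          ∑ i, if (E.c i * w + D - 1) / D + E.c i = x then (D : ℝ) / (w + D) * E.p i else 0 := by
        refine (mul_le_mul_of_nonneg_left h1 (by positivity)).trans ?_
        rw [Finset.mul_sum]
        refine Finset.sum_le_sum fun i _ => ?_
        by_cases h3 : E.c i = s
        · rw [if_pos h3, if_pos (by rw [h3]; exact hx1.symm)]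
        · rw [if_neg h3, mul_zero]
          split_ifs
          · exact mul_nonneg (by positivity) (E.nonneg i)
          · exact le_rfl
      have h3 : (D : ℝ) / (w + D) * (1 / D) = 1 / ((w + D : ℕ) : ℝ) := by
        push_cast; field_simp
      linarith
    · -- shifted tile
      have hc1 : s * w ≤ (x - s) * D := by
        zify [hsx]
        zify at s1
        nlinarith
      have hc2 : (s * w + D - 1) / D ≤ x - s := by
        rw [Nat.div_le_iff_le_mul_add_pred hD]
        have : (x - s) * D = D * (x - s) := Nat.mul_comm _ _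
        omega
      have hc3 : (s * w + D - 1) / D < x - s :=
        lt_of_le_of_ne hc2 fun h => hx1 (by rw [h]; omega)
      obtain ⟨k, hk⟩ : ∃ k, x = k + s + 1 :=
        ⟨x - s - 1, by have := lt_of_le_of_lt (Nat.zero_le _) hc3; omega⟩
      have hk1 : s * w ≤ k * D := by
        have h1 : (s * w + D - 1) / D ≤ k := by
          have h5 : x - s = k + 1 := by omega
          rw [h5] at hc3
          exact Nat.lt_succ_iff.1 hc3
        rw [Nat.div_le_iff_le_mul_add_pred hD] at h1
        have : k * D = D * k := Nat.mul_comm _ _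
        omega
      have hk2 : k * D < (s + 1) * w := by
        rw [hk] at s2
        nlinarith
      have hk3 : k * D / w = s := by
        rw [Nat.div_eq_of_lt_le]
        · exact hk1
        · exact hk2
      have hk4 : k < w := by
        by_contra hcon
        have : w * D ≤ k * D := Nat.mul_le_mul_right _ (by omega)
        nlinarith
      have h1 := C.mc k hk4
      have h2 : (w : ℝ) / (w + D) * (1 / w) ≤
          ∑ i, if C.c i + C.c i * D / w + 1 = x then (w : ℝ) / (w + D) * C.p i else 0 := by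
        refine (mul_le_mul_of_nonneg_left h1 (by positivity)).trans ?_
        rw [Finset.mul_sum]
        refine Finset.sum_le_sum fun i _ => ?_
        by_cases h3 : C.c i = k
        · rw [if_pos h3, if_pos (by rw [h3, hk3]; exact hk.symm)]
        · rw [if_neg h3, mul_zero]
          split_ifs
          · exact mul_nonneg (by positivity) (C.nonneg i)
          · exact le_rfl
      have h3 : (w : ℝ) / (w + D) * (1 / w) = 1 / ((w + D : ℕ) : ℝ) := by
        push_cast; field_simp
      linarith

/-! ### Finite certificates -/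

/-- the total weight of a certificate -/
def totW (l : List (ℕ × ℕ × ℕ × ℕ)) : ℕ := (l.map fun e => e.2.2.2).sum

/-- the check of a certificate: a list of entries `(i, j, k, weight)` -/
def chk (u v w : ℕ) (l : List (ℕ × ℕ × ℕ × ℕ)) : Bool :=
  decide (0 < totW l) &&
  l.all (fun e => decide (e.1 < u) && decide (e.2.1 < v) && decide (e.2.2.1 < w) &&
    decide (NoOv u v e.1 e.2.1) && decide (NoOv u w e.1 e.2.2.1) &&
    decide (NoOv v w e.2.1 e.2.2.1)) &&
  (List.range u).all (fun x =>
    decide (totW l ≤ u * (l.map fun e => if e.1 = x then e.2.2.2 else 0).sum)) &&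
  (List.range v).all (fun x =>
    decide (totW l ≤ v * (l.map fun e => if e.2.1 = x then e.2.2.2 else 0).sum)) &&
  (List.range w).all (fun x =>
    decide (totW l ≤ w * (l.map fun e => if e.2.2.1 = x then e.2.2.2 else 0).sum))

lemma sum_get (l : List (ℕ × ℕ × ℕ × ℕ)) (N : ℝ) (f : ℕ × ℕ × ℕ × ℕ → ℕ) :
    ∑ i : Fin l.length, (f l[i.1] : ℝ) / N = ((l.map f).sum : ℕ) / N := by
  rw [Fin.sum_univ_fun_getElem l (fun e => (f e : ℝ) / N)]
  induction l with
  | nil => simp
  | cons a l ih => simp only [List.map_cons, List.sum_cons, ih]; push_cast; ring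

theorem cpl_of_chk {u v w : ℕ} (hu : 0 < u) (hv : 0 < v) (hw : 0 < w)
    {l : List (ℕ × ℕ × ℕ × ℕ)} (h : chk u v w l = true) : Nonempty (Cpl u v w) := by
  unfold chk at h
  simp only [Bool.and_eq_true, decide_eq_true_eq, List.all_eq_true, List.mem_range] at h
  obtain ⟨⟨⟨⟨h0, h1⟩, h2⟩, h3⟩, h4⟩ := h
  have h0' : (0 : ℝ) < totW l := by exact_mod_cast h0
  have hmem : ∀ i : Fin l.length, l[i.1] ∈ l := fun i => List.getElem_mem _
  have marg : ∀ (n : ℕ) (_ : 0 < n) (f : ℕ × ℕ × ℕ × ℕ → ℕ) (x : ℕ)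
      (_ : totW l ≤ n * (l.map fun e => if f e = x then e.2.2.2 else 0).sum),
      1 / (n : ℝ) ≤ ∑ i : Fin l.length,
        if f l[i.1] = x then ((l[i.1].2.2.2 : ℕ) : ℝ) / totW l else 0 := by
    intro n hn f x hx
    have e1 : (∑ i : Fin l.length, if f l[i.1] = x then ((l[i.1].2.2.2 : ℕ) : ℝ) / totW l else 0) =
        ((l.map fun e => if f e = x then e.2.2.2 else 0).sum : ℕ) / (totW l : ℝ) := by
      rw [← sum_get l (totW l) (fun e => if f e = x then e.2.2.2 else 0)]
      refine Finset.sum_congr rfl fun i _ => ?_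
      split_ifs <;> simp
    have hn' : (0 : ℝ) < n := by exact_mod_cast hn
    rw [e1, div_le_div_iff₀ hn' h0', one_mul, mul_comm]
    exact_mod_cast hx
  refine ⟨{
    ι := Fin l.length
    fin := inferInstance
    p := fun i => ((l[i.1].2.2.2 : ℕ) : ℝ) / totW l
    a := fun i => l[i.1].1
    b := fun i => l[i.1].2.1
    c := fun i => l[i.1].2.2.1
    nonneg := fun i => by positivity
    total := ?_
    ha := fun i => (h1 _ (hmem i)).1.1.1.1.1
    hb := fun i => (h1 _ (hmem i)).1.1.1.1.2
    hc := fun i => (h1 _ (hmem i)).1.1.1.2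
    uv := fun i => (h1 _ (hmem i)).1.1.2
    uw := fun i => (h1 _ (hmem i)).1.2
    vw := fun i => (h1 _ (hmem i)).2
    ma := fun x hx => marg u hu (fun e => e.1) x (h2 x hx)
    mb := fun x hx => marg v hv (fun e => e.2.1) x (h3 x hx)
    mc := fun x hx => marg w hw (fun e => e.2.2.1) x (h4 x hx) }⟩
  rw [sum_get l (totW l) (fun e => e.2.2.2)]
  exact div_self h0'.ne'

end Pool.Agent.K6.H13.TIG
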