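import Mathlib
import Pool.Agent.K6.H13.TIG.Basic
import Pool.Agent.K6.H13.TIG.Coupling

/-!
# Finitely supported strategies of BLUE and grid certificates
-/

set_option autoImplicit false

namespace Pool.Agent.K6.H13.TIG

open MeasureTheory Set

/-- **BLUE's side.** A finitely supported strategy. -/
lemma le_G_atoms {α : Fin 3 → ℝ} (hα : ∀ i, 0 ≤ α i) {ι : Type} [Fintype ι] (x : ι → ℝ)
    (hx : ∀ i, x i ∈ Icc (0 : ℝ) 1) (p : ι → ℝ) (hp : ∀ i, 0 ≤ p i) (hp1 : ∑ i, p i = 1) (c : ℝ)
    (h : ∀ J, Admissible α J → ∑ i, p i * (⋃ k, J k).indicator 1 (x i) ≤ c) : 1 - c ≤ G α := by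
  have := red_nonempty hα
  let m : Measure ℝ := ∑ i, ENNReal.ofReal (p i) • Measure.dirac (x i)
  have happ : ∀ s : Set ℝ, MeasurableSet s → m s = ∑ i, ENNReal.ofReal (p i) * s.indicator 1 (x i) := by
    intro s hs
    simp only [m, Measure.finsetSum_apply, Measure.smul_apply, smul_eq_mul]
    refine Finset.sum_congr rfl fun i _ => ?_
    rw [Measure.dirac_apply' _ hs]
  have hreal : ∀ s : Set ℝ, MeasurableSet s → m.real s = ∑ i, p i * s.indicator 1 (x i) := by
    intro s hs
    rw [Measure.real, happ s hs, ENNReal.toReal_sum]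
    · refine Finset.sum_congr rfl fun i _ => ?_
      rw [ENNReal.toReal_mul, ENNReal.toReal_ofReal (hp i)]
      by_cases hi : x i ∈ s
      · rw [indicator_of_mem hi, indicator_of_mem hi]; simp
      · rw [indicator_of_notMem hi, indicator_of_notMem hi]; simp
    · intro i _
      refine ENNReal.mul_ne_top ENNReal.ofReal_ne_top ?_
      by_cases hi : x i ∈ s
      · rw [indicator_of_mem hi]; simp
      · rw [indicator_of_notMem hi]; simp
  have hprob : IsProbabilityMeasure m := by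
    refine ⟨?_⟩
    rw [happ _ MeasurableSet.univ]
    simp only [indicator_univ, Pi.one_apply, mul_one]
    rw [← ENNReal.ofReal_sum_of_nonneg (fun i _ => hp i), hp1, ENNReal.ofReal_one]
  let μ : BlueStrategy := ⟨m, hprob, by
    rw [happ _ measurableSet_Icc.compl]
    refine Finset.sum_eq_zero fun i _ => ?_
    rw [indicator_of_notMem (by simpa using hx i), mul_zero]⟩
  refine le_trans ?_ (le_ciSup sup_bdd μ)
  refine le_ciInf fun J => ?_
  have h1 := h J.1 J.2
  have hm := J.2.measurable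
  have h2 : μ.1.real (Icc 0 1 \ ⋃ i, J.1 i) = 1 - μ.1.real (⋃ i, J.1 i) := by
    have : IsProbabilityMeasure μ.1 := hprob
    rw [← probReal_compl_eq_one_sub hm]
    refine measureReal_congr ?_
    have h4 : ∀ᵐ x ∂μ.1, x ∈ Icc (0 : ℝ) 1 := by
      rw [ae_iff]; exact μ.2.2
    filter_upwards [h4] with x hx
    refine propext ?_
    show x ∈ Icc (0 : ℝ) 1 \ ⋃ k, J.1 k ↔ x ∈ (⋃ k, J.1 k)ᶜ
    simp [hx]
  rw [h2]
  have h3 : μ.1.real (⋃ i, J.1 i) ≤ c := by
    show m.real _ ≤ c
    rw [hreal _ hm]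
    exact h1
  linarith

/-- `G` is antitone in the lengths. -/
lemma G_anti {α β : Fin 3 → ℝ} (hα : ∀ i, 0 ≤ α i) (h : ∀ i, α i ≤ β i) : G β ≤ G α := by
  have h1 := red_nonempty hα
  refine ciSup_mono sup_bdd fun μ => ?_
  refine le_ciInf fun J => ?_
  exact ciInf_le (inf_bdd μ) (⟨J.1, fun i => by
    obtain ⟨a, b, h0, h1, h2, h3, h4⟩ := J.2 i
    exact ⟨a, b, h0, h1, h2, h3.trans (h i), h4⟩⟩ : RedStrategy β)

/-! ### The dynamic programming bound -/

open Classical in
/-- the weight of the points below `x` that have the property `B` -/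
noncomputable def wt (W : ℕ → ℕ) (B : ℕ → Prop) (x : ℕ) : ℕ :=
  ∑ y ∈ Finset.range x, if B y then W y else 0

lemma wt_mono {W : ℕ → ℕ} {B B' : ℕ → Prop} {x : ℕ} (h : ∀ y < x, B y → B' y) :
    wt W B x ≤ wt W B' x := by
  refine Finset.sum_le_sum fun y hy => ?_
  rw [Finset.mem_range] at hy
  by_cases h1 : B y
  · rw [if_pos h1, if_pos (h y hy h1)]
  · rw [if_neg h1]; exact Nat.zero_le _

lemma wt_split {W P : ℕ → ℕ} {L : ℕ} (hP : ∀ y < L, P (y + 1) = P y + W y) {B : ℕ → Prop}
    {a x : ℕ} (hax : a ≤ x) (hx : x ≤ L) : wt W B x + P a ≤ wt W B a + P x := by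
  induction x, hax using Nat.le_induction with
  | base => exact le_rfl
  | succ x hx' ih =>
    have h1 := ih (by omega)
    have h2 := hP x (by omega)
    have h3 : wt W B (x + 1) ≤ wt W B x + W x := by
      unfold wt
      rw [Finset.sum_range_succ]
      split_ifs <;> omega
    omega

lemma gen {W P : ℕ → ℕ} {L : ℕ} (hP : ∀ y < L, P (y + 1) = P y + W y) {K : Type}
    (U : ℕ → Prop) (A V : K → ℕ → Prop) (l : K → ℕ) (hU : ∀ y, U y → ∃ k, A k y)
    (hV : ∀ k y, U y → A k y ∨ V k y) (hA : ∀ k y y', A k y → A k y' → y' < y + l k)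
    (F : ℕ → ℕ) (g : K → ℕ → ℕ) (hg : ∀ k, ∀ x ≤ L, wt W (V k) x ≤ g k x)
    (mono : ∀ x < L, F x ≤ F (x + 1))
    (step : ∀ k, ∀ x ≤ L, g k (x - l k) + P x ≤ F x + P (x - l k)) :
    ∀ x ≤ L, wt W U x ≤ F x := by
  intro x
  induction x with
  | zero => intro _; simp [wt]
  | succ x ih =>
    intro hx
    by_cases h : U x
    · obtain ⟨k, hk⟩ := hU x h
      have h1 := step k (x + 1) hx
      have h2 := wt_split hP (B := U) (Nat.sub_le (x + 1) (l k)) hx
      have h3 : wt W U (x + 1 - l k) ≤ wt W (V k) (x + 1 - l k) := by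
        refine wt_mono fun y hy hUy => ?_
        refine (hV k y hUy).resolve_left fun hAy => ?_
        have := hA k y x hAy hk
        omega
      have h4 := hg k (x + 1 - l k) (by omega)
      omega
    · have h1 : wt W U (x + 1) = wt W U x := by
        unfold wt
        rw [Finset.sum_range_succ, if_neg h, Nat.add_zero]
      rw [h1]
      exact (ih (by omega)).trans (mono x (by omega))

/-- the `x`-th digit in base `1024` -/
def dg (c x : ℕ) : ℕ := (c >>> (10 * x)) % 1024

/-- the check of BLUE's certificate: prefix sums `P` and the seven tables -/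
def chkB (L a b c P f1 f2 f3 f12 f13 f23 f123 : ℕ) : Bool :=
  (List.range L).all (fun x =>
    Nat.ble (dg P x) (dg P (x + 1)) && Nat.ble (dg f1 x) (dg f1 (x + 1)) &&
    Nat.ble (dg f2 x) (dg f2 (x + 1)) && Nat.ble (dg f3 x) (dg f3 (x + 1)) &&
    Nat.ble (dg f12 x) (dg f12 (x + 1)) && Nat.ble (dg f13 x) (dg f13 (x + 1)) &&
    Nat.ble (dg f23 x) (dg f23 (x + 1)) && Nat.ble (dg f123 x) (dg f123 (x + 1))) &&
  (List.range (L + 1)).all (fun x =>
    Nat.ble (dg P x) (dg f1 x + dg P (x - a)) && Nat.ble (dg P x) (dg f2 x + dg P (x - b)) &&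
    Nat.ble (dg P x) (dg f3 x + dg P (x - c)) &&
    Nat.ble (dg f2 (x - a) + dg P x) (dg f12 x + dg P (x - a)) &&
    Nat.ble (dg f1 (x - b) + dg P x) (dg f12 x + dg P (x - b)) &&
    Nat.ble (dg f3 (x - a) + dg P x) (dg f13 x + dg P (x - a)) &&
    Nat.ble (dg f1 (x - c) + dg P x) (dg f13 x + dg P (x - c)) &&
    Nat.ble (dg f3 (x - b) + dg P x) (dg f23 x + dg P (x - b)) &&
    Nat.ble (dg f2 (x - c) + dg P x) (dg f23 x + dg P (x - c)) &&
    Nat.ble (dg f23 (x - a) + dg P x) (dg f123 x + dg P (x - a)) &&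
    Nat.ble (dg f13 (x - b) + dg P x) (dg f123 x + dg P (x - b)) &&
    Nat.ble (dg f12 (x - c) + dg P x) (dg f123 x + dg P (x - c)))

lemma chkB_bound {L a b c P f1 f2 f3 f12 f13 f23 f123 : ℕ}
    (h : chkB L a b c P f1 f2 f3 f12 f13 f23 f123 = true) {W : ℕ → ℕ}
    (hW : ∀ y, W y = dg P (y + 1) - dg P y)
    (A B C : ℕ → Prop) (hA : ∀ y y', A y → A y' → y' < y + a)
    (hB : ∀ y y', B y → B y' → y' < y + b) (hC : ∀ y y', C y → C y' → y' < y + c) :
    wt W (fun y => A y ∨ B y ∨ C y) L ≤ dg f123 L := by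
  unfold chkB at h
  simp only [Bool.and_eq_true, List.all_eq_true, List.mem_range, Nat.ble_eq] at h
  obtain ⟨hm, hs⟩ := h
  have hP : ∀ y < L, dg P (y + 1) = dg P y + W y := by
    intro y hy
    rw [hW]
    have := (hm y hy).1.1.1.1.1.1.1
    omega
  have hs' : ∀ x ≤ L, _ := fun x hx => hs x (Nat.lt_succ_of_le hx)
  have e0 : ∀ x ≤ L, wt W (fun _ => False) x ≤ 0 := fun x _ => by simp [wt]
  -- one block
  have k1 : ∀ x ≤ L, wt W A x ≤ dg f1 x :=
    gen hP A (fun _ : Unit => A) (fun _ _ => False) (fun _ => a) (fun y hy => ⟨(), hy⟩)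
      (fun _ y hy => Or.inl hy) (fun _ => hA) (dg f1) (fun _ _ => 0) (fun _ => e0)
      (fun x hx => (hm x hx).1.1.1.1.1.1.2)
      (fun _ x hx => by have := (hs' x hx).1.1.1.1.1.1.1.1.1.1.1; simpa using this)
  have k2 : ∀ x ≤ L, wt W B x ≤ dg f2 x :=
    gen hP B (fun _ : Unit => B) (fun _ _ => False) (fun _ => b) (fun y hy => ⟨(), hy⟩)
      (fun _ y hy => Or.inl hy) (fun _ => hB) (dg f2) (fun _ _ => 0) (fun _ => e0)
      (fun x hx => (hm x hx).1.1.1.1.1.2)
      (fun _ x hx => by have := (hs' x hx).1.1.1.1.1.1.1.1.1.1.2; simpa using this)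
  have k3 : ∀ x ≤ L, wt W C x ≤ dg f3 x :=
    gen hP C (fun _ : Unit => C) (fun _ _ => False) (fun _ => c) (fun y hy => ⟨(), hy⟩)
      (fun _ y hy => Or.inl hy) (fun _ => hC) (dg f3) (fun _ _ => 0) (fun _ => e0)
      (fun x hx => (hm x hx).1.1.1.1.2)
      (fun _ x hx => by have := (hs' x hx).1.1.1.1.1.1.1.1.1.2; simpa using this)
  -- two blocks
  have k12 : ∀ x ≤ L, wt W (fun y => A y ∨ B y) x ≤ dg f12 x := by
    refine gen hP (fun y => A y ∨ B y) (fun k : Fin 2 => ![A, B] k) (fun k => ![B, A] k)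
      ![a, b] ?_ ?_ ?_ (dg f12) (fun k => ![dg f2, dg f1] k) ?_
      (fun x hx => (hm x hx).1.1.1.2) ?_
    · rintro y (hy | hy)
      · exact ⟨0, hy⟩
      · exact ⟨1, hy⟩
    · intro k y hy; fin_cases k
      · exact hy
      · exact hy.symm
    · intro k; fin_cases k
      · exact hA
      · exact hB
    · intro k; fin_cases k
      · exact k2
      · exact k1
    · intro k x hx; fin_cases k
      · exact (hs' x hx).1.1.1.1.1.1.1.1.2
      · exact (hs' x hx).1.1.1.1.1.1.1.2
  have k13 : ∀ x ≤ L, wt W (fun y => A y ∨ C y) x ≤ dg f13 x := by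
    refine gen hP (fun y => A y ∨ C y) (fun k : Fin 2 => ![A, C] k) (fun k => ![C, A] k)
      ![a, c] ?_ ?_ ?_ (dg f13) (fun k => ![dg f3, dg f1] k) ?_
      (fun x hx => (hm x hx).1.1.2) ?_
    · rintro y (hy | hy)
      · exact ⟨0, hy⟩
      · exact ⟨1, hy⟩
    · intro k y hy; fin_cases k
      · exact hy
      · exact hy.symm
    · intro k; fin_cases k
      · exact hA
      · exact hC
    · intro k; fin_cases k
      · exact k3
      · exact k1
    · intro k x hx; fin_cases k
      · exact (hs' x hx).1.1.1.1.1.1.2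
      · exact (hs' x hx).1.1.1.1.1.2
  have k23 : ∀ x ≤ L, wt W (fun y => B y ∨ C y) x ≤ dg f23 x := by
    refine gen hP (fun y => B y ∨ C y) (fun k : Fin 2 => ![B, C] k) (fun k => ![C, B] k)
      ![b, c] ?_ ?_ ?_ (dg f23) (fun k => ![dg f3, dg f2] k) ?_
      (fun x hx => (hm x hx).1.2) ?_
    · rintro y (hy | hy)
      · exact ⟨0, hy⟩
      · exact ⟨1, hy⟩
    · intro k y hy; fin_cases k
      · exact hy
      · exact hy.symm
    · intro k; fin_cases k
      · exact hB
      · exact hC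
    · intro k; fin_cases k
      · exact k3
      · exact k2
    · intro k x hx; fin_cases k
      · exact (hs' x hx).1.1.1.1.2
      · exact (hs' x hx).1.1.1.2
  -- three blocks
  have k123 : ∀ x ≤ L, wt W (fun y => A y ∨ B y ∨ C y) x ≤ dg f123 x := by
    refine gen hP (fun y => A y ∨ B y ∨ C y) (fun k : Fin 3 => ![A, B, C] k)
      (fun k => ![fun y => B y ∨ C y, fun y => A y ∨ C y, fun y => A y ∨ B y] k)
      ![a, b, c] ?_ ?_ ?_ (dg f123) (fun k => ![dg f23, dg f13, dg f12] k) ?_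
      (fun x hx => (hm x hx).2) ?_
    · rintro y (hy | hy | hy)
      · exact ⟨0, hy⟩
      · exact ⟨1, hy⟩
      · exact ⟨2, hy⟩
    · intro k y hy; fin_cases k
      · exact hy
      · rcases hy with hy | hy | hy
        · exact Or.inr (Or.inl hy)
        · exact Or.inl hy
        · exact Or.inr (Or.inr hy)
      · rcases hy with hy | hy | hy
        · exact Or.inr (Or.inl hy)
        · exact Or.inr (Or.inr hy)
        · exact Or.inl hy
    · intro k; fin_cases k
      · exact hA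
      · exact hB
      · exact hC
    · intro k; fin_cases k
      · exact k23
      · exact k13
      · exact k12
    · intro k x hx; fin_cases k
      · exact (hs' x hx).1.1.2
      · exact (hs' x hx).1.2
      · exact (hs' x hx).2
  exact k123 L le_rfl

/-- **BLUE's certificate gives a lower bound for the value.** -/
theorem le_G3_of_chkB {u v w L a b c P f1 f2 f3 f12 f13 f23 f123 : ℕ}
    (hL : 1 < L) (ha : u * a = L) (hb : v * b = L) (hc : w * c = L)
    (h : chkB L a b c P f1 f2 f3 f12 f13 f23 f123 = true) (hP0 : dg P 0 = 0)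
    (hN : 0 < dg P L) : 1 - (dg f123 L : ℝ) / dg P L ≤ G3 u v w := by
  classical
  have hN' : (0 : ℝ) < dg P L := by exact_mod_cast hN
  have hL' : (1 : ℝ) < L := by exact_mod_cast hL
  set W : ℕ → ℕ := fun y => dg P (y + 1) - dg P y with hW
  have hP : ∀ y < L, dg P (y + 1) = dg P y + W y := by
    intro y hy
    have h' := h
    unfold chkB at h'
    simp only [Bool.and_eq_true, List.all_eq_true, List.mem_range, Nat.ble_eq] at h'
    have := (h'.1 y hy).1.1.1.1.1.1.1
    simp only [hW]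
    omega
  have htot : ∀ x ≤ L, ∑ y ∈ Finset.range x, W y = dg P x := by
    intro x
    induction x with
    | zero => intro _; simp [hP0]
    | succ x ih =>
      intro hx
      rw [Finset.sum_range_succ, ih (by omega), hP x (by omega)]
  refine le_G_atoms (lengths_nonneg u v w) (ι := Fin L) (fun y => (y.1 : ℝ) / (L - 1)) ?_
    (fun y => (W y.1 : ℝ) / dg P L) (fun y => by positivity) ?_ _ ?_
  · intro y
    have h1 : (0 : ℝ) < (L : ℝ) - 1 := by linarith
    refine ⟨by positivity, ?_⟩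
    rw [div_le_one h1]
    have h2 : y.1 + 1 ≤ L := y.2
    have h3 : ((y.1 + 1 : ℕ) : ℝ) ≤ L := by exact_mod_cast h2
    push_cast at h3
    linarith
  · rw [← Finset.sum_div, Fin.sum_univ_eq_sum_range (fun y => (W y : ℝ)) L, ← Nat.cast_sum,
      htot L le_rfl, div_self hN'.ne']
  · intro J hJ
    -- spans of the blocks
    have span : ∀ (k : Fin 3) (n q : ℕ), 0 < q → n * q = L →
        (![1 / (u : ℝ), 1 / (v : ℝ), 1 / (w : ℝ)] : Fin 3 → ℝ) k = 1 / (n : ℝ) →
        ∀ y y' : ℕ, (y : ℝ) / (L - 1) ∈ J k → (y' : ℝ) / (L - 1) ∈ J k → y' < y + q := by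
      intro k n q hq hnq hk y y' hy hy'
      obtain ⟨s, t, h0, h1, h2, h3, h4⟩ := hJ k
      rw [h4] at hy hy'
      rw [hk] at h3
      have h5 : (0 : ℝ) < (L : ℝ) - 1 := by linarith
      have hn : 0 < n := Nat.pos_of_ne_zero (by rintro rfl; omega)
      have hn' : (0 : ℝ) < n := by exact_mod_cast hn
      have hq' : (0 : ℝ) < q := by exact_mod_cast hq
      have h6 : (y' : ℝ) / (L - 1) - y / (L - 1) ≤ 1 / n := by
        have := hy.1
        have := hy'.2
        linarith
      rw [← sub_div, div_le_iff₀ h5] at h6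
      have h7 : (n : ℝ) * q = L := by exact_mod_cast hnq
      have h8 : 1 / (n : ℝ) * (L - 1) < q := by
        rw [← h7]
        have : 1 / (n : ℝ) * (n * q - 1) = q - 1 / n := by field_simp
        rw [this]
        have : 0 < 1 / (n : ℝ) := by positivity
        linarith
      have h9 : (y' : ℝ) < y + q := by linarith
      exact_mod_cast h9
    have ha0 : 0 < a := Nat.pos_of_ne_zero (by rintro rfl; omega)
    have hb0 : 0 < b := Nat.pos_of_ne_zero (by rintro rfl; omega)
    have hc0 : 0 < c := Nat.pos_of_ne_zero (by rintro rfl; omega)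
    have key := chkB_bound h (W := W) (fun _ => rfl)
      (fun y => (y : ℝ) / (L - 1) ∈ J 0) (fun y => (y : ℝ) / (L - 1) ∈ J 1)
      (fun y => (y : ℝ) / (L - 1) ∈ J 2)
      (span 0 u a ha0 ha rfl) (span 1 v b hb0 hb rfl) (span 2 w c hc0 hc rfl)
    have e1 : ∑ y : Fin L, (W y.1 : ℝ) / dg P L * (⋃ k, J k).indicator 1 ((y.1 : ℝ) / (L - 1)) =
        (wt W (fun y => (y : ℝ) / (L - 1) ∈ J 0 ∨ (y : ℝ) / (L - 1) ∈ J 1 ∨
          (y : ℝ) / (L - 1) ∈ J 2) L : ℕ) / (dg P L : ℝ) := by
      rw [Fin.sum_univ_eq_sum_range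
        (fun y => (W y : ℝ) / dg P L * (⋃ k, J k).indicator 1 ((y : ℝ) / (L - 1))) L]
      unfold wt
      rw [Nat.cast_sum, Finset.sum_div]
      refine Finset.sum_congr rfl fun y _ => ?_
      have hiff : (y : ℝ) / (L - 1) ∈ (⋃ k, J k) ↔ ((y : ℝ) / (L - 1) ∈ J 0 ∨
          (y : ℝ) / (L - 1) ∈ J 1 ∨ (y : ℝ) / (L - 1) ∈ J 2) := by
        rw [mem_iUnion, Fin.exists_fin_succ, Fin.exists_fin_succ, Fin.exists_fin_one]
        rfl
      by_cases hy : (y : ℝ) / (L - 1) ∈ (⋃ k, J k)
      · rw [indicator_of_mem hy, if_pos (hiff.1 hy), Pi.one_apply, mul_one]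
      · rw [indicator_of_notMem hy, if_neg (fun h => hy (hiff.2 h)), mul_zero, Nat.cast_zero,
          zero_div]
    rw [e1]
    refine div_le_div_of_nonneg_right ?_ hN'.le
    exact_mod_cast key

/-! ### RED's grid certificates -/

/-- the check of RED's grid certificate with entries `(p, q, r, weight)` -/
def chkR (L a b c K : ℕ) (l : List (ℕ × ℕ × ℕ × ℕ)) : Bool :=
  decide (0 < totW l) &&
  l.all (fun e => Nat.ble (e.1 + a) L && Nat.ble (e.2.1 + b) L && Nat.ble (e.2.2.1 + c) L) &&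
  (List.range L).all (fun s => Nat.ble K (l.map fun e =>
    bif (Nat.ble e.1 s && Nat.blt s (e.1 + a)) || (Nat.ble e.2.1 s && Nat.blt s (e.2.1 + b)) ||
      (Nat.ble e.2.2.1 s && Nat.blt s (e.2.2.1 + c)) then e.2.2.2 else 0).sum)

theorem G3_le_of_chkR {u v w L a b c K : ℕ} {l : List (ℕ × ℕ × ℕ × ℕ)} (hL : 0 < L)
    (ha : u * a = L) (hb : v * b = L) (hc : w * c = L) (h : chkR L a b c K l = true) :
    G3 u v w ≤ 1 - (K : ℝ) / totW l := by
  classical
  unfold chkR at h
  simp only [Bool.and_eq_true, decide_eq_true_eq, List.all_eq_true, List.mem_range,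
    Nat.ble_eq] at h
  obtain ⟨⟨h0, h1⟩, h2⟩ := h
  have h0' : (0 : ℝ) < totW l := by exact_mod_cast h0
  have hL' : (0 : ℝ) < L := by exact_mod_cast hL
  have hmem : ∀ i : Fin l.length, l[i.1] ∈ l := fun i => List.getElem_mem _
  let st : Fin l.length → Fin 3 → ℕ := fun i => ![l[i.1].1, l[i.1].2.1, l[i.1].2.2.1]
  let ln : Fin 3 → ℕ := ![a, b, c]
  let J : Fin l.length → Fin 3 → Set ℝ := fun i k =>
    Icc ((st i k : ℝ) / L) (((st i k : ℝ) + ln k) / L)
  refine G_le (α := ![1 / (u : ℝ), 1 / (v : ℝ), 1 / (w : ℝ)])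
    (fun i : Fin l.length => ((l[i.1].2.2.2 : ℕ) : ℝ) / totW l) (fun i => by positivity) ?_ J ?_
    ((K : ℝ) / totW l) ?_
  · rw [sum_get l (totW l) (fun e => e.2.2.2)]
    exact div_self h0'.ne'
  · intro i k
    have hk : st i k + ln k ≤ L := by
      fin_cases k
      · exact (h1 _ (hmem i)).1.1
      · exact (h1 _ (hmem i)).1.2
      · exact (h1 _ (hmem i)).2
    have hlen : ∀ n q : ℕ, n * q = L → (q : ℝ) / L = 1 / n := by
      intro n q hnq
      have hn : 0 < n := Nat.pos_of_ne_zero (by rintro rfl; omega)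
      have hq : 0 < q := Nat.pos_of_ne_zero (by rintro rfl; omega)
      have hn' : (0 : ℝ) < n := by exact_mod_cast hn
      have hq' : (0 : ℝ) < q := by exact_mod_cast hq
      have : (n : ℝ) * q = L := by exact_mod_cast hnq
      rw [← this]
      field_simp
    refine ⟨_, _, by positivity, ?_, ?_, ?_, rfl⟩
    · refine div_le_div_of_nonneg_right ?_ hL'.le
      have : (0 : ℝ) ≤ ln k := Nat.cast_nonneg _
      linarith
    · rw [div_le_one hL']
      exact_mod_cast hk
    · rw [← sub_div, add_sub_cancel_left]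
      fin_cases k
      · exact (hlen u a ha).le
      · exact (hlen v b hb).le
      · exact (hlen w c hc).le
  · intro x hx
    obtain ⟨s1, s2, s3⟩ := tix_spec hL hx
    set s := tix L x with hs
    have h3 := h2 s s1
    have h4 : (K : ℝ) / totW l ≤ (((l.map fun e =>
        bif (Nat.ble e.1 s && Nat.blt s (e.1 + a)) || (Nat.ble e.2.1 s && Nat.blt s (e.2.1 + b)) ||
        (Nat.ble e.2.2.1 s && Nat.blt s (e.2.2.1 + c)) then e.2.2.2 else 0).sum : ℕ) : ℝ) /
        totW l := by
      refine div_le_div_of_nonneg_right ?_ h0'.le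
      exact_mod_cast h3
    refine h4.trans ?_
    rw [← sum_get l (totW l) (fun e =>
        bif (Nat.ble e.1 s && Nat.blt s (e.1 + a)) || (Nat.ble e.2.1 s && Nat.blt s (e.2.1 + b)) ||
        (Nat.ble e.2.2.1 s && Nat.blt s (e.2.2.1 + c)) then e.2.2.2 else 0)]
    refine Finset.sum_le_sum fun i _ => ?_
    set e := l[i.1] with he
    have hcov : ∀ k, st i k ≤ s → s < st i k + ln k →
        (⋃ k, J i k).indicator (1 : ℝ → ℝ) x = 1 := by
      intro k hk1 hk2
      rw [indicator_of_mem, Pi.one_apply]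
      rw [mem_iUnion]
      refine ⟨k, ?_⟩
      show x ∈ Icc ((st i k : ℝ) / L) (((st i k : ℝ) + ln k) / L)
      constructor
      · rw [div_le_iff₀ hL']
        refine le_trans ?_ s2
        exact_mod_cast hk1
      · rw [le_div_iff₀ hL']
        refine s3.trans ?_
        exact_mod_cast hk2
    have hnn : 0 ≤ ((e.2.2.2 : ℕ) : ℝ) / totW l * (⋃ k, J i k).indicator (1 : ℝ → ℝ) x :=
      mul_nonneg (by positivity) (indicator_nonneg (fun _ _ => by simp) _)
    cases hcond : ((Nat.ble e.1 s && Nat.blt s (e.1 + a)) ||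
        (Nat.ble e.2.1 s && Nat.blt s (e.2.1 + b)) ||
        (Nat.ble e.2.2.1 s && Nat.blt s (e.2.2.1 + c))) with
    | false => simpa using hnn
    | true =>
      rw [cond_true]
      have hone : (⋃ k, J i k).indicator (1 : ℝ → ℝ) x = 1 := by
        simp only [Bool.or_eq_true, Bool.and_eq_true, Nat.ble_eq, Nat.blt_eq] at hcond
        rcases hcond with (hc1 | hc1) | hc1
        · exact hcov 0 hc1.1 hc1.2
        · exact hcov 1 hc1.1 hc1.2
        · exact hcov 2 hc1.1 hc1.2
      rw [hone, mul_one]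

end Pool.Agent.K6.H13.TIG
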