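import Mathlib
import Pool.Agent.K6.H13.TIG.Basic

/-!
# The rotation strategy of RED
-/

set_option autoImplicit false

namespace Pool.Agent.K6.H13.TIG

open Set

/-- the number of `θ < N` with `((θ + β) % N) / B = j` is `B` if `N = B * n` and `j < n` -/
lemma card_shift (N B n β j : ℕ) (hN : N = B * n) (hB : 0 < B) (hj : j < n) :
    ((Finset.univ : Finset (Fin N)).filter (fun θ => ((θ.1 + β) % N) / B = j)).card = B := by
  have hn : 0 < n := by omega
  have hN0 : 0 < N := by rw [hN]; exact Nat.mul_pos hB hn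
  -- bijection with `Fin B`
  suffices goal2 : (Finset.univ : Finset (Fin B)).card =
      ((Finset.univ : Finset (Fin N)).filter (fun θ => ((θ.1 + β) % N) / B = j)).card by
    rw [← goal2, Finset.card_univ, Fintype.card_fin]
  have key : ∀ b : ℕ, b < B → j * B + b < N := by
    intro b hb
    rw [hN]
    calc j * B + b < j * B + B := by omega
      _ = (j + 1) * B := by ring
      _ ≤ n * B := Nat.mul_le_mul_right _ hj
      _ = B * n := Nat.mul_comm _ _
  refine Finset.card_bij
    (fun (b : Fin B) _ => (⟨(j * B + b.1 + (N - β % N)) % N, Nat.mod_lt _ hN0⟩ : Fin N)) ?_ ?_ ?_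
  · intro b _
    rw [Finset.mem_filter]
    refine ⟨Finset.mem_univ _, ?_⟩
    show ((j * B + b.1 + (N - β % N)) % N + β) % N / B = j
    have h1 : ((j * B + b.1 + (N - β % N)) % N + β) % N = j * B + b.1 := by
      have h2 : β % N < N := Nat.mod_lt _ hN0
      rw [Nat.mod_add_mod, Nat.add_assoc, ← Nat.add_mod_mod _ (N - β % N + β)]
      have h3 : (N - β % N + β) % N = 0 := by
        rw [← Nat.add_mod_mod]
        have : N - β % N + β % N = N := by omega
        rw [this, Nat.mod_self]
      rw [h3, Nat.add_zero, Nat.mod_eq_of_lt (key b.1 b.2)]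
    rw [h1, Nat.mul_comm j B, Nat.mul_add_div hB, Nat.div_eq_of_lt b.2, Nat.add_zero]
  · intro b _ b' _ h
    have h1 : (j * B + b.1 + (N - β % N)) % N = (j * B + b'.1 + (N - β % N)) % N :=
      congrArg Fin.val h
    have h2 : (j * B + b.1) ≡ (j * B + b'.1) [MOD N] := Nat.ModEq.add_right_cancel' _ h1
    have h3 := Nat.ModEq.eq_of_lt_of_lt h2 (key b.1 b.2) (key b'.1 b'.2)
    exact Fin.ext (by omega)
  · intro θ hθ
    rw [Finset.mem_filter] at hθ
    have h1 : ((θ.1 + β) % N) / B = j := hθ.2
    refine ⟨⟨(θ.1 + β) % N % B, Nat.mod_lt _ hB⟩, Finset.mem_univ _, ?_⟩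
    apply Fin.ext
    show (j * B + (θ.1 + β) % N % B + (N - β % N)) % N = θ.1
    have h2 : j * B + (θ.1 + β) % N % B = (θ.1 + β) % N := by
      rw [← h1, Nat.mul_comm]; exact Nat.div_add_mod _ _
    have h4 : β % N < N := Nat.mod_lt _ hN0
    rw [h2, Nat.mod_add_mod, Nat.add_assoc]
    have h3 : (β + (N - β % N)) % N = 0 := by
      rw [← Nat.mod_add_mod]
      have : β % N + (N - β % N) = N := by omega
      rw [this, Nat.mod_self]
    rw [← Nat.add_mod_mod, h3, Nat.add_zero, Nat.mod_eq_of_lt θ.2]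

/-- two tiles with rotated indices do not contain the same cell `m` -/
lemma no_common (N A B β γ θ m : ℕ) (hθ : θ < N) (_hm : m < N) (hA : 0 < A) (hB : 0 < B)
    (h1 : β + A + B ≤ γ) (h2 : γ + A + B ≤ β + N) (hγ : γ ≤ N)
    (e1 : ((θ + β) % N) / A = m / A) (e2 : ((θ + γ) % N) / B = m / B) : False := by
  have hA' := Nat.div_add_mod ((θ + β) % N) A
  have hA'' := Nat.div_add_mod m A
  have hB' := Nat.div_add_mod ((θ + γ) % N) B
  have hB'' := Nat.div_add_mod m B
  rw [e1] at hA'
  rw [e2] at hB'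
  have l1 := Nat.mod_lt ((θ + β) % N) hA
  have l2 := Nat.mod_lt m hA
  have l3 := Nat.mod_lt ((θ + γ) % N) hB
  have l4 := Nat.mod_lt m hB
  have hβ : β ≤ N := by omega
  have c1 : (θ + β) % N = θ + β ∨ (θ + β) % N + N = θ + β := by
    rcases lt_or_ge (θ + β) N with h | h
    · left; exact Nat.mod_eq_of_lt h
    · right
      rw [Nat.mod_eq_sub_mod h]
      rcases lt_or_ge (θ + β - N) N with h' | h'
      · rw [Nat.mod_eq_of_lt h']; omega
      · omega
  have c2 : (θ + γ) % N = θ + γ ∨ (θ + γ) % N + N = θ + γ := by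
    rcases lt_or_ge (θ + γ) N with h | h
    · left; exact Nat.mod_eq_of_lt h
    · right
      rw [Nat.mod_eq_sub_mod h]
      rcases lt_or_ge (θ + γ - N) N with h' | h'
      · rw [Nat.mod_eq_of_lt h']; omega
      · omega
  omega

/-- **The formula for all parameters with `1/u + 1/v + 1/w ≤ 1/2`.** -/
theorem G3_eq_of_le_half (u v w : ℕ) (hu : 0 < u) (hv : 0 < v) (hw : 0 < w)
    (h : 1 / (u : ℝ) + 1 / v + 1 / w ≤ 1 / 2) :
    G3 u v w = 1 - 1 / (u : ℝ) - 1 / v - 1 / w := by
  have hu' : (0 : ℝ) < u := by exact_mod_cast hu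
  have hv' : (0 : ℝ) < v := by exact_mod_cast hv
  have hw' : (0 : ℝ) < w := by exact_mod_cast hw
  refine le_antisymm ?_ ?_
  · -- sizes of the tiles, in units of `1 / N`
    set N : ℕ := u * v * w with hN
    have hN0 : 0 < N := by positivity
    have hNr : (0 : ℝ) < N := by exact_mod_cast hN0
    let T : Fin 3 → ℕ := ![v * w, u * w, u * v]
    let β : Fin 3 → ℕ := ![0, T 0 + T 1, T 0 + 2 * T 1 + T 2]
    have hT : ∀ i, 0 < T i := by
      intro i; fin_cases i <;> simp [T] <;> omega
    let n : Fin 3 → ℕ := ![u, v, w]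
    have hTn : ∀ i, N = T i * n i := by
      intro i; fin_cases i <;> simp [T, n, hN] <;> ring
    have hsum : 2 * (T 0 + T 1 + T 2) ≤ N := by
      have h1 : (2 : ℝ) * ((v : ℝ) * w + u * w + u * v) ≤ u * v * w := by
        have h2 : 1 / (u : ℝ) + 1 / v + 1 / w = ((v : ℝ) * w + u * w + u * v) / (u * v * w) := by
          field_simp
        rw [h2, div_le_iff₀ (by positivity)] at h
        linarith
      have h3 : ((2 * (T 0 + T 1 + T 2) : ℕ) : ℝ) ≤ ((N : ℕ) : ℝ) := by
        simp only [T, Matrix.cons_val_zero, Matrix.cons_val_one, Matrix.cons_val, hN]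
        push_cast
        linarith
      exact_mod_cast h3
    let idx : Fin N → Fin 3 → ℕ := fun θ i => ((θ.1 + β i) % N) / T i
    let J : Fin N → Fin 3 → Set ℝ := fun θ i =>
      Icc ((idx θ i * T i : ℕ) / (N : ℝ)) (((idx θ i + 1) * T i : ℕ) / (N : ℝ))
    have hidx : ∀ θ i, (idx θ i + 1) * T i ≤ N := by
      intro θ i
      have h1 : (θ.1 + β i) % N < N := Nat.mod_lt _ hN0
      have h2 : (θ.1 + β i) % N < n i * T i := lt_of_lt_of_eq h1 (by rw [hTn i, Nat.mul_comm])
      have h3 : idx θ i < n i := Nat.div_lt_of_lt_mul (by rw [Nat.mul_comm]; exact h2)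
      calc (idx θ i + 1) * T i ≤ n i * T i := Nat.mul_le_mul_right _ h3
        _ = N := by rw [hTn i, Nat.mul_comm]
    have hα : ∀ i, ((T i : ℕ) : ℝ) / N = (![1 / (u : ℝ), 1 / (v : ℝ), 1 / (w : ℝ)] : Fin 3 → ℝ) i := by
      intro i
      fin_cases i <;> simp [T, hN] <;> field_simp
    have hJ : ∀ θ, Admissible ![1 / (u : ℝ), 1 / (v : ℝ), 1 / (w : ℝ)] (J θ) := by
      intro θ i
      refine ⟨_, _, by positivity, ?_, ?_, ?_, rfl⟩
      · refine div_le_div_of_nonneg_right ?_ hNr.le
        exact_mod_cast Nat.mul_le_mul_right _ (Nat.le_succ _)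
      · rw [div_le_one hNr]
        exact_mod_cast hidx θ i
      · rw [← hα i]
        push_cast
        rw [← sub_div]
        refine div_le_div_of_nonneg_right ?_ hNr.le
        linarith
    have hfin := G_le (α := ![1 / (u : ℝ), 1 / (v : ℝ), 1 / (w : ℝ)]) (ι := Fin N)
      (fun _ => 1 / (N : ℝ)) (fun _ => by positivity)
      (by rw [Finset.sum_const, Finset.card_univ, Fintype.card_fin, nsmul_eq_mul]; field_simp)
      J hJ (((T 0 + T 1 + T 2 : ℕ) : ℝ) / N) ?_
    · have e : ((T 0 + T 1 + T 2 : ℕ) : ℝ) / N = 1 / (u : ℝ) + 1 / v + 1 / w := by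
        have e0 := hα 0
        have e1 := hα 1
        have e2 := hα 2
        simp only [Matrix.cons_val_zero, Matrix.cons_val_one, Matrix.cons_val] at e0 e1 e2
        push_cast
        rw [add_div, add_div, e0, e1, e2]
      rw [e] at hfin
      unfold G3
      linarith
    · intro x hx
      -- the cell of `x`
      obtain ⟨m, hm, hm1, hm2⟩ : ∃ m : ℕ, m < N ∧ (m : ℝ) ≤ x * N ∧ x * N ≤ m + 1 := by
        rcases eq_or_lt_of_le hx.2 with h1 | h1
        · refine ⟨N - 1, by omega, ?_, ?_⟩
          · rw [h1, one_mul]; exact_mod_cast Nat.sub_le N 1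
          · rw [h1, one_mul]
            have : N ≤ N - 1 + 1 := by omega
            exact_mod_cast this
        · refine ⟨⌊x * N⌋₊, ?_, Nat.floor_le (mul_nonneg hx.1 hNr.le), (Nat.lt_floor_add_one _).le⟩
          rw [Nat.floor_lt (mul_nonneg hx.1 hNr.le)]
          calc x * N < 1 * N := mul_lt_mul_of_pos_right h1 hNr
            _ = N := one_mul _
      let E : Fin 3 → Finset (Fin N) := fun i =>
        Finset.univ.filter (fun θ => ((θ.1 + β i) % N) / T i = m / T i)
      have hEcard : ∀ i, (E i).card = T i := by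
        intro i
        refine card_shift N (T i) (n i) (β i) (m / T i) (hTn i) (hT i) ?_
        exact Nat.div_lt_of_lt_mul (by rw [← hTn i]; exact hm)
      have hcov : ∀ i θ, θ ∈ E i → x ∈ ⋃ k, J θ k := by
        intro i θ hθ
        rw [mem_iUnion]
        refine ⟨i, ?_⟩
        have h1 : idx θ i = m / T i := (Finset.mem_filter.1 hθ).2
        show x ∈ Icc ((idx θ i * T i : ℕ) / (N : ℝ)) (((idx θ i + 1) * T i : ℕ) / (N : ℝ))
        rw [h1]
        have h2 : m / T i * T i ≤ m := Nat.div_mul_le_self _ _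
        have h3 : m < (m / T i + 1) * T i := by
          have := Nat.lt_div_mul_add (a := m) (hT i)
          rw [add_mul, one_mul]; exact this
        constructor
        · rw [div_le_iff₀ hNr]
          refine le_trans ?_ hm1
          exact_mod_cast h2
        · rw [le_div_iff₀ hNr]
          refine hm2.trans ?_
          exact_mod_cast h3
      have hdisj : ∀ i j, i ≠ j → Disjoint (E i) (E j) := by
        have h01 : ∀ θ : Fin N, ((θ.1 + β 0) % N) / T 0 = m / T 0 →
            ((θ.1 + β 1) % N) / T 1 = m / T 1 → False := fun θ e0 e1 =>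
          no_common N (T 0) (T 1) (β 0) (β 1) θ.1 m θ.2 hm (hT 0) (hT 1)
            (by simp [β]) (by simp [β]; omega) (by simp only [β, Matrix.cons_val_one, Matrix.cons_val_zero]; omega) e0 e1
        have h12 : ∀ θ : Fin N, ((θ.1 + β 1) % N) / T 1 = m / T 1 →
            ((θ.1 + β 2) % N) / T 2 = m / T 2 → False := fun θ e0 e1 =>
          no_common N (T 1) (T 2) (β 1) (β 2) θ.1 m θ.2 hm (hT 1) (hT 2)
            (by simp [β]; omega) (by simp [β]; omega) (by simp [β]; omega) e0 e1
        have h02 : ∀ θ : Fin N, ((θ.1 + β 0) % N) / T 0 = m / T 0 →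
            ((θ.1 + β 2) % N) / T 2 = m / T 2 → False := fun θ e0 e1 =>
          no_common N (T 0) (T 2) (β 0) (β 2) θ.1 m θ.2 hm (hT 0) (hT 2)
            (by simp [β]; try omega) (by simp [β]; try omega) (by simp [β]; try omega) e0 e1
        intro i j hij
        rw [Finset.disjoint_left]
        intro θ hi hj
        have hi' : ((θ.1 + β i) % N) / T i = m / T i := (Finset.mem_filter.1 hi).2
        have hj' : ((θ.1 + β j) % N) / T j = m / T j := (Finset.mem_filter.1 hj).2
        fin_cases i <;> fin_cases j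
        · exact hij rfl
        · exact h01 θ hi' hj'
        · exact h02 θ hi' hj'
        · exact h01 θ hj' hi'
        · exact hij rfl
        · exact h12 θ hi' hj'
        · exact h02 θ hj' hi'
        · exact h12 θ hj' hi'
        · exact hij rfl
      have hcard : (Finset.univ.biUnion E).card = T 0 + T 1 + T 2 := by
        rw [Finset.card_biUnion (fun i _ j _ hij => hdisj i j hij), Fin.sum_univ_three,
          hEcard, hEcard, hEcard]
      calc ((T 0 + T 1 + T 2 : ℕ) : ℝ) / N
          = ∑ θ ∈ Finset.univ.biUnion E, 1 / (N : ℝ) * (⋃ k, J θ k).indicator (1 : ℝ → ℝ) x := by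
            rw [Finset.sum_congr rfl (g := fun _ => 1 / (N : ℝ)), Finset.sum_const, hcard,
              nsmul_eq_mul, mul_one_div]
            intro θ hθ
            rw [Finset.mem_biUnion] at hθ
            obtain ⟨i, _, hi⟩ := hθ
            rw [indicator_of_mem (hcov i θ hi), Pi.one_apply, mul_one]
        _ ≤ ∑ θ, 1 / (N : ℝ) * (⋃ k, J θ k).indicator (1 : ℝ → ℝ) x := by
            refine Finset.sum_le_univ_sum_of_nonneg fun θ => ?_
            refine mul_nonneg (by positivity) (indicator_nonneg (fun _ _ => by simp) _)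
  · have h1 := le_G_uniform (α := ![1 / (u : ℝ), 1 / (v : ℝ), 1 / (w : ℝ)]) (by
      intro i; fin_cases i <;> simp)
    rw [Fin.sum_univ_three] at h1
    simp only [Matrix.cons_val_zero, Matrix.cons_val_one, Matrix.cons_val] at h1
    unfold G3
    linarith

end Pool.Agent.K6.H13.TIG
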