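import Mathlib
import Pool.Agent.K6.H13.TIG.Basic
import Pool.Agent.K6.H13.TIG.Coupling

/-!
# Finite certificates of couplings of tiles

An entry `(u, v, w, l)` of the tables is a coupling for `(u, v, w)`; the list `l` consists of
entries `(i, j, k, weight)`.
-/

set_option autoImplicit false
set_option maxRecDepth 100000

namespace Pool.Agent.K6.H13.TIG

def Entry : Type := ℕ × ℕ × ℕ × List (ℕ × ℕ × ℕ × ℕ)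

/-- all entries of a table are correct -/
def allOk (T : List Entry) : Bool :=
  T.all fun e => Nat.blt 0 e.1 && Nat.blt 0 e.2.1 && Nat.blt 0 e.2.2.1 &&
    chk e.1 e.2.1 e.2.2.1 e.2.2.2

/-- the table has an entry for `(u, v, w)` -/
def has (T : List Entry) (u v w : ℕ) : Bool :=
  T.any fun e => Nat.beq e.1 u && Nat.beq e.2.1 v && Nat.beq e.2.2.1 w

lemma cpl_of_has {T : List Entry} (hT : allOk T = true) {u v w : ℕ} (h : has T u v w = true) :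
    Nonempty (Cpl u v w) := by
  unfold allOk at hT
  unfold has at h
  rw [List.all_eq_true] at hT
  rw [List.any_eq_true] at h
  obtain ⟨e, he, h1⟩ := h
  have h2 := hT e he
  simp only [Bool.and_eq_true, Nat.blt_eq, Nat.beq_eq] at h1 h2
  obtain ⟨⟨rfl, rfl⟩, rfl⟩ := h1
  exact cpl_of_chk h2.1.1.1 h2.1.1.2 h2.1.2 h2.2

def T0 : List Entry :=
  [(3, 3, 3,
    [(0, 1, 2, 1), (1, 2, 0, 1), (2, 0, 1, 1)]),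
   (3, 4, 6,
    [(0, 2, 2, 1), (0, 2, 5, 2), (0, 3, 3, 1), (1, 0, 4, 2), (1, 3, 1, 2), (2, 0, 2, 1),
     (2, 1, 0, 2), (2, 1, 3, 1)]),
   (3, 4, 9,
    [(0, 2, 3, 3), (0, 2, 7, 2), (0, 2, 8, 4), (0, 3, 4, 2), (0, 3, 5, 1), (1, 0, 6, 4),
     (1, 0, 7, 2), (1, 3, 1, 2), (1, 3, 2, 4), (2, 0, 3, 1), (2, 0, 4, 2), (2, 1, 0, 4),
     (2, 1, 1, 2), (2, 1, 5, 3)]),
   (3, 4, 12,
    [(0, 2, 4, 1), (0, 2, 5, 1), (0, 2, 11, 1), (0, 3, 7, 1), (1, 0, 9, 1), (1, 0, 10, 1),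
     (1, 3, 3, 1), (1, 3, 8, 1), (2, 0, 6, 1), (2, 1, 0, 1), (2, 1, 1, 1), (2, 1, 2, 1)]),
   (3, 4, 14,
    [(0, 2, 5, 5), (0, 2, 6, 6), (0, 2, 11, 4), (0, 2, 13, 6), (0, 3, 8, 1), (0, 3, 9, 6),
     (1, 0, 10, 6), (1, 0, 11, 2), (1, 0, 12, 6), (1, 3, 1, 2), (1, 3, 2, 6), (1, 3, 3, 6),
     (2, 0, 4, 6), (2, 0, 5, 1), (2, 1, 0, 6), (2, 1, 1, 4), (2, 1, 7, 6), (2, 1, 8, 5)]),
   (3, 4, 15,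
    [(0, 2, 5, 2), (0, 2, 6, 4), (0, 2, 12, 1), (0, 2, 13, 4), (0, 2, 14, 4), (0, 3, 7, 1),
     (0, 3, 9, 4), (1, 0, 10, 3), (1, 0, 11, 4), (1, 0, 12, 3), (1, 3, 1, 1), (1, 3, 3, 4),
     (1, 3, 4, 4), (1, 3, 10, 1), (2, 0, 5, 2), (2, 0, 7, 3), (2, 1, 0, 4), (2, 1, 1, 3),
     (2, 1, 2, 4), (2, 1, 8, 4)]),
   (3, 4, 16,
    [(0, 2, 6, 3), (0, 2, 7, 3), (0, 2, 14, 3), (0, 2, 15, 3), (0, 3, 9, 1), (0, 3, 10, 3),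
     (1, 0, 11, 2), (1, 0, 12, 3), (1, 0, 13, 3), (1, 3, 2, 1), (1, 3, 3, 3), (1, 3, 4, 3),
     (1, 3, 11, 1), (2, 0, 5, 3), (2, 0, 9, 1), (2, 1, 0, 3), (2, 1, 1, 3), (2, 1, 2, 2),
     (2, 1, 8, 3), (2, 1, 9, 1)]),
   (3, 4, 18,
    [(0, 2, 7, 1), (0, 2, 8, 2), (0, 2, 15, 2), (0, 2, 16, 2), (0, 2, 17, 2), (0, 3, 7, 1),
     (0, 3, 11, 2), (1, 0, 12, 2), (1, 0, 13, 2), (1, 0, 14, 2), (1, 3, 2, 1), (1, 3, 3, 2),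
     (1, 3, 4, 2), (1, 3, 5, 1), (2, 0, 5, 1), (2, 0, 6, 2), (2, 1, 0, 2), (2, 1, 1, 2),
     (2, 1, 2, 1), (2, 1, 9, 2), (2, 1, 10, 2)]),
   (3, 4, 19,
    [(0, 2, 7, 12), (0, 2, 8, 12), (0, 2, 16, 9), (0, 2, 17, 12), (0, 2, 18, 12), (0, 3, 9, 7),
     (0, 3, 12, 12), (1, 0, 13, 11), (1, 0, 14, 12), (1, 0, 15, 12), (1, 0, 16, 3), (1, 3, 1, 3),
     (1, 3, 3, 12), (1, 3, 4, 12), (1, 3, 5, 10), (1, 3, 13, 1), (2, 0, 5, 2), (2, 0, 6, 12),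
     (2, 0, 9, 5), (2, 1, 0, 12), (2, 1, 1, 9), (2, 1, 2, 12), (2, 1, 10, 12), (2, 1, 11, 12)]),
   (3, 4, 20,
    [(0, 2, 7, 3), (0, 2, 8, 3), (0, 2, 9, 3), (0, 2, 18, 3), (0, 2, 19, 3), (0, 3, 12, 2),
     (0, 3, 13, 3), (1, 0, 14, 1), (1, 0, 15, 3), (1, 0, 16, 3), (1, 0, 17, 3), (1, 3, 3, 3),
     (1, 3, 4, 3), (1, 3, 5, 2), (1, 3, 14, 2), (2, 0, 5, 1), (2, 0, 6, 3), (2, 0, 12, 1),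
     (2, 1, 0, 3), (2, 1, 1, 3), (2, 1, 2, 3), (2, 1, 10, 3), (2, 1, 11, 3)]),
   (3, 4, 21,
    [(0, 2, 8, 4), (0, 2, 9, 3), (0, 2, 17, 2), (0, 2, 18, 4), (0, 2, 19, 4), (0, 2, 20, 4),
     (0, 3, 9, 1), (0, 3, 10, 4), (0, 3, 13, 2), (1, 0, 14, 4), (1, 0, 15, 4), (1, 0, 16, 4),
     (1, 0, 17, 2), (1, 3, 2, 1), (1, 3, 3, 4), (1, 3, 4, 4), (1, 3, 5, 4), (1, 3, 6, 1),
     (2, 0, 6, 3), (2, 0, 7, 4), (2, 1, 0, 4), (2, 1, 1, 4), (2, 1, 2, 3), (2, 1, 11, 4),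
     (2, 1, 12, 4), (2, 1, 13, 2)]),
   (3, 4, 22,
    [(0, 2, 8, 1), (0, 2, 9, 6), (0, 2, 10, 6), (0, 2, 17, 2), (0, 2, 19, 6), (0, 2, 20, 6),
     (0, 2, 21, 6), (0, 3, 8, 5), (0, 3, 14, 6), (1, 0, 15, 6), (1, 0, 16, 6), (1, 0, 17, 4),
     (1, 0, 18, 6), (1, 3, 2, 3), (1, 3, 3, 6), (1, 3, 4, 6), (1, 3, 5, 6), (1, 3, 6, 1),
     (2, 0, 6, 5), (2, 0, 7, 6), (2, 1, 0, 6), (2, 1, 1, 6), (2, 1, 2, 3), (2, 1, 11, 6),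
     (2, 1, 12, 6), (2, 1, 13, 6)]),
   (3, 4, 23,
    [(0, 2, 8, 12), (0, 2, 9, 12), (0, 2, 10, 12), (0, 2, 20, 12), (0, 2, 21, 9), (0, 2, 22, 12),
     (0, 3, 11, 1), (0, 3, 14, 10), (0, 3, 15, 12), (1, 0, 16, 7), (1, 0, 17, 12),
     (1, 0, 18, 12), (1, 0, 19, 12), (1, 0, 21, 3), (1, 3, 2, 5), (1, 3, 4, 12), (1, 3, 5, 12),
     (1, 3, 6, 12), (1, 3, 16, 5), (2, 0, 7, 12), (2, 0, 11, 11), (2, 1, 0, 12), (2, 1, 1, 12),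
     (2, 1, 2, 7), (2, 1, 3, 12), (2, 1, 12, 12), (2, 1, 13, 12), (2, 1, 14, 2)]),
   (3, 4, 25,
    [(0, 2, 9, 5), (0, 2, 10, 12), (0, 2, 11, 12), (0, 2, 19, 10), (0, 2, 22, 12),
     (0, 2, 23, 12), (0, 2, 24, 12), (0, 3, 12, 12), (0, 3, 15, 1), (0, 3, 16, 12),
     (1, 0, 17, 12), (1, 0, 18, 12), (1, 0, 19, 2), (1, 0, 20, 12), (1, 0, 21, 12), (1, 3, 0, 8),
     (1, 3, 4, 12), (1, 3, 5, 12), (1, 3, 6, 12), (1, 3, 7, 6), (2, 0, 7, 6), (2, 0, 8, 12),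
     (2, 0, 9, 7), (2, 1, 0, 4), (2, 1, 1, 12), (2, 1, 2, 12), (2, 1, 3, 12), (2, 1, 13, 12),
     (2, 1, 14, 12), (2, 1, 15, 11)]),
   (3, 4, 29,
    [(0, 2, 10, 12), (0, 2, 11, 12), (0, 2, 12, 12), (0, 2, 13, 12), (0, 2, 23, 3),
     (0, 2, 26, 12), (0, 2, 27, 12), (0, 2, 28, 12), (0, 3, 14, 6), (0, 3, 19, 12),
     (0, 3, 20, 11), (1, 0, 20, 1), (1, 0, 21, 12), (1, 0, 22, 12), (1, 0, 23, 9),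
     (1, 0, 24, 12), (1, 0, 25, 12), (1, 3, 4, 12), (1, 3, 5, 12), (1, 3, 6, 12), (1, 3, 7, 12),
     (1, 3, 8, 10), (2, 0, 8, 2), (2, 0, 9, 12), (2, 0, 14, 6), (2, 0, 15, 9), (2, 1, 0, 12),
     (2, 1, 1, 12), (2, 1, 2, 12), (2, 1, 3, 12), (2, 1, 15, 3), (2, 1, 16, 12), (2, 1, 17, 12),
     (2, 1, 18, 12)]),
   (3, 5, 6,
    [(0, 2, 5, 3), (0, 3, 2, 4), (0, 3, 5, 2), (0, 4, 3, 1), (1, 0, 4, 5), (1, 4, 1, 5),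
     (2, 0, 2, 1), (2, 1, 0, 2), (2, 1, 3, 4), (2, 2, 0, 3)]),
   (3, 5, 8,
    [(0, 2, 5, 11), (0, 3, 3, 15), (0, 3, 7, 9), (0, 4, 4, 1), (0, 4, 5, 4), (1, 0, 6, 15),
     (1, 0, 7, 6), (1, 4, 0, 4), (1, 4, 1, 15), (2, 0, 2, 3), (2, 1, 0, 10), (2, 1, 4, 14),
     (2, 2, 0, 1), (2, 2, 2, 12)]),
   (3, 5, 9,
    [(0, 2, 7, 2), (0, 2, 8, 1), (0, 3, 3, 5), (0, 3, 8, 4), (0, 4, 5, 3), (1, 0, 2, 1),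
     (1, 0, 6, 5), (1, 0, 7, 3), (1, 4, 0, 2), (1, 4, 2, 4), (2, 1, 0, 2), (2, 1, 4, 5),
     (2, 1, 5, 2), (2, 2, 0, 1), (2, 2, 1, 5)]),
   (3, 5, 10,
    [(0, 2, 6, 3), (0, 2, 9, 1), (0, 3, 5, 3), (0, 3, 8, 3), (1, 0, 7, 2), (1, 0, 9, 2),
     (1, 4, 1, 2), (1, 4, 2, 3), (1, 4, 7, 1), (2, 0, 3, 2), (2, 1, 0, 2), (2, 1, 1, 1),
     (2, 1, 4, 3), (2, 2, 0, 1), (2, 2, 3, 1)]),
   (3, 5, 11,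
    [(0, 2, 7, 15), (0, 2, 10, 7), (0, 3, 4, 15), (0, 3, 5, 2), (0, 3, 9, 8), (0, 3, 10, 8),
     (1, 0, 8, 15), (1, 0, 9, 7), (1, 4, 0, 10), (1, 4, 1, 8), (1, 4, 2, 15), (2, 0, 3, 11),
     (2, 1, 0, 5), (2, 1, 5, 13), (2, 1, 6, 15), (2, 2, 1, 7), (2, 2, 3, 4)]),
   (3, 5, 12,
    [(0, 2, 10, 9), (0, 3, 4, 10), (0, 3, 6, 4), (0, 3, 11, 10), (0, 4, 7, 7), (1, 0, 3, 2),
     (1, 0, 8, 10), (1, 0, 9, 10), (1, 0, 10, 1), (1, 4, 2, 10), (1, 4, 3, 7), (2, 0, 3, 1),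
     (2, 1, 0, 5), (2, 1, 5, 10), (2, 1, 6, 6), (2, 1, 7, 3), (2, 2, 0, 5), (2, 2, 1, 10)]),
   (3, 5, 13,
    [(0, 2, 8, 15), (0, 2, 9, 5), (0, 2, 11, 6), (0, 3, 5, 15), (0, 3, 11, 9), (0, 3, 12, 15),
     (1, 0, 3, 1), (1, 0, 9, 10), (1, 0, 10, 15), (1, 4, 0, 6), (1, 4, 1, 4), (1, 4, 2, 15),
     (1, 4, 3, 14), (2, 0, 4, 13), (2, 1, 0, 9), (2, 1, 6, 15), (2, 1, 7, 15), (2, 2, 1, 11),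
     (2, 2, 4, 2)]),
   (3, 5, 14,
    [(0, 2, 9, 15), (0, 2, 12, 7), (0, 2, 13, 6), (0, 3, 5, 15), (0, 3, 6, 3), (0, 3, 7, 15),
     (0, 3, 13, 9), (1, 0, 10, 5), (1, 0, 11, 15), (1, 0, 12, 8), (1, 4, 1, 2), (1, 4, 2, 15),
     (1, 4, 3, 15), (1, 4, 10, 10), (2, 0, 4, 14), (2, 1, 0, 15), (2, 1, 6, 12), (2, 1, 8, 15),
     (2, 2, 1, 13), (2, 2, 4, 1)]),
   (3, 5, 15,
    [(0, 2, 9, 1), (0, 2, 14, 2), (0, 3, 7, 2), (0, 3, 8, 2), (0, 3, 13, 2), (0, 4, 5, 1),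
     (1, 0, 10, 1), (1, 0, 11, 2), (1, 0, 12, 2), (1, 4, 3, 2), (1, 4, 4, 2), (1, 4, 10, 1),
     (2, 0, 9, 1), (2, 1, 0, 2), (2, 1, 1, 2), (2, 1, 6, 2), (2, 2, 2, 2), (2, 2, 5, 1)]),
   (3, 5, 16,
    [(0, 2, 10, 15), (0, 2, 14, 15), (0, 2, 15, 1), (0, 3, 6, 14), (0, 3, 7, 8), (0, 3, 8, 15),
     (0, 3, 15, 11), (0, 4, 6, 1), (1, 0, 12, 15), (1, 0, 13, 15), (1, 0, 15, 3), (1, 4, 0, 2),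
     (1, 4, 3, 15), (1, 4, 4, 15), (1, 4, 11, 15), (2, 0, 5, 15), (2, 1, 0, 13), (2, 1, 1, 13),
     (2, 1, 7, 7), (2, 1, 9, 15), (2, 2, 1, 2), (2, 2, 2, 15)]),
   (3, 5, 17,
    [(0, 2, 11, 15), (0, 2, 15, 9), (0, 2, 16, 8), (0, 3, 6, 13), (0, 3, 7, 1), (0, 3, 8, 15),
     (0, 3, 9, 15), (0, 3, 16, 7), (0, 4, 6, 2), (1, 0, 13, 15), (1, 0, 14, 15), (1, 0, 15, 6),
     (1, 4, 0, 4), (1, 4, 3, 15), (1, 4, 4, 15), (1, 4, 12, 15), (2, 0, 5, 15), (2, 1, 0, 11),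
     (2, 1, 1, 11), (2, 1, 7, 14), (2, 1, 10, 15), (2, 2, 1, 4), (2, 2, 2, 15)]),
   (3, 5, 18,
    [(0, 2, 11, 3), (0, 2, 17, 5), (0, 3, 6, 3), (0, 3, 7, 5), (0, 3, 15, 5), (0, 3, 16, 5),
     (0, 4, 6, 2), (0, 4, 10, 2), (1, 0, 5, 1), (1, 0, 12, 5), (1, 0, 13, 5), (1, 0, 14, 5),
     (1, 4, 3, 5), (1, 4, 4, 5), (1, 4, 5, 4), (2, 0, 11, 2), (2, 1, 0, 5), (2, 1, 8, 5),
     (2, 1, 9, 5), (2, 1, 10, 3), (2, 2, 1, 5), (2, 2, 2, 5)]),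
   (3, 5, 19,
    [(0, 2, 12, 15), (0, 2, 13, 1), (0, 2, 16, 3), (0, 2, 18, 15), (0, 3, 7, 15), (0, 3, 10, 15),
     (0, 3, 16, 12), (0, 3, 17, 15), (0, 4, 11, 4), (1, 0, 13, 12), (1, 0, 14, 15),
     (1, 0, 15, 15), (1, 4, 1, 6), (1, 4, 3, 15), (1, 4, 4, 15), (1, 4, 5, 15), (1, 4, 13, 2),
     (2, 0, 6, 15), (2, 1, 0, 15), (2, 1, 1, 1), (2, 1, 8, 15), (2, 1, 9, 15), (2, 1, 11, 11),
     (2, 2, 1, 8), (2, 2, 2, 15)]),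
   (3, 5, 20,
    [(0, 2, 7, 3), (0, 2, 12, 2), (0, 2, 13, 3), (0, 3, 9, 2), (0, 3, 10, 3), (0, 3, 11, 3),
     (0, 3, 18, 1), (0, 3, 19, 3), (1, 0, 16, 3), (1, 0, 17, 3), (1, 0, 18, 2), (1, 4, 4, 3),
     (1, 4, 5, 3), (1, 4, 14, 3), (1, 4, 15, 3), (2, 0, 6, 3), (2, 0, 12, 1), (2, 1, 0, 3),
     (2, 1, 1, 2), (2, 1, 3, 3), (2, 1, 8, 3), (2, 1, 9, 1), (2, 2, 1, 1), (2, 2, 2, 3)]),
   (3, 5, 21,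
    [(0, 2, 13, 7), (0, 2, 20, 10), (0, 3, 7, 10), (0, 3, 8, 9), (0, 3, 11, 3), (0, 3, 18, 10),
     (0, 3, 19, 10), (0, 4, 8, 1), (0, 4, 12, 10), (1, 0, 14, 9), (1, 0, 15, 10), (1, 0, 16, 10),
     (1, 0, 17, 10), (1, 4, 4, 10), (1, 4, 5, 10), (1, 4, 6, 10), (1, 4, 14, 1), (2, 0, 13, 3),
     (2, 1, 0, 10), (2, 1, 1, 5), (2, 1, 9, 10), (2, 1, 10, 10), (2, 1, 11, 7), (2, 2, 1, 5),
     (2, 2, 2, 10), (2, 2, 3, 10)]),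
   (3, 5, 22,
    [(0, 2, 14, 15), (0, 2, 19, 7), (0, 2, 21, 15), (0, 3, 8, 15), (0, 3, 9, 2), (0, 3, 11, 15),
     (0, 3, 12, 15), (0, 3, 19, 4), (0, 3, 20, 15), (0, 4, 13, 7), (1, 0, 15, 2), (1, 0, 16, 15),
     (1, 0, 17, 15), (1, 0, 18, 15), (1, 0, 19, 4), (1, 4, 2, 1), (1, 4, 4, 15), (1, 4, 5, 15),
     (1, 4, 6, 15), (1, 4, 15, 13), (2, 0, 7, 15), (2, 1, 0, 15), (2, 1, 1, 15), (2, 1, 9, 13),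
     (2, 1, 10, 15), (2, 1, 13, 8), (2, 2, 2, 14), (2, 2, 3, 15)]),
   (3, 5, 23,
    [(0, 2, 8, 15), (0, 2, 15, 15), (0, 2, 22, 15), (0, 3, 9, 14), (0, 3, 10, 12),
     (0, 3, 11, 15), (0, 3, 12, 15), (0, 3, 21, 13), (0, 4, 9, 1), (1, 0, 18, 15),
     (1, 0, 19, 15), (1, 0, 20, 15), (1, 0, 21, 2), (1, 4, 4, 15), (1, 4, 5, 8), (1, 4, 6, 15),
     (1, 4, 16, 15), (1, 4, 17, 15), (2, 0, 5, 7), (2, 0, 14, 15), (2, 1, 0, 15), (2, 1, 1, 15),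
     (2, 1, 2, 15), (2, 1, 3, 6), (2, 1, 10, 3), (2, 1, 13, 15), (2, 2, 3, 9), (2, 2, 7, 15)]),
   (3, 5, 24,
    [(0, 2, 15, 3), (0, 2, 22, 10), (0, 2, 23, 10), (0, 3, 9, 1), (0, 3, 11, 10), (0, 3, 12, 10),
     (0, 3, 13, 10), (0, 3, 20, 7), (0, 3, 21, 10), (0, 4, 9, 9), (1, 0, 16, 8), (1, 0, 17, 10),
     (1, 0, 18, 10), (1, 0, 19, 10), (1, 0, 20, 3), (1, 4, 4, 7), (1, 4, 5, 10), (1, 4, 6, 10),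
     (1, 4, 7, 10), (1, 4, 16, 2), (2, 0, 15, 7), (2, 1, 0, 10), (2, 1, 1, 10), (2, 1, 2, 8),
     (2, 1, 10, 10), (2, 1, 14, 10), (2, 2, 2, 2), (2, 2, 3, 10), (2, 2, 4, 3), (2, 2, 8, 10)]),
   (3, 5, 25,
    [(0, 2, 9, 3), (0, 2, 15, 1), (0, 2, 16, 3), (0, 2, 24, 3), (0, 3, 12, 3), (0, 3, 13, 3),
     (0, 3, 14, 3), (0, 3, 22, 3), (0, 3, 23, 3), (1, 0, 18, 1), (1, 0, 19, 3), (1, 0, 20, 3),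
     (1, 0, 21, 3), (1, 4, 4, 1), (1, 4, 5, 3), (1, 4, 6, 3), (1, 4, 7, 3), (1, 4, 17, 3),
     (1, 4, 18, 2), (2, 0, 8, 3), (2, 0, 15, 2), (2, 1, 0, 3), (2, 1, 1, 3), (2, 1, 2, 1),
     (2, 1, 4, 2), (2, 1, 10, 3), (2, 1, 11, 3), (2, 2, 2, 2), (2, 2, 3, 3)])]

lemma T0_ok : allOk T0 = true := by decide +kernel

def T1 : List Entry :=
  [(3, 5, 26,
    [(0, 2, 16, 13), (0, 2, 17, 15), (0, 2, 25, 15), (0, 3, 10, 6), (0, 3, 12, 13),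
     (0, 3, 13, 15), (0, 3, 14, 15), (0, 3, 23, 14), (0, 3, 24, 15), (0, 4, 10, 9),
     (1, 0, 19, 15), (1, 0, 20, 15), (1, 0, 21, 15), (1, 0, 22, 15), (1, 0, 23, 1), (1, 4, 3, 9),
     (1, 4, 5, 15), (1, 4, 6, 15), (1, 4, 7, 15), (1, 4, 18, 15), (2, 0, 8, 15), (2, 0, 16, 2),
     (2, 1, 0, 15), (2, 1, 1, 15), (2, 1, 2, 15), (2, 1, 3, 1), (2, 1, 11, 15), (2, 1, 12, 2),
     (2, 1, 15, 15), (2, 2, 3, 5), (2, 2, 4, 15), (2, 2, 9, 15)]),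
   (3, 5, 27,
    [(0, 2, 17, 5), (0, 2, 26, 5), (0, 3, 10, 2), (0, 3, 13, 1), (0, 3, 14, 5), (0, 3, 15, 5),
     (0, 3, 23, 4), (0, 3, 24, 5), (0, 3, 25, 5), (0, 4, 10, 3), (0, 4, 16, 5), (1, 0, 18, 5),
     (1, 0, 19, 5), (1, 0, 20, 5), (1, 0, 21, 5), (1, 0, 22, 5), (1, 0, 23, 1), (1, 4, 5, 5),
     (1, 4, 6, 4), (1, 4, 7, 5), (1, 4, 8, 5), (2, 0, 6, 1), (2, 1, 0, 3), (2, 1, 1, 5),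
     (2, 1, 2, 5), (2, 1, 11, 5), (2, 1, 12, 5), (2, 1, 13, 4), (2, 2, 0, 2), (2, 2, 3, 5),
     (2, 2, 4, 5), (2, 2, 9, 5)]),
   (3, 5, 28,
    [(0, 2, 17, 15), (0, 2, 18, 15), (0, 2, 24, 8), (0, 2, 27, 15), (0, 3, 11, 2),
     (0, 3, 13, 15), (0, 3, 14, 15), (0, 3, 15, 15), (0, 3, 24, 7), (0, 3, 25, 15),
     (0, 3, 26, 15), (0, 4, 11, 3), (1, 0, 20, 14), (1, 0, 21, 15), (1, 0, 22, 15),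
     (1, 0, 23, 15), (1, 4, 0, 5), (1, 4, 5, 15), (1, 4, 6, 15), (1, 4, 7, 15), (1, 4, 8, 15),
     (1, 4, 19, 15), (1, 4, 20, 1), (2, 0, 9, 15), (2, 0, 11, 10), (2, 1, 0, 10), (2, 1, 1, 15),
     (2, 1, 2, 15), (2, 1, 3, 14), (2, 1, 12, 15), (2, 1, 16, 15), (2, 2, 3, 1), (2, 2, 4, 15),
     (2, 2, 10, 15)]),
   (3, 5, 29,
    [(0, 2, 18, 7), (0, 2, 19, 15), (0, 2, 27, 15), (0, 2, 28, 15), (0, 3, 11, 9),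
     (0, 3, 13, 13), (0, 3, 14, 15), (0, 3, 15, 15), (0, 3, 16, 15), (0, 3, 25, 5),
     (0, 3, 26, 15), (0, 4, 11, 6), (1, 0, 21, 9), (1, 0, 22, 15), (1, 0, 23, 15),
     (1, 0, 24, 15), (1, 0, 25, 10), (1, 4, 5, 15), (1, 4, 6, 15), (1, 4, 7, 15), (1, 4, 8, 15),
     (1, 4, 20, 15), (1, 4, 21, 6), (2, 0, 9, 15), (2, 0, 18, 8), (2, 1, 0, 15), (2, 1, 1, 15),
     (2, 1, 2, 15), (2, 1, 3, 10), (2, 1, 12, 15), (2, 1, 13, 2), (2, 1, 17, 15), (2, 2, 3, 5),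
     (2, 2, 4, 15), (2, 2, 10, 15)]),
   (3, 6, 6,
    [(0, 2, 3, 1), (0, 3, 5, 2), (0, 5, 2, 1), (1, 1, 4, 1), (1, 4, 0, 2), (1, 5, 4, 1),
     (2, 0, 1, 1), (2, 0, 2, 1), (2, 1, 3, 1), (2, 2, 1, 1)]),
   (3, 6, 7,
    [(0, 2, 4, 12), (0, 2, 5, 2), (0, 3, 5, 5), (0, 3, 6, 4), (0, 4, 3, 3), (0, 5, 3, 2),
     (1, 1, 5, 5), (1, 4, 0, 3), (1, 4, 6, 8), (1, 5, 1, 12), (2, 0, 2, 7), (2, 0, 3, 7),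
     (2, 1, 0, 9), (2, 3, 2, 5)]),
   (3, 6, 8,
    [(0, 2, 5, 1), (0, 3, 3, 1), (0, 3, 7, 3), (0, 4, 3, 1), (0, 5, 5, 2), (1, 1, 6, 3),
     (1, 4, 1, 3), (1, 5, 0, 2), (2, 0, 2, 3), (2, 0, 3, 1), (2, 1, 0, 1), (2, 2, 4, 3)]),
   (3, 6, 9,
    [(0, 2, 5, 1), (0, 3, 7, 2), (0, 3, 8, 1), (0, 4, 8, 1), (0, 5, 3, 1), (1, 1, 6, 2),
     (1, 4, 1, 2), (1, 5, 0, 2), (2, 0, 3, 1), (2, 0, 4, 2), (2, 1, 5, 1), (2, 2, 2, 2)]),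
   (3, 6, 10,
    [(0, 2, 6, 1), (0, 2, 7, 1), (0, 3, 4, 1), (0, 3, 9, 2), (0, 4, 5, 1), (0, 5, 5, 2),
     (0, 5, 6, 2), (1, 1, 7, 2), (1, 1, 8, 3), (1, 4, 1, 3), (1, 4, 9, 1), (1, 5, 0, 1),
     (2, 0, 3, 3), (2, 0, 4, 2), (2, 2, 2, 3), (2, 3, 0, 2)]),
   (3, 6, 11,
    [(0, 2, 6, 5), (0, 2, 7, 18), (0, 3, 10, 14), (0, 5, 4, 18), (0, 5, 8, 11), (1, 1, 8, 7),
     (1, 1, 9, 18), (1, 1, 10, 4), (1, 4, 1, 15), (1, 4, 2, 18), (1, 5, 0, 4), (2, 0, 3, 2),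
     (2, 0, 5, 18), (2, 0, 6, 13), (2, 1, 0, 4), (2, 2, 0, 10), (2, 3, 1, 3), (2, 3, 3, 16)]),
   (3, 7, 7,
    [(0, 3, 4, 5), (0, 3, 5, 1), (0, 4, 6, 6), (0, 5, 4, 1), (0, 6, 3, 1), (1, 1, 5, 4),
     (1, 5, 1, 5), (1, 6, 0, 4), (1, 6, 5, 1), (2, 0, 2, 6), (2, 1, 0, 2), (2, 2, 1, 1),
     (2, 2, 3, 5)]),
   (3, 7, 8,
    [(0, 3, 5, 19), (0, 4, 3, 17), (0, 4, 7, 7), (0, 5, 4, 10), (0, 6, 3, 1), (0, 6, 5, 2),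
     (1, 1, 6, 21), (1, 5, 7, 14), (1, 6, 1, 21), (2, 0, 2, 16), (2, 0, 4, 8), (2, 1, 3, 3),
     (2, 2, 0, 21), (2, 2, 4, 3), (2, 3, 2, 5)]),
   (3, 7, 9,
    [(0, 3, 7, 2), (0, 4, 3, 2), (0, 4, 8, 7), (0, 5, 5, 1), (0, 6, 3, 5), (0, 6, 5, 4),
     (1, 0, 2, 1), (1, 0, 7, 3), (1, 1, 6, 7), (1, 1, 7, 2), (1, 5, 0, 7), (1, 5, 2, 1),
     (2, 0, 2, 5), (2, 2, 4, 7), (2, 2, 5, 2), (2, 3, 1, 7)]),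
   (3, 7, 10,
    [(0, 3, 6, 11), (0, 4, 4, 2), (0, 4, 8, 7), (0, 4, 9, 21), (0, 6, 4, 19), (0, 6, 6, 10),
     (1, 0, 2, 4), (1, 0, 8, 5), (1, 1, 7, 21), (1, 1, 8, 9), (1, 5, 0, 11), (1, 5, 1, 2),
     (1, 5, 2, 17), (1, 6, 0, 1), (2, 0, 3, 21), (2, 2, 0, 9), (2, 2, 5, 21), (2, 3, 1, 19)]),
   (3, 7, 11,
    [(0, 3, 7, 42), (0, 3, 10, 21), (0, 4, 4, 17), (0, 4, 8, 37), (0, 4, 10, 12), (0, 6, 4, 25),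
     (1, 1, 8, 5), (1, 1, 9, 42), (1, 5, 1, 39), (1, 5, 2, 18), (1, 5, 10, 9), (1, 6, 0, 41),
     (2, 0, 2, 24), (2, 0, 3, 42), (2, 1, 0, 1), (2, 1, 5, 18), (2, 2, 5, 24), (2, 2, 6, 42),
     (2, 3, 1, 3)]),
   (3, 7, 12,
    [(0, 3, 11, 4), (0, 4, 4, 2), (0, 4, 9, 3), (0, 4, 10, 7), (0, 5, 5, 5), (0, 6, 4, 5),
     (0, 6, 5, 2), (1, 0, 3, 7), (1, 0, 9, 4), (1, 1, 8, 2), (1, 1, 11, 3), (1, 5, 0, 7),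
     (1, 6, 8, 5), (2, 0, 2, 1), (2, 1, 7, 7), (2, 2, 1, 5), (2, 2, 6, 7), (2, 3, 1, 2),
     (2, 3, 2, 6)]),
   (3, 7, 13,
    [(0, 3, 8, 5), (0, 3, 10, 4), (0, 3, 11, 3), (0, 4, 11, 18), (0, 4, 12, 21), (0, 5, 8, 1),
     (0, 6, 5, 21), (0, 6, 7, 3), (0, 6, 8, 15), (1, 0, 3, 15), (1, 1, 9, 21), (1, 1, 10, 17),
     (1, 5, 0, 20), (1, 5, 2, 18), (2, 0, 2, 3), (2, 0, 4, 21), (2, 1, 0, 1), (2, 2, 6, 21),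
     (2, 2, 7, 18), (2, 3, 1, 21), (2, 3, 3, 6)]),
   (3, 7, 14,
    [(0, 3, 9, 3), (0, 4, 5, 1), (0, 4, 10, 2), (0, 4, 13, 3), (0, 5, 8, 2), (0, 6, 5, 2),
     (0, 6, 8, 1), (1, 0, 12, 1), (1, 1, 10, 1), (1, 1, 11, 3), (1, 1, 12, 2), (1, 5, 1, 3),
     (1, 5, 2, 1), (1, 6, 0, 3), (2, 0, 2, 2), (2, 0, 3, 3), (2, 2, 6, 3), (2, 2, 7, 3),
     (2, 3, 4, 3)]),
   (3, 7, 15,
    [(0, 3, 14, 20), (0, 4, 7, 16), (0, 4, 11, 8), (0, 4, 12, 21), (0, 5, 7, 2), (0, 6, 5, 17),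
     (0, 6, 6, 21), (1, 0, 13, 10), (1, 1, 10, 21), (1, 1, 11, 13), (1, 1, 13, 11),
     (1, 5, 0, 14), (1, 5, 1, 21), (1, 5, 3, 7), (1, 5, 14, 1), (1, 6, 0, 7), (2, 0, 3, 14),
     (2, 0, 4, 21), (2, 2, 7, 3), (2, 2, 8, 21), (2, 2, 9, 21), (2, 3, 2, 21), (2, 3, 5, 4)]),
   (3, 7, 16,
    [(0, 3, 10, 21), (0, 3, 13, 3), (0, 3, 15, 10), (0, 4, 7, 13), (0, 4, 8, 21), (0, 4, 13, 14),
     (0, 5, 9, 1), (0, 6, 6, 21), (0, 6, 7, 8), (1, 1, 11, 21), (1, 1, 12, 21), (1, 1, 13, 4),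
     (1, 5, 3, 15), (1, 5, 14, 21), (1, 5, 15, 11), (1, 6, 0, 19), (2, 0, 3, 6), (2, 0, 4, 21),
     (2, 0, 5, 21), (2, 1, 0, 2), (2, 2, 1, 7), (2, 2, 2, 21), (2, 2, 9, 20), (2, 3, 1, 14)]),
   (3, 7, 17,
    [(0, 3, 11, 11), (0, 4, 14, 9), (0, 4, 15, 21), (0, 4, 16, 21), (0, 5, 11, 6), (0, 6, 6, 14),
     (0, 6, 7, 21), (0, 6, 8, 12), (0, 6, 11, 4), (1, 0, 4, 18), (1, 0, 14, 12), (1, 1, 1, 2),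
     (1, 1, 12, 21), (1, 1, 13, 21), (1, 5, 0, 21), (1, 5, 3, 21), (1, 5, 4, 3), (2, 0, 9, 21),
     (2, 1, 6, 7), (2, 2, 1, 19), (2, 2, 2, 2), (2, 2, 8, 9), (2, 2, 10, 21), (2, 3, 2, 19),
     (2, 3, 5, 21)]),
   (3, 7, 18,
    [(0, 3, 17, 9), (0, 4, 9, 13), (0, 4, 14, 9), (0, 4, 15, 14), (0, 5, 8, 2), (0, 5, 9, 1),
     (0, 6, 6, 14), (0, 6, 7, 10), (0, 6, 8, 12), (1, 0, 4, 4), (1, 0, 5, 14), (1, 1, 12, 14),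
     (1, 1, 13, 14), (1, 1, 14, 5), (1, 5, 1, 14), (1, 5, 16, 14), (1, 5, 17, 5), (2, 0, 7, 4),
     (2, 0, 11, 14), (2, 1, 10, 3), (2, 2, 0, 14), (2, 2, 2, 11), (2, 2, 10, 11), (2, 3, 2, 3),
     (2, 3, 3, 14), (2, 3, 4, 10)]),
   (3, 7, 19,
    [(0, 3, 12, 61), (0, 4, 7, 7), (0, 4, 14, 38), (0, 4, 15, 63), (0, 4, 18, 63),
     (0, 5, 10, 63), (0, 5, 12, 2), (0, 6, 7, 21), (0, 6, 8, 63), (0, 6, 9, 18), (1, 0, 4, 10),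
     (1, 0, 5, 63), (1, 1, 13, 63), (1, 1, 14, 25), (1, 1, 16, 63), (1, 5, 1, 43),
     (1, 5, 17, 63), (1, 6, 2, 63), (1, 6, 3, 6), (2, 0, 6, 63), (2, 0, 7, 35), (2, 1, 1, 20),
     (2, 2, 0, 63), (2, 2, 9, 45), (2, 2, 11, 63), (2, 3, 3, 57), (2, 3, 4, 53)]),
   (3, 7, 20,
    [(0, 3, 13, 42), (0, 3, 19, 17), (0, 4, 7, 27), (0, 4, 8, 8), (0, 4, 10, 37), (0, 4, 15, 6),
     (0, 4, 17, 42), (0, 5, 19, 25), (0, 6, 8, 34), (0, 6, 9, 42), (1, 0, 5, 21), (1, 1, 14, 42),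
     (1, 1, 15, 36), (1, 1, 16, 42), (1, 5, 1, 11), (1, 5, 2, 42), (1, 5, 18, 42), (1, 6, 3, 42),
     (1, 6, 4, 2), (2, 0, 6, 42), (2, 0, 7, 15), (2, 0, 11, 42), (2, 2, 0, 42), (2, 2, 1, 31),
     (2, 2, 10, 5), (2, 2, 12, 42), (2, 3, 4, 40), (2, 3, 5, 21)]),
   (3, 7, 21,
    [(0, 3, 20, 1), (0, 4, 10, 1), (0, 4, 11, 1), (0, 4, 15, 1), (0, 6, 7, 1), (0, 6, 8, 1),
     (0, 6, 9, 1), (1, 0, 16, 1), (1, 1, 17, 1), (1, 1, 18, 1), (1, 1, 19, 1), (1, 5, 1, 1),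
     (1, 5, 2, 1), (1, 5, 14, 1), (2, 0, 5, 1), (2, 0, 6, 1), (2, 2, 0, 1), (2, 2, 12, 1),
     (2, 2, 13, 1), (2, 3, 3, 1), (2, 3, 4, 1)]),
   (3, 7, 22,
    [(0, 3, 13, 1), (0, 3, 14, 21), (0, 3, 21, 21), (0, 4, 10, 12), (0, 4, 18, 12),
     (0, 4, 19, 21), (0, 4, 20, 21), (0, 5, 10, 5), (0, 6, 8, 19), (0, 6, 9, 21), (1, 0, 18, 3),
     (1, 1, 15, 16), (1, 1, 16, 21), (1, 1, 17, 21), (1, 1, 18, 6), (1, 5, 1, 19), (1, 5, 2, 21),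
     (1, 5, 3, 21), (1, 6, 0, 21), (1, 6, 15, 5), (2, 0, 4, 21), (2, 0, 5, 21), (2, 0, 6, 21),
     (2, 1, 1, 2), (2, 2, 10, 4), (2, 2, 11, 21), (2, 2, 12, 21), (2, 2, 13, 20), (2, 3, 7, 21),
     (2, 3, 8, 2)]),
   (3, 7, 23,
    [(0, 3, 15, 21), (0, 3, 21, 6), (0, 3, 22, 21), (0, 4, 11, 12), (0, 4, 12, 21),
     (0, 4, 20, 21), (0, 4, 21, 15), (0, 5, 11, 6), (0, 6, 9, 21), (0, 6, 16, 17), (1, 0, 6, 21),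
     (1, 0, 17, 1), (1, 0, 19, 21), (1, 1, 16, 4), (1, 1, 17, 20), (1, 5, 0, 21), (1, 5, 1, 21),
     (1, 5, 2, 21), (1, 6, 4, 10), (1, 6, 18, 21), (2, 0, 4, 5), (2, 0, 14, 21), (2, 1, 8, 21),
     (2, 1, 11, 3), (2, 1, 13, 21), (2, 2, 3, 21), (2, 2, 4, 6), (2, 2, 5, 21), (2, 2, 10, 21),
     (2, 3, 7, 21)]),
   (3, 7, 24,
    [(0, 3, 15, 13), (0, 3, 19, 8), (0, 4, 10, 6), (0, 4, 11, 14), (0, 4, 12, 14),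
     (0, 4, 20, 14), (0, 5, 21, 14), (0, 5, 22, 14), (0, 5, 23, 14), (0, 6, 8, 1), (1, 0, 6, 14),
     (1, 0, 19, 6), (1, 1, 7, 11), (1, 1, 16, 14), (1, 1, 17, 14), (1, 5, 5, 6), (1, 6, 1, 5),
     (1, 6, 3, 14), (1, 6, 4, 14), (1, 6, 18, 14), (2, 0, 5, 8), (2, 0, 7, 3), (2, 0, 13, 14),
     (2, 0, 14, 3), (2, 1, 10, 8), (2, 1, 15, 1), (2, 2, 0, 14), (2, 2, 1, 9), (2, 2, 2, 14),
     (2, 2, 14, 11), (2, 3, 8, 13), (2, 3, 9, 14)]),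
   (3, 7, 25,
    [(0, 3, 16, 42), (0, 3, 24, 27), (0, 4, 12, 18), (0, 4, 13, 42), (0, 4, 18, 6),
     (0, 4, 20, 42), (0, 4, 21, 42), (0, 6, 9, 42), (0, 6, 10, 42), (0, 6, 14, 42),
     (0, 6, 17, 5), (1, 0, 7, 42), (1, 0, 22, 9), (1, 0, 24, 15), (1, 1, 17, 37), (1, 1, 18, 36),
     (1, 1, 19, 42), (1, 5, 1, 33), (1, 5, 2, 42), (1, 5, 22, 33), (1, 5, 23, 42), (1, 6, 0, 7),
     (1, 6, 1, 9), (1, 6, 3, 3), (2, 0, 8, 42), (2, 0, 15, 42), (2, 1, 0, 35), (2, 2, 5, 42),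
     (2, 2, 6, 42), (2, 2, 11, 42), (2, 2, 12, 24), (2, 3, 3, 39), (2, 3, 4, 42)]),
   (3, 7, 26,
    [(0, 3, 16, 50), (0, 3, 17, 126), (0, 4, 13, 125), (0, 4, 19, 105), (0, 4, 20, 126),
     (0, 4, 21, 112), (0, 5, 13, 1), (0, 6, 9, 126), (0, 6, 10, 126), (0, 6, 11, 126),
     (0, 6, 14, 69), (1, 0, 5, 86), (1, 0, 6, 126), (1, 0, 7, 126), (1, 1, 18, 126),
     (1, 1, 21, 14), (1, 1, 22, 126), (1, 5, 2, 89), (1, 5, 23, 126), (1, 5, 24, 126),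
     (1, 5, 25, 126), (1, 6, 19, 21), (2, 0, 8, 126), (2, 0, 14, 4), (2, 1, 15, 126),
     (2, 1, 16, 76), (2, 2, 0, 126), (2, 2, 1, 126), (2, 2, 2, 37), (2, 2, 12, 126),
     (2, 2, 14, 53), (2, 3, 3, 126), (2, 3, 4, 126), (2, 3, 5, 40)]),
   (3, 7, 27,
    [(0, 3, 9, 21), (0, 4, 11, 11), (0, 4, 12, 35), (0, 4, 13, 35), (0, 4, 14, 35),
     (0, 4, 26, 19), (0, 5, 11, 24), (0, 6, 9, 14), (0, 6, 10, 35), (0, 6, 15, 16),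
     (0, 6, 21, 35), (0, 6, 22, 35), (1, 0, 7, 31), (1, 0, 20, 35), (1, 0, 23, 35),
     (1, 0, 26, 16), (1, 1, 8, 17), (1, 1, 18, 35), (1, 1, 19, 35), (1, 5, 0, 6), (1, 5, 1, 35),
     (1, 5, 24, 35), (1, 5, 25, 35), (2, 0, 8, 18), (2, 1, 0, 29), (2, 1, 15, 19), (2, 2, 2, 35),
     (2, 2, 3, 30), (2, 2, 16, 35), (2, 2, 17, 35), (2, 3, 3, 5), (2, 3, 4, 35), (2, 3, 5, 35),
     (2, 3, 6, 35), (2, 3, 7, 4)])]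

lemma T1_ok : allOk T1 = true := by decide +kernel

def T2 : List Entry :=
  [(3, 7, 28,
    [(0, 3, 17, 2), (0, 3, 18, 12), (0, 3, 22, 1), (0, 3, 23, 12), (0, 4, 13, 11),
     (0, 4, 14, 12), (0, 4, 15, 12), (0, 4, 20, 12), (0, 4, 21, 1), (0, 6, 10, 12),
     (0, 6, 11, 12), (0, 6, 12, 12), (0, 6, 13, 1), (1, 0, 5, 3), (1, 0, 6, 12), (1, 0, 7, 12),
     (1, 1, 8, 3), (1, 1, 19, 12), (1, 1, 21, 11), (1, 5, 24, 12), (1, 5, 25, 12),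
     (1, 5, 26, 12), (1, 5, 27, 12), (1, 6, 22, 11), (2, 0, 8, 9), (2, 0, 9, 12), (2, 1, 16, 12),
     (2, 1, 17, 10), (2, 2, 0, 12), (2, 2, 1, 12), (2, 2, 2, 12), (2, 2, 3, 12), (2, 3, 4, 12),
     (2, 3, 5, 9)]),
   (3, 7, 29,
    [(0, 3, 19, 21), (0, 3, 24, 21), (0, 3, 25, 21), (0, 4, 12, 9), (0, 4, 14, 14),
     (0, 4, 15, 21), (0, 4, 23, 1), (0, 4, 27, 21), (0, 4, 28, 21), (0, 5, 14, 7),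
     (0, 5, 26, 21), (0, 6, 10, 4), (0, 6, 11, 21), (1, 0, 7, 15), (1, 0, 8, 21), (1, 1, 3, 4),
     (1, 1, 20, 21), (1, 1, 21, 21), (1, 5, 0, 21), (1, 5, 1, 21), (1, 5, 3, 17), (1, 6, 4, 21),
     (1, 6, 22, 21), (1, 6, 23, 20), (2, 0, 5, 18), (2, 0, 12, 12), (2, 0, 17, 21),
     (2, 1, 10, 17), (2, 1, 16, 21), (2, 1, 18, 3), (2, 2, 2, 21), (2, 2, 6, 21), (2, 2, 7, 6),
     (2, 2, 13, 21), (2, 2, 18, 18), (2, 3, 5, 3), (2, 3, 9, 21)]),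
   (3, 7, 30,
    [(0, 3, 19, 7), (0, 3, 28, 2), (0, 3, 29, 7), (0, 4, 11, 4), (0, 4, 12, 7), (0, 4, 25, 7),
     (0, 4, 27, 7), (0, 4, 28, 5), (0, 5, 20, 1), (0, 6, 10, 4), (0, 6, 13, 5), (0, 6, 17, 7),
     (0, 6, 24, 7), (1, 0, 8, 7), (1, 1, 20, 6), (1, 1, 21, 7), (1, 1, 22, 7), (1, 1, 23, 7),
     (1, 5, 1, 7), (1, 5, 2, 7), (1, 5, 3, 7), (1, 5, 6, 1), (1, 5, 26, 7), (1, 6, 0, 7),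
     (2, 0, 5, 7), (2, 0, 6, 6), (2, 0, 7, 7), (2, 0, 10, 3), (2, 1, 11, 3), (2, 2, 13, 2),
     (2, 2, 14, 7), (2, 2, 15, 7), (2, 2, 16, 7), (2, 2, 18, 7), (2, 3, 4, 7), (2, 3, 9, 7)]),
   (3, 7, 31,
    [(0, 3, 20, 21), (0, 3, 27, 9), (0, 4, 14, 21), (0, 4, 15, 5), (0, 4, 16, 21),
     (0, 4, 24, 15), (0, 4, 26, 21), (0, 4, 28, 10), (0, 5, 13, 21), (0, 5, 15, 16),
     (0, 5, 27, 12), (0, 6, 12, 21), (0, 6, 18, 21), (0, 6, 21, 3), (1, 0, 28, 11),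
     (1, 0, 29, 21), (1, 0, 30, 21), (1, 1, 3, 10), (1, 1, 9, 2), (1, 1, 21, 18), (1, 1, 22, 21),
     (1, 1, 25, 21), (1, 5, 1, 12), (1, 5, 2, 21), (1, 5, 3, 11), (1, 6, 4, 21), (1, 6, 23, 21),
     (1, 6, 24, 6), (2, 0, 5, 21), (2, 0, 9, 19), (2, 1, 19, 21), (2, 2, 0, 21), (2, 2, 1, 9),
     (2, 2, 6, 21), (2, 2, 7, 21), (2, 2, 17, 21), (2, 3, 8, 21), (2, 3, 10, 21),
     (2, 3, 11, 21)]),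
   (3, 7, 32,
    [(0, 3, 21, 42), (0, 3, 30, 27), (0, 3, 31, 42), (0, 4, 14, 23), (0, 4, 15, 42),
     (0, 4, 16, 42), (0, 4, 17, 42), (0, 4, 24, 1), (0, 4, 28, 42), (0, 6, 11, 42),
     (0, 6, 12, 42), (0, 6, 13, 42), (0, 6, 14, 19), (1, 0, 24, 17), (1, 0, 27, 42),
     (1, 1, 22, 42), (1, 1, 23, 42), (1, 1, 24, 24), (1, 1, 25, 42), (1, 5, 1, 13),
     (1, 5, 2, 42), (1, 5, 3, 42), (1, 5, 4, 3), (1, 5, 9, 35), (1, 5, 29, 42), (1, 5, 30, 15),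
     (1, 6, 1, 5), (1, 6, 26, 42), (2, 0, 9, 7), (2, 0, 10, 42), (2, 0, 18, 42), (2, 0, 20, 42),
     (2, 1, 19, 42), (2, 2, 0, 42), (2, 2, 1, 24), (2, 2, 6, 42), (2, 2, 7, 42), (2, 2, 8, 42),
     (2, 3, 4, 39), (2, 3, 5, 42)]),
   (3, 7, 33,
    [(0, 3, 28, 21), (0, 3, 31, 2), (0, 3, 32, 14), (0, 4, 14, 8), (0, 4, 15, 21),
     (0, 4, 16, 21), (0, 4, 17, 21), (0, 4, 24, 21), (0, 4, 32, 7), (0, 6, 11, 21),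
     (0, 6, 18, 11), (0, 6, 25, 21), (0, 6, 26, 21), (0, 6, 27, 21), (1, 0, 7, 2), (1, 0, 8, 21),
     (1, 0, 9, 21), (1, 1, 2, 21), (1, 1, 3, 21), (1, 1, 22, 21), (1, 1, 23, 21), (1, 5, 0, 17),
     (1, 5, 1, 21), (1, 5, 29, 21), (1, 5, 30, 21), (1, 5, 31, 19), (1, 6, 0, 4), (2, 0, 10, 21),
     (2, 0, 13, 21), (2, 0, 14, 13), (2, 1, 12, 5), (2, 1, 18, 10), (2, 2, 6, 21), (2, 2, 7, 19),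
     (2, 2, 19, 21), (2, 2, 20, 21), (2, 2, 21, 17), (2, 3, 4, 21), (2, 3, 5, 21),
     (2, 3, 12, 16), (2, 3, 21, 4)]),
   (3, 7, 34,
    [(0, 3, 22, 105), (0, 3, 25, 23), (0, 4, 15, 17), (0, 4, 16, 105), (0, 4, 17, 105),
     (0, 4, 18, 105), (0, 4, 25, 82), (0, 4, 30, 96), (0, 5, 23, 81), (0, 6, 12, 51),
     (0, 6, 13, 105), (0, 6, 26, 105), (0, 6, 27, 105), (0, 6, 28, 105), (1, 0, 5, 2),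
     (1, 0, 8, 105), (1, 0, 9, 105), (1, 1, 2, 66), (1, 1, 3, 105), (1, 1, 23, 24),
     (1, 1, 24, 105), (1, 1, 29, 105), (1, 1, 33, 105), (1, 5, 0, 105), (1, 5, 1, 105),
     (1, 5, 30, 9), (1, 5, 31, 105), (1, 5, 32, 105), (1, 6, 2, 39), (2, 0, 10, 105),
     (2, 0, 14, 105), (2, 0, 15, 88), (2, 2, 6, 90), (2, 2, 7, 105), (2, 2, 19, 105),
     (2, 2, 20, 105), (2, 2, 21, 105), (2, 3, 4, 105), (2, 3, 5, 103), (2, 3, 6, 15),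
     (2, 3, 11, 105), (2, 3, 12, 54)]),
   (3, 7, 35,
    [(0, 3, 20, 1), (0, 3, 23, 3), (0, 3, 34, 3), (0, 4, 15, 6), (0, 4, 16, 6), (0, 4, 17, 6),
     (0, 4, 18, 6), (0, 4, 19, 6), (0, 5, 23, 3), (0, 6, 13, 6), (0, 6, 14, 6), (0, 6, 27, 6),
     (0, 6, 28, 6), (0, 6, 29, 6), (1, 0, 8, 6), (1, 0, 9, 6), (1, 0, 25, 6), (1, 0, 26, 6),
     (1, 1, 3, 1), (1, 1, 4, 6), (1, 1, 10, 6), (1, 1, 24, 6), (1, 5, 30, 6), (1, 5, 31, 6),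
     (1, 5, 32, 6), (1, 5, 33, 6), (1, 5, 34, 3), (2, 0, 12, 6), (2, 1, 11, 6), (2, 1, 20, 5),
     (2, 2, 0, 6), (2, 2, 1, 6), (2, 2, 2, 6), (2, 2, 21, 6), (2, 2, 22, 6), (2, 3, 3, 5),
     (2, 3, 5, 6), (2, 3, 6, 6), (2, 3, 7, 6)]),
   (3, 7, 36,
    [(0, 3, 22, 12), (0, 3, 23, 14), (0, 3, 32, 4), (0, 3, 33, 14), (0, 3, 34, 14),
     (0, 4, 13, 14), (0, 4, 14, 14), (0, 4, 15, 14), (0, 4, 26, 14), (0, 4, 31, 6),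
     (0, 4, 32, 10), (0, 5, 24, 5), (0, 6, 20, 5), (0, 6, 28, 14), (0, 6, 29, 14), (1, 0, 27, 8),
     (1, 0, 30, 14), (1, 0, 31, 8), (1, 1, 11, 3), (1, 1, 24, 9), (1, 1, 25, 14), (1, 1, 27, 6),
     (1, 5, 1, 11), (1, 5, 2, 14), (1, 5, 3, 14), (1, 5, 4, 14), (1, 5, 35, 14), (1, 6, 9, 14),
     (1, 6, 10, 14), (1, 6, 11, 11), (2, 0, 6, 14), (2, 0, 7, 14), (2, 0, 8, 14), (2, 1, 0, 14),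
     (2, 1, 1, 3), (2, 1, 12, 14), (2, 1, 20, 9), (2, 2, 16, 14), (2, 2, 17, 14), (2, 2, 18, 14),
     (2, 2, 19, 14), (2, 2, 21, 14), (2, 2, 22, 2), (2, 3, 5, 14)]),
   (3, 7, 37,
    [(0, 3, 24, 42), (0, 3, 35, 27), (0, 3, 36, 42), (0, 4, 20, 38), (0, 4, 30, 1),
     (0, 4, 31, 42), (0, 4, 32, 42), (0, 4, 33, 42), (0, 4, 34, 42), (0, 4, 35, 15),
     (0, 5, 25, 34), (0, 6, 13, 15), (0, 6, 14, 42), (0, 6, 15, 42), (0, 6, 16, 10),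
     (0, 6, 17, 42), (1, 0, 10, 42), (1, 0, 30, 41), (1, 1, 11, 42), (1, 1, 25, 8),
     (1, 1, 26, 42), (1, 1, 27, 42), (1, 1, 28, 42), (1, 5, 1, 20), (1, 5, 2, 42), (1, 5, 3, 42),
     (1, 5, 4, 42), (1, 5, 9, 42), (1, 6, 6, 29), (1, 6, 29, 42), (2, 0, 6, 13), (2, 0, 7, 42),
     (2, 0, 8, 42), (2, 0, 18, 42), (2, 1, 19, 42), (2, 1, 20, 4), (2, 2, 0, 42), (2, 2, 1, 22),
     (2, 2, 16, 32), (2, 2, 21, 42), (2, 2, 22, 42), (2, 2, 23, 42), (2, 3, 5, 42),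
     (2, 3, 12, 42), (2, 3, 13, 27)]),
   (3, 7, 38,
    [(0, 3, 23, 21), (0, 3, 24, 21), (0, 3, 25, 21), (0, 3, 37, 7), (0, 4, 20, 21),
     (0, 4, 31, 9), (0, 4, 32, 21), (0, 4, 34, 7), (0, 4, 35, 21), (0, 4, 36, 21),
     (0, 4, 37, 14), (0, 6, 13, 19), (0, 6, 14, 21), (0, 6, 15, 21), (0, 6, 16, 21),
     (1, 0, 28, 21), (1, 0, 29, 21), (1, 0, 30, 21), (1, 0, 31, 12), (1, 1, 11, 3),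
     (1, 1, 26, 21), (1, 1, 27, 21), (1, 5, 7, 16), (1, 5, 8, 21), (1, 5, 9, 21), (1, 5, 10, 21),
     (1, 5, 33, 21), (1, 5, 34, 14), (1, 6, 0, 15), (1, 6, 1, 12), (1, 6, 7, 5), (2, 0, 11, 18),
     (2, 0, 22, 21), (2, 1, 0, 6), (2, 1, 17, 21), (2, 1, 18, 21), (2, 1, 19, 21), (2, 2, 1, 9),
     (2, 2, 2, 21), (2, 2, 3, 21), (2, 2, 4, 21), (2, 2, 6, 21), (2, 2, 21, 21), (2, 3, 5, 21),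
     (2, 3, 12, 21), (2, 3, 13, 2)]),
   (3, 7, 39,
    [(0, 3, 33, 49), (0, 3, 37, 36), (0, 3, 38, 49), (0, 4, 16, 25), (0, 4, 17, 3),
     (0, 4, 18, 49), (0, 4, 19, 49), (0, 4, 20, 49), (0, 4, 21, 49), (0, 4, 29, 49),
     (0, 5, 16, 24), (0, 5, 26, 49), (0, 6, 13, 29), (0, 6, 14, 49), (0, 6, 15, 49),
     (0, 6, 27, 30), (1, 0, 7, 8), (1, 0, 8, 49), (1, 0, 9, 49), (1, 0, 10, 49), (1, 0, 11, 49),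
     (1, 1, 27, 19), (1, 1, 28, 49), (1, 1, 30, 49), (1, 5, 2, 40), (1, 5, 34, 49),
     (1, 5, 35, 49), (1, 5, 36, 49), (1, 5, 37, 13), (1, 6, 3, 18), (1, 6, 31, 49),
     (1, 6, 32, 49), (2, 0, 12, 49), (2, 0, 13, 20), (2, 1, 0, 49), (2, 1, 1, 49), (2, 1, 2, 9),
     (2, 1, 23, 49), (2, 2, 3, 31), (2, 2, 4, 49), (2, 2, 17, 46), (2, 2, 22, 49),
     (2, 2, 24, 49), (2, 2, 25, 49), (2, 3, 5, 49), (2, 3, 6, 49), (2, 3, 7, 41)]),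
   (3, 7, 40,
    [(0, 3, 24, 16), (0, 3, 25, 21), (0, 3, 26, 21), (0, 3, 36, 18), (0, 4, 16, 21),
     (0, 4, 18, 9), (0, 4, 21, 6), (0, 4, 29, 21), (0, 4, 30, 21), (0, 4, 32, 21),
     (0, 4, 35, 21), (0, 5, 17, 21), (0, 5, 27, 12), (0, 5, 39, 21), (0, 6, 22, 21),
     (0, 6, 33, 9), (1, 0, 9, 19), (1, 0, 10, 21), (1, 0, 11, 21), (1, 0, 33, 12), (1, 1, 27, 9),
     (1, 1, 28, 21), (1, 1, 34, 21), (1, 5, 2, 21), (1, 5, 36, 3), (1, 5, 37, 21),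
     (1, 5, 38, 21), (1, 6, 0, 21), (1, 6, 1, 6), (1, 6, 5, 21), (1, 6, 6, 21), (1, 6, 31, 21),
     (2, 0, 12, 21), (2, 0, 19, 21), (2, 0, 24, 5), (2, 1, 1, 15), (2, 1, 13, 21),
     (2, 1, 18, 12), (2, 1, 23, 21), (2, 2, 3, 21), (2, 2, 4, 21), (2, 2, 7, 21), (2, 2, 8, 21),
     (2, 2, 20, 21), (2, 2, 21, 15), (2, 3, 9, 2), (2, 3, 14, 21), (2, 3, 15, 21)]),
   (3, 7, 41,
    [(0, 3, 27, 42), (0, 3, 32, 23), (0, 4, 18, 36), (0, 4, 19, 42), (0, 4, 20, 42),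
     (0, 4, 21, 42), (0, 4, 22, 42), (0, 4, 35, 42), (0, 5, 17, 36), (0, 5, 37, 42),
     (0, 5, 38, 42), (0, 5, 39, 42), (0, 6, 14, 42), (0, 6, 15, 42), (0, 6, 29, 17),
     (1, 0, 8, 22), (1, 0, 9, 42), (1, 0, 10, 42), (1, 0, 11, 42), (1, 0, 30, 42), (1, 1, 3, 6),
     (1, 1, 4, 42), (1, 1, 12, 40), (1, 1, 28, 42), (1, 1, 29, 25), (1, 5, 36, 42),
     (1, 5, 40, 42), (1, 6, 31, 42), (1, 6, 32, 19), (1, 6, 33, 42), (1, 6, 34, 42),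
     (2, 0, 12, 2), (2, 0, 17, 6), (2, 0, 18, 6), (2, 0, 23, 42), (2, 1, 2, 42), (2, 1, 13, 42),
     (2, 1, 16, 7), (2, 2, 0, 42), (2, 2, 1, 42), (2, 2, 3, 36), (2, 2, 24, 42), (2, 2, 25, 42),
     (2, 2, 26, 42), (2, 3, 5, 42), (2, 3, 6, 42), (2, 3, 7, 42), (2, 3, 8, 20), (2, 3, 16, 35)]),
   (3, 8, 8,
    [(0, 4, 5, 3), (0, 5, 4, 1), (0, 5, 6, 2), (0, 6, 4, 2), (1, 0, 7, 1), (1, 1, 6, 1),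
     (1, 1, 7, 2), (1, 6, 1, 1), (1, 7, 0, 3), (2, 0, 1, 2), (2, 2, 3, 3), (2, 3, 2, 3)]),
   (3, 8, 9,
    [(0, 3, 8, 7), (0, 4, 7, 9), (0, 4, 8, 9), (0, 5, 4, 12), (0, 5, 7, 6), (0, 6, 4, 2),
     (0, 7, 3, 3), (1, 1, 6, 16), (1, 1, 7, 1), (1, 6, 1, 16), (1, 7, 0, 15), (2, 0, 2, 5),
     (2, 0, 3, 13), (2, 1, 0, 1), (2, 2, 4, 2), (2, 2, 5, 16), (2, 3, 2, 11)]),
   (3, 8, 10,
    [(0, 3, 6, 7), (0, 4, 8, 7), (0, 4, 9, 6), (0, 5, 4, 1), (0, 5, 5, 12), (0, 5, 8, 2),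
     (0, 7, 6, 5), (1, 1, 7, 12), (1, 1, 8, 3), (1, 6, 2, 9), (1, 6, 9, 6), (1, 7, 0, 10),
     (2, 0, 2, 3), (2, 0, 3, 12), (2, 2, 1, 4), (2, 2, 4, 11), (2, 3, 1, 8), (2, 4, 0, 2)]),
   (3, 8, 11,
    [(0, 3, 6, 15), (0, 3, 10, 4), (0, 4, 7, 24), (0, 4, 9, 7), (0, 5, 4, 19), (0, 5, 9, 14),
     (0, 7, 4, 5), (1, 1, 8, 24), (1, 1, 9, 3), (1, 6, 2, 13), (1, 6, 10, 20), (1, 7, 0, 4),
     (1, 7, 1, 24), (2, 0, 2, 9), (2, 0, 3, 24), (2, 1, 0, 6), (2, 2, 5, 24), (2, 2, 6, 9),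
     (2, 3, 0, 14), (2, 4, 2, 2)]),
   (3, 8, 12,
    [(0, 3, 7, 4), (0, 4, 10, 2), (0, 4, 11, 4), (0, 5, 5, 3), (0, 5, 9, 1), (0, 5, 10, 2),
     (1, 0, 9, 3), (1, 1, 3, 1), (1, 6, 2, 2), (1, 6, 8, 4), (1, 7, 1, 4), (1, 7, 2, 2),
     (2, 0, 3, 3), (2, 1, 4, 4), (2, 1, 5, 1), (2, 2, 0, 2), (2, 2, 6, 4), (2, 3, 0, 2)]),
   (3, 8, 13,
    [(0, 3, 8, 24), (0, 3, 12, 5), (0, 4, 5, 4), (0, 4, 12, 4), (0, 5, 6, 16), (0, 5, 7, 14),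
     (0, 5, 10, 9), (0, 6, 5, 5), (0, 6, 6, 8), (0, 7, 5, 15), (1, 0, 12, 15), (1, 1, 10, 15),
     (1, 1, 11, 24), (1, 6, 2, 2), (1, 6, 3, 24), (1, 7, 9, 24), (2, 0, 4, 24), (2, 2, 0, 24),
     (2, 2, 1, 15), (2, 3, 7, 10), (2, 4, 1, 9), (2, 4, 2, 22)]),
   (3, 8, 14,
    [(0, 3, 13, 11), (0, 4, 9, 12), (0, 4, 10, 6), (0, 5, 5, 9), (0, 5, 11, 12), (0, 6, 6, 3),
     (0, 7, 5, 3), (1, 0, 3, 2), (1, 0, 10, 6), (1, 0, 12, 12), (1, 6, 1, 6), (1, 6, 2, 11),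
     (1, 6, 13, 1), (1, 7, 0, 12), (1, 7, 1, 6), (2, 0, 2, 1), (2, 1, 4, 9), (2, 1, 7, 12),
     (2, 2, 6, 9), (2, 2, 8, 12), (2, 3, 3, 10), (2, 4, 4, 3)])]

lemma T2_ok : allOk T2 = true := by decide +kernel

def T3 : List Entry :=
  [(3, 8, 15,
    [(0, 3, 9, 1), (0, 3, 12, 8), (0, 4, 11, 6), (0, 4, 13, 8), (0, 4, 14, 1), (0, 5, 5, 7),
     (0, 5, 8, 8), (0, 7, 10, 1), (1, 0, 3, 2), (1, 0, 10, 1), (1, 0, 11, 2), (1, 1, 4, 6),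
     (1, 6, 1, 8), (1, 6, 14, 7), (1, 7, 0, 8), (1, 7, 10, 6), (2, 0, 2, 8), (2, 0, 4, 2),
     (2, 1, 5, 1), (2, 1, 7, 8), (2, 2, 6, 8), (2, 2, 9, 7), (2, 3, 3, 6)]),
   (3, 8, 16,
    [(0, 3, 15, 9), (0, 4, 10, 15), (0, 4, 14, 9), (0, 4, 15, 6), (0, 5, 8, 7), (0, 5, 9, 15),
     (0, 5, 12, 8), (0, 6, 8, 2), (0, 7, 6, 9), (1, 0, 12, 7), (1, 0, 13, 15), (1, 1, 11, 9),
     (1, 6, 1, 15), (1, 6, 2, 7), (1, 6, 14, 6), (1, 7, 0, 15), (1, 7, 11, 6), (2, 0, 2, 8),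
     (2, 1, 5, 15), (2, 1, 8, 6), (2, 2, 3, 9), (2, 2, 6, 6), (2, 2, 7, 15), (2, 3, 3, 6),
     (2, 3, 4, 15)]),
   (3, 8, 17,
    [(0, 3, 10, 63), (0, 3, 16, 14), (0, 4, 11, 96), (0, 4, 15, 26), (0, 4, 16, 82),
     (0, 5, 6, 58), (0, 5, 9, 53), (0, 5, 13, 93), (0, 6, 6, 38), (0, 7, 10, 21), (1, 1, 12, 96),
     (1, 1, 13, 3), (1, 1, 14, 96), (1, 6, 2, 96), (1, 6, 15, 70), (1, 7, 0, 87), (1, 7, 1, 96),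
     (2, 0, 3, 96), (2, 0, 4, 96), (2, 0, 10, 12), (2, 1, 0, 9), (2, 2, 7, 96), (2, 2, 8, 96),
     (2, 2, 9, 12), (2, 3, 5, 96), (2, 3, 9, 31)]),
   (3, 8, 18,
    [(0, 3, 11, 3), (0, 3, 17, 12), (0, 4, 14, 12), (0, 4, 15, 11), (0, 5, 6, 6), (0, 5, 9, 9),
     (0, 5, 10, 12), (0, 6, 6, 2), (0, 7, 11, 5), (1, 1, 12, 12), (1, 1, 13, 12), (1, 1, 15, 1),
     (1, 6, 2, 12), (1, 6, 3, 1), (1, 6, 16, 12), (1, 7, 0, 10), (1, 7, 1, 12), (2, 0, 3, 11),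
     (2, 0, 4, 12), (2, 0, 11, 4), (2, 1, 0, 2), (2, 2, 7, 12), (2, 2, 8, 12), (2, 2, 9, 3),
     (2, 3, 5, 12), (2, 4, 6, 4)]),
   (3, 8, 19,
    [(0, 3, 11, 16), (0, 3, 17, 2), (0, 3, 18, 24), (0, 4, 12, 24), (0, 4, 16, 9), (0, 5, 7, 4),
     (0, 5, 10, 15), (0, 5, 15, 23), (0, 5, 16, 15), (0, 7, 7, 20), (1, 0, 15, 1), (1, 1, 5, 9),
     (1, 1, 13, 24), (1, 1, 14, 24), (1, 6, 1, 11), (1, 6, 2, 24), (1, 6, 17, 22), (1, 7, 0, 24),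
     (1, 7, 1, 13), (2, 0, 3, 24), (2, 0, 4, 24), (2, 0, 11, 8), (2, 2, 8, 24), (2, 2, 9, 24),
     (2, 2, 10, 9), (2, 3, 5, 15), (2, 4, 6, 24)]),
   (3, 8, 20,
    [(0, 3, 12, 4), (0, 3, 19, 6), (0, 4, 13, 6), (0, 4, 17, 3), (0, 5, 10, 3), (0, 5, 11, 6),
     (0, 5, 15, 3), (0, 5, 17, 3), (0, 7, 7, 6), (1, 0, 16, 1), (1, 1, 5, 1), (1, 1, 14, 6),
     (1, 1, 15, 3), (1, 1, 16, 5), (1, 6, 1, 3), (1, 6, 2, 6), (1, 6, 18, 6), (1, 7, 0, 6),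
     (1, 7, 1, 3), (2, 0, 3, 6), (2, 0, 4, 6), (2, 0, 12, 2), (2, 2, 8, 6), (2, 2, 9, 6),
     (2, 2, 10, 3), (2, 3, 5, 5), (2, 4, 6, 6)]),
   (3, 8, 21,
    [(0, 3, 13, 24), (0, 3, 20, 11), (0, 4, 14, 24), (0, 4, 15, 24), (0, 4, 19, 15),
     (0, 5, 7, 11), (0, 5, 16, 24), (0, 5, 17, 19), (0, 5, 19, 9), (0, 6, 7, 7), (1, 0, 5, 20),
     (1, 0, 17, 5), (1, 0, 18, 24), (1, 6, 2, 9), (1, 6, 3, 24), (1, 6, 4, 10), (1, 6, 20, 13),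
     (1, 7, 0, 24), (1, 7, 1, 24), (1, 7, 2, 15), (2, 0, 4, 14), (2, 1, 7, 6), (2, 1, 10, 9),
     (2, 1, 11, 24), (2, 1, 12, 24), (2, 2, 8, 24), (2, 2, 9, 24), (2, 2, 10, 15), (2, 3, 5, 4),
     (2, 3, 6, 24)]),
   (3, 8, 22,
    [(0, 3, 20, 10), (0, 3, 21, 12), (0, 4, 14, 12), (0, 4, 19, 9), (0, 5, 8, 3), (0, 5, 11, 3),
     (0, 5, 12, 12), (0, 5, 17, 12), (0, 5, 19, 3), (0, 6, 15, 3), (0, 7, 8, 9), (1, 0, 5, 1),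
     (1, 1, 6, 12), (1, 1, 15, 9), (1, 1, 16, 12), (1, 6, 1, 12), (1, 6, 2, 12), (1, 6, 3, 4),
     (1, 6, 20, 2), (1, 7, 0, 12), (1, 7, 18, 12), (2, 0, 3, 8), (2, 0, 4, 12), (2, 0, 13, 12),
     (2, 2, 9, 12), (2, 2, 10, 12), (2, 2, 11, 9), (2, 3, 5, 11), (2, 4, 7, 12)]),
   (3, 8, 23,
    [(0, 3, 14, 93), (0, 3, 21, 7), (0, 3, 22, 144), (0, 4, 15, 144), (0, 4, 20, 97),
     (0, 5, 12, 144), (0, 5, 13, 144), (0, 5, 18, 79), (0, 5, 20, 47), (0, 7, 8, 136),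
     (0, 7, 19, 69), (1, 0, 19, 75), (1, 1, 6, 118), (1, 1, 16, 144), (1, 1, 17, 144),
     (1, 6, 1, 133), (1, 6, 2, 144), (1, 6, 21, 137), (1, 7, 0, 144), (1, 7, 18, 65),
     (2, 0, 3, 144), (2, 0, 4, 144), (2, 0, 14, 51), (2, 1, 8, 8), (2, 2, 1, 11), (2, 2, 9, 115),
     (2, 2, 10, 144), (2, 2, 11, 144), (2, 3, 5, 144), (2, 3, 6, 26), (2, 4, 7, 144),
     (2, 4, 9, 29)]),
   (3, 9, 9,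
    [(0, 4, 5, 1), (0, 5, 4, 1), (0, 8, 7, 1), (1, 1, 6, 1), (1, 6, 8, 1), (1, 7, 0, 1),
     (2, 0, 1, 1), (2, 2, 3, 1), (2, 3, 2, 1)]),
   (3, 9, 10,
    [(0, 3, 5, 7), (0, 3, 9, 4), (0, 4, 6, 27), (0, 4, 9, 3), (0, 5, 8, 10), (0, 5, 9, 20),
     (0, 7, 4, 16), (0, 8, 4, 3), (1, 1, 8, 17), (1, 2, 1, 2), (1, 6, 1, 6), (1, 6, 2, 24),
     (1, 7, 0, 14), (1, 8, 7, 27), (2, 0, 2, 3), (2, 0, 3, 27), (2, 1, 0, 13), (2, 2, 4, 8),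
     (2, 2, 5, 20), (2, 3, 1, 19)]),
   (3, 9, 11,
    [(0, 3, 7, 10), (0, 4, 7, 4), (0, 5, 10, 15), (0, 6, 5, 2), (0, 6, 9, 2), (0, 7, 6, 7),
     (0, 7, 7, 4), (0, 8, 4, 18), (0, 8, 5, 4), (1, 1, 9, 12), (1, 1, 10, 3), (1, 2, 8, 18),
     (1, 2, 9, 4), (1, 6, 2, 18), (1, 7, 0, 11), (2, 0, 3, 11), (2, 0, 6, 11), (2, 1, 0, 7),
     (2, 3, 5, 12), (2, 4, 1, 18), (2, 5, 3, 7)]),
   (3, 9, 12,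
    [(0, 3, 11, 2), (0, 4, 10, 1), (0, 5, 5, 2), (0, 5, 10, 2), (0, 6, 5, 1), (0, 7, 4, 2),
     (0, 7, 8, 1), (0, 8, 4, 1), (1, 1, 3, 1), (1, 2, 0, 1), (1, 2, 1, 1), (1, 2, 8, 2),
     (1, 6, 0, 2), (1, 6, 3, 1), (1, 7, 11, 1), (1, 8, 9, 3), (2, 0, 3, 1), (2, 0, 6, 3),
     (2, 1, 7, 3), (2, 3, 1, 2), (2, 4, 2, 3)]),
   (3, 9, 13,
    [(0, 3, 8, 10), (0, 3, 12, 3), (0, 4, 8, 8), (0, 5, 9, 8), (0, 7, 5, 18), (0, 7, 6, 5),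
     (0, 8, 7, 8), (0, 8, 10, 18), (1, 0, 12, 15), (1, 1, 3, 6), (1, 1, 11, 2), (1, 2, 9, 10),
     (1, 2, 11, 16), (1, 6, 0, 15), (1, 6, 3, 11), (1, 7, 0, 3), (2, 0, 3, 1), (2, 0, 7, 10),
     (2, 1, 4, 18), (2, 3, 6, 13), (2, 4, 1, 18), (2, 5, 2, 18)]),
   (3, 9, 14,
    [(0, 3, 9, 1), (0, 4, 9, 10), (0, 5, 12, 10), (0, 5, 13, 18), (0, 6, 12, 4), (0, 7, 6, 6),
     (0, 7, 9, 7), (0, 8, 5, 16), (0, 8, 6, 12), (1, 0, 3, 18), (1, 2, 1, 9), (1, 2, 10, 18),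
     (1, 6, 0, 2), (1, 6, 11, 18), (1, 6, 12, 4), (1, 7, 0, 15), (2, 0, 5, 2), (2, 0, 7, 8),
     (2, 1, 7, 10), (2, 1, 8, 18), (2, 2, 0, 1), (2, 3, 1, 9), (2, 3, 2, 18), (2, 4, 4, 18)]),
   (3, 9, 15,
    [(0, 3, 8, 5), (0, 3, 14, 5), (0, 5, 7, 4), (0, 5, 11, 2), (0, 7, 6, 2), (0, 7, 7, 2),
     (0, 8, 5, 6), (0, 8, 6, 4), (1, 0, 14, 1), (1, 1, 11, 4), (1, 2, 10, 6), (1, 2, 13, 3),
     (1, 6, 4, 1), (1, 6, 12, 6), (1, 6, 13, 3), (1, 7, 0, 6), (2, 0, 3, 4), (2, 0, 4, 5),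
     (2, 1, 9, 6), (2, 2, 8, 1), (2, 4, 1, 2), (2, 4, 2, 6), (2, 4, 3, 2), (2, 5, 1, 4)]),
   (3, 9, 16,
    [(0, 5, 7, 5), (0, 5, 12, 16), (0, 5, 14, 27), (0, 6, 7, 1), (0, 7, 6, 27), (0, 7, 7, 21),
     (0, 8, 9, 20), (0, 8, 10, 27), (1, 0, 3, 11), (1, 0, 15, 27), (1, 1, 4, 17), (1, 2, 11, 27),
     (1, 2, 12, 11), (1, 2, 13, 3), (1, 6, 0, 23), (1, 6, 13, 24), (1, 8, 3, 1), (2, 0, 4, 10),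
     (2, 1, 0, 4), (2, 1, 8, 27), (2, 2, 9, 7), (2, 3, 1, 6), (2, 3, 2, 27), (2, 3, 3, 15),
     (2, 4, 1, 21), (2, 4, 5, 27)]),
   (3, 9, 17,
    [(0, 3, 9, 5), (0, 3, 10, 2), (0, 3, 15, 2), (0, 4, 10, 16), (0, 4, 11, 18), (0, 5, 8, 15),
     (0, 5, 14, 15), (0, 6, 15, 16), (0, 8, 9, 13), (1, 0, 3, 11), (1, 0, 13, 2), (1, 1, 13, 16),
     (1, 6, 1, 18), (1, 7, 0, 16), (1, 7, 16, 18), (1, 8, 12, 18), (1, 8, 14, 3), (2, 0, 2, 18),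
     (2, 0, 8, 3), (2, 1, 5, 18), (2, 2, 6, 16), (2, 2, 7, 18), (2, 3, 3, 7), (2, 3, 4, 18),
     (2, 5, 0, 2), (2, 5, 6, 2)]),
   (3, 10, 10,
    [(0, 4, 8, 1), (0, 4, 9, 1), (0, 5, 6, 3), (0, 6, 5, 1), (0, 6, 7, 2), (0, 7, 5, 1),
     (0, 8, 5, 1), (1, 0, 7, 1), (1, 0, 8, 2), (1, 7, 9, 2), (1, 8, 1, 2), (1, 9, 0, 3),
     (2, 1, 4, 3), (2, 2, 3, 3), (2, 3, 2, 3), (2, 4, 1, 1)]),
   (3, 10, 11,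
    [(0, 4, 6, 2), (0, 4, 7, 7), (0, 5, 7, 23), (0, 6, 4, 30), (0, 6, 10, 3), (0, 8, 6, 15),
     (0, 9, 5, 30), (1, 0, 2, 20), (1, 1, 10, 3), (1, 2, 8, 30), (1, 2, 10, 3), (1, 7, 9, 30),
     (1, 7, 10, 3), (1, 8, 10, 18), (1, 9, 1, 3), (2, 0, 6, 13), (2, 1, 3, 30), (2, 3, 0, 30),
     (2, 3, 1, 3), (2, 4, 1, 24), (2, 5, 2, 10)]),
   (3, 10, 12,
    [(0, 4, 7, 7), (0, 4, 10, 12), (0, 5, 10, 5), (0, 5, 11, 25), (0, 6, 5, 5), (0, 6, 6, 25),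
     (0, 7, 5, 12), (0, 8, 7, 7), (0, 9, 9, 2), (1, 0, 10, 8), (1, 2, 9, 23), (1, 7, 1, 18),
     (1, 8, 0, 23), (1, 9, 3, 3), (1, 9, 8, 25), (2, 0, 3, 22), (2, 1, 0, 2), (2, 1, 4, 25),
     (2, 1, 5, 3), (2, 2, 1, 7), (2, 3, 2, 25), (2, 3, 5, 5), (2, 4, 7, 11)]),
   (3, 10, 13,
    [(0, 4, 12, 9), (0, 5, 12, 9), (0, 6, 6, 17), (0, 6, 10, 22), (0, 8, 6, 4), (0, 8, 8, 30),
     (0, 9, 5, 30), (0, 9, 6, 9), (1, 0, 10, 8), (1, 1, 3, 6), (1, 1, 11, 21), (1, 1, 12, 12),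
     (1, 2, 9, 30), (1, 2, 11, 9), (1, 7, 1, 16), (1, 7, 3, 23), (1, 8, 1, 5), (2, 0, 3, 1),
     (2, 0, 7, 30), (2, 3, 0, 30), (2, 3, 1, 9), (2, 4, 4, 30), (2, 5, 2, 30)]),
   (3, 10, 14,
    [(0, 4, 8, 30), (0, 4, 13, 12), (0, 5, 9, 30), (0, 5, 13, 12), (0, 6, 7, 7), (0, 6, 12, 29),
     (0, 6, 13, 6), (0, 7, 7, 5), (0, 9, 5, 3), (0, 9, 6, 6), (1, 0, 12, 1), (1, 2, 11, 27),
     (1, 7, 1, 18), (1, 7, 2, 19), (1, 8, 1, 12), (1, 8, 10, 30), (1, 9, 0, 30), (1, 9, 11, 3),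
     (2, 0, 2, 11), (2, 0, 3, 30), (2, 1, 4, 30), (2, 1, 5, 12), (2, 2, 5, 15), (2, 3, 6, 24),
     (2, 3, 7, 18)]),
   (3, 11, 11,
    [(0, 4, 10, 2), (0, 5, 6, 2), (0, 5, 9, 1), (0, 6, 7, 3), (0, 7, 5, 2), (0, 7, 6, 1),
     (1, 0, 9, 2), (1, 8, 1, 2), (1, 8, 10, 1), (1, 9, 8, 3), (1, 10, 0, 3), (2, 0, 1, 1),
     (2, 1, 4, 2), (2, 1, 5, 1), (2, 2, 3, 3), (2, 3, 2, 2), (2, 3, 4, 1), (2, 4, 2, 1)]),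
   (3, 11, 12,
    [(0, 4, 10, 3), (0, 4, 11, 33), (0, 5, 10, 25), (0, 6, 8, 4), (0, 7, 5, 24), (0, 7, 9, 12),
     (0, 8, 4, 16), (0, 8, 5, 9), (0, 9, 4, 3), (0, 10, 4, 3), (1, 0, 8, 14), (1, 1, 10, 5),
     (1, 2, 8, 15), (1, 2, 9, 21), (1, 8, 3, 11), (1, 9, 1, 33), (1, 10, 0, 33), (2, 0, 3, 22),
     (2, 1, 7, 31), (2, 3, 2, 1), (2, 3, 6, 33), (2, 3, 7, 2), (2, 5, 4, 11), (2, 6, 2, 32)]),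
   (3, 11, 13,
    [(0, 4, 7, 93), (0, 5, 8, 18), (0, 6, 12, 99), (0, 7, 5, 18), (0, 7, 6, 99), (0, 8, 8, 58),
     (0, 9, 8, 23), (0, 10, 5, 21), (1, 0, 11, 40), (1, 1, 3, 28), (1, 2, 0, 10), (1, 2, 9, 3),
     (1, 2, 10, 99), (1, 8, 11, 59), (1, 9, 1, 94), (1, 10, 9, 96), (2, 0, 3, 71), (2, 0, 7, 6),
     (2, 1, 0, 89), (2, 2, 1, 5), (2, 3, 2, 57), (2, 3, 5, 60), (2, 4, 2, 24), (2, 5, 4, 99),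
     (2, 6, 2, 18)]),
   (4, 4, 4,
    [(0, 3, 2, 1), (1, 2, 3, 1), (2, 1, 0, 1), (3, 0, 1, 1)]),
   (4, 4, 5,
    [(0, 1, 3, 2), (0, 1, 4, 2), (0, 3, 2, 1), (1, 0, 3, 2), (1, 2, 0, 1), (1, 2, 4, 2),
     (2, 1, 0, 1), (2, 3, 1, 4), (3, 0, 2, 3), (3, 2, 0, 2)]),
   (4, 4, 6,
    [(0, 2, 2, 2), (0, 2, 5, 1), (1, 0, 4, 2), (1, 3, 3, 1), (2, 1, 5, 1), (2, 3, 1, 2),
     (3, 0, 3, 1), (3, 1, 0, 2)]),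
   (4, 4, 7,
    [(0, 2, 2, 6), (0, 3, 3, 8), (1, 0, 5, 8), (1, 0, 6, 1), (1, 3, 4, 5), (2, 0, 2, 2),
     (2, 1, 0, 4), (2, 1, 6, 7), (2, 3, 0, 1), (3, 0, 4, 3), (3, 1, 0, 3), (3, 2, 1, 8)]),
   (4, 5, 5,
    [(0, 2, 3, 6), (0, 2, 4, 1), (0, 3, 2, 2), (0, 4, 3, 6), (1, 3, 4, 10), (1, 4, 0, 5),
     (2, 0, 1, 11), (2, 0, 4, 1), (2, 1, 0, 2), (2, 4, 1, 1), (3, 1, 2, 10), (3, 2, 0, 5)]),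
   (4, 5, 6,
    [(0, 2, 4, 10), (0, 2, 5, 2), (0, 3, 5, 1), (0, 4, 2, 2), (1, 0, 5, 4), (1, 3, 0, 8),
     (1, 3, 5, 3), (2, 0, 2, 3), (2, 1, 0, 2), (2, 4, 1, 10), (3, 0, 2, 5), (3, 1, 3, 10)]),
   (4, 5, 7,
    [(0, 2, 5, 13), (0, 3, 6, 2), (0, 4, 3, 20), (1, 0, 5, 7), (1, 3, 0, 9), (1, 3, 6, 17),
     (1, 4, 0, 2), (2, 0, 2, 20), (2, 0, 6, 1), (2, 1, 0, 8), (2, 4, 0, 1), (2, 4, 1, 5),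
     (3, 1, 4, 20), (3, 2, 1, 15)]),
   (4, 5, 8,
    [(0, 2, 5, 5), (0, 2, 6, 3), (0, 4, 3, 2), (1, 3, 1, 3), (1, 3, 7, 5), (1, 4, 1, 2),
     (2, 0, 3, 3), (2, 1, 0, 1), (2, 1, 6, 2), (2, 4, 0, 4), (3, 0, 2, 5), (3, 1, 4, 5)]),
   (4, 5, 9,
    [(0, 2, 6, 7), (0, 2, 7, 8), (0, 2, 8, 8), (0, 3, 3, 40), (0, 4, 5, 27), (1, 0, 7, 13),
     (1, 3, 8, 32), (1, 4, 5, 12), (1, 4, 6, 33), (2, 0, 2, 40), (2, 0, 7, 19), (2, 1, 0, 31),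
     (3, 1, 4, 40), (3, 1, 5, 1), (3, 2, 0, 9), (3, 2, 1, 40)])]

lemma T3_ok : allOk T3 = true := by decide +kernel

def T4 : List Entry :=
  [(4, 5, 10,
    [(0, 2, 7, 8), (0, 2, 9, 5), (0, 4, 4, 7), (1, 0, 6, 1), (1, 3, 0, 2), (1, 3, 1, 8),
     (1, 3, 8, 3), (1, 3, 9, 3), (1, 4, 0, 3), (2, 0, 2, 8), (2, 0, 8, 5), (2, 1, 4, 1),
     (2, 4, 3, 6), (3, 0, 3, 2), (3, 1, 5, 8), (3, 1, 6, 7), (3, 2, 0, 3)]),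
   (4, 5, 11,
    [(0, 2, 7, 7), (0, 2, 8, 40), (0, 2, 10, 1), (0, 3, 10, 21), (0, 4, 4, 1), (0, 4, 5, 40),
     (1, 0, 6, 3), (1, 3, 1, 33), (1, 3, 9, 34), (1, 4, 0, 40), (2, 0, 3, 40), (2, 0, 4, 39),
     (2, 0, 9, 6), (2, 1, 10, 18), (2, 4, 1, 7), (3, 1, 6, 37), (3, 1, 7, 33), (3, 2, 2, 40)]),
   (4, 5, 12,
    [(0, 2, 8, 5), (0, 2, 9, 5), (0, 2, 11, 2), (0, 4, 5, 3), (1, 3, 2, 4), (1, 3, 10, 5),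
     (1, 3, 11, 3), (1, 4, 1, 2), (1, 4, 2, 1), (2, 0, 4, 5), (2, 0, 5, 2), (2, 1, 1, 2),
     (2, 4, 0, 5), (2, 4, 1, 1), (3, 0, 3, 5), (3, 1, 6, 5), (3, 1, 7, 5)]),
   (4, 5, 13,
    [(0, 2, 9, 40), (0, 2, 10, 40), (0, 2, 12, 9), (0, 4, 5, 1), (0, 4, 6, 40), (1, 3, 2, 33),
     (1, 3, 11, 40), (1, 3, 12, 31), (1, 4, 1, 19), (1, 4, 2, 7), (2, 0, 4, 30), (2, 0, 5, 39),
     (2, 1, 0, 3), (2, 1, 1, 21), (2, 4, 0, 37), (3, 0, 3, 25), (3, 0, 4, 10), (3, 1, 7, 40),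
     (3, 1, 8, 40), (3, 2, 3, 15)]),
   (4, 5, 14,
    [(0, 2, 9, 12), (0, 2, 10, 32), (0, 3, 7, 53), (0, 4, 5, 53), (0, 4, 6, 60), (1, 0, 7, 7),
     (1, 0, 8, 60), (1, 3, 2, 55), (1, 3, 12, 60), (1, 4, 10, 28), (2, 0, 3, 56), (2, 0, 5, 7),
     (2, 1, 11, 60), (2, 1, 13, 60), (2, 4, 2, 5), (2, 4, 4, 22), (3, 0, 4, 38), (3, 1, 9, 48),
     (3, 2, 0, 60), (3, 2, 1, 60), (3, 2, 3, 4)]),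
   (4, 5, 15,
    [(0, 2, 5, 3), (0, 2, 9, 5), (0, 2, 10, 12), (0, 2, 11, 12), (0, 3, 13, 5), (0, 4, 6, 8),
     (1, 0, 9, 7), (1, 3, 1, 8), (1, 3, 2, 12), (1, 3, 12, 11), (1, 4, 0, 7), (2, 0, 6, 4),
     (2, 0, 12, 1), (2, 1, 13, 7), (2, 1, 14, 12), (2, 4, 4, 12), (2, 4, 5, 9), (3, 0, 3, 12),
     (3, 0, 7, 12), (3, 1, 0, 5), (3, 1, 8, 12), (3, 2, 1, 4)]),
   (4, 5, 16,
    [(0, 2, 11, 5), (0, 2, 12, 5), (0, 2, 14, 1), (0, 2, 15, 5), (0, 4, 7, 4), (1, 3, 2, 2),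
     (1, 3, 3, 5), (1, 3, 13, 5), (1, 3, 14, 4), (1, 4, 1, 1), (1, 4, 2, 3), (2, 0, 5, 5),
     (2, 0, 6, 5), (2, 0, 7, 1), (2, 1, 1, 1), (2, 4, 0, 5), (2, 4, 1, 3), (3, 0, 4, 5),
     (3, 1, 8, 5), (3, 1, 9, 5), (3, 1, 10, 5)]),
   (4, 5, 17,
    [(0, 2, 12, 40), (0, 2, 13, 40), (0, 2, 15, 1), (0, 2, 16, 40), (0, 4, 7, 9), (0, 4, 8, 40),
     (1, 3, 2, 17), (1, 3, 3, 40), (1, 3, 14, 40), (1, 3, 15, 39), (1, 4, 1, 11), (1, 4, 2, 23),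
     (2, 0, 5, 30), (2, 0, 6, 40), (2, 0, 7, 31), (2, 1, 1, 16), (2, 4, 0, 40), (2, 4, 1, 13),
     (3, 0, 4, 25), (3, 0, 5, 10), (3, 1, 9, 40), (3, 1, 10, 40), (3, 1, 11, 40), (3, 2, 4, 15)]),
   (4, 5, 18,
    [(0, 2, 12, 3), (0, 2, 13, 20), (0, 2, 17, 20), (0, 3, 9, 11), (0, 4, 7, 16), (0, 4, 8, 20),
     (1, 0, 9, 9), (1, 0, 10, 20), (1, 3, 1, 11), (1, 3, 2, 20), (1, 3, 3, 20), (1, 3, 15, 10),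
     (2, 0, 7, 4), (2, 0, 14, 5), (2, 0, 15, 10), (2, 1, 14, 15), (2, 1, 16, 20), (2, 4, 5, 16),
     (2, 4, 6, 20), (3, 0, 4, 20), (3, 0, 5, 4), (3, 1, 11, 20), (3, 1, 12, 17), (3, 2, 0, 20),
     (3, 2, 1, 9)]),
   (4, 5, 19,
    [(0, 2, 14, 63), (0, 2, 17, 20), (0, 2, 18, 100), (0, 3, 10, 71), (0, 4, 7, 21),
     (0, 4, 8, 100), (0, 4, 9, 100), (1, 0, 10, 29), (1, 0, 11, 100), (1, 3, 1, 9),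
     (1, 3, 2, 100), (1, 3, 3, 100), (1, 3, 16, 100), (1, 4, 14, 37), (2, 0, 4, 94),
     (2, 0, 7, 79), (2, 1, 15, 100), (2, 1, 17, 80), (2, 4, 5, 22), (2, 4, 6, 100),
     (3, 0, 5, 78), (3, 1, 12, 100), (3, 1, 13, 100), (3, 2, 0, 100), (3, 2, 1, 91),
     (3, 2, 4, 6)]),
   (4, 6, 6,
    [(0, 3, 5, 1), (0, 4, 2, 1), (0, 5, 2, 1), (0, 5, 3, 2), (0, 5, 4, 1), (1, 3, 4, 3),
     (1, 4, 5, 3), (2, 0, 1, 2), (2, 1, 2, 2), (2, 2, 0, 2), (3, 0, 3, 2), (3, 1, 0, 2),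
     (3, 2, 1, 2)]),
   (4, 6, 7,
    [(0, 2, 6, 2), (0, 4, 3, 24), (0, 5, 2, 16), (1, 0, 6, 3), (1, 3, 5, 24), (1, 3, 6, 4),
     (1, 4, 6, 4), (1, 5, 4, 7), (2, 1, 6, 11), (2, 2, 0, 2), (2, 2, 1, 24), (2, 5, 0, 5),
     (3, 0, 2, 8), (3, 0, 4, 17), (3, 1, 0, 17)]),
   (4, 6, 8,
    [(0, 3, 6, 1), (0, 4, 2, 27), (0, 4, 7, 6), (0, 5, 3, 2), (0, 5, 4, 18), (1, 0, 5, 4),
     (1, 0, 6, 26), (1, 3, 7, 21), (1, 4, 4, 3), (2, 1, 3, 25), (2, 2, 1, 13), (2, 5, 0, 16),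
     (3, 0, 4, 6), (3, 1, 0, 11), (3, 2, 5, 23), (3, 3, 1, 14)]),
   (4, 6, 9,
    [(0, 2, 7, 1), (0, 3, 7, 2), (0, 4, 8, 10), (0, 5, 3, 7), (0, 5, 4, 16), (1, 3, 6, 16),
     (1, 3, 8, 6), (1, 4, 0, 9), (1, 4, 5, 5), (2, 1, 7, 13), (2, 2, 0, 6), (2, 2, 1, 16),
     (2, 5, 0, 1), (3, 0, 2, 15), (3, 0, 3, 9), (3, 1, 5, 11), (3, 2, 2, 1)]),
   (4, 6, 10,
    [(0, 2, 8, 7), (0, 3, 7, 1), (0, 4, 9, 12), (0, 5, 3, 7), (0, 5, 7, 3), (1, 0, 5, 3),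
     (1, 3, 0, 11), (1, 3, 7, 8), (1, 4, 5, 8), (2, 1, 4, 2), (2, 1, 8, 5), (2, 2, 0, 1),
     (2, 2, 1, 12), (2, 5, 4, 10), (3, 0, 2, 12), (3, 0, 3, 5), (3, 1, 5, 1), (3, 1, 6, 12)]),
   (4, 6, 11,
    [(0, 3, 9, 9), (0, 4, 4, 10), (0, 4, 5, 48), (0, 4, 10, 17), (0, 5, 3, 48), (1, 0, 6, 1),
     (1, 0, 9, 39), (1, 3, 8, 48), (1, 3, 10, 31), (1, 4, 6, 13), (2, 1, 4, 38), (2, 2, 0, 6),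
     (2, 2, 1, 48), (2, 5, 0, 40), (3, 0, 2, 48), (3, 1, 0, 2), (3, 1, 7, 48), (3, 2, 6, 34)]),
   (4, 7, 7,
    [(0, 2, 3, 6), (0, 4, 2, 3), (0, 6, 5, 5), (1, 4, 5, 3), (1, 5, 6, 8), (1, 6, 0, 3),
     (2, 0, 1, 4), (2, 1, 0, 3), (2, 1, 2, 5), (2, 2, 0, 2), (3, 0, 1, 4), (3, 3, 4, 8),
     (3, 4, 3, 2)]),
   (4, 7, 8,
    [(0, 3, 7, 26), (0, 4, 2, 20), (0, 4, 3, 4), (0, 4, 6, 11), (0, 5, 2, 43), (0, 6, 4, 22),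
     (1, 0, 5, 8), (1, 0, 6, 52), (1, 4, 7, 37), (1, 5, 4, 29), (2, 1, 3, 59), (2, 2, 1, 17),
     (2, 6, 0, 50), (3, 0, 4, 12), (3, 1, 0, 13), (3, 2, 5, 55), (3, 3, 1, 46)]),
   (4, 7, 9,
    [(0, 2, 8, 21), (0, 3, 6, 8), (0, 3, 8, 7), (0, 4, 3, 8), (0, 5, 3, 8), (0, 6, 3, 11),
     (1, 4, 7, 15), (1, 5, 5, 28), (1, 6, 6, 20), (2, 0, 2, 7), (2, 1, 0, 23), (2, 1, 7, 13),
     (2, 2, 1, 15), (2, 6, 0, 5), (3, 0, 3, 1), (3, 0, 4, 28), (3, 3, 2, 21), (3, 4, 1, 13)]),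
   (5, 5, 5,
    [(0, 1, 4, 2), (0, 3, 2, 1), (0, 4, 1, 1), (1, 2, 3, 2), (1, 4, 2, 2), (2, 0, 3, 1),
     (2, 3, 0, 3), (3, 1, 2, 1), (3, 2, 4, 2), (3, 4, 0, 1), (4, 0, 1, 3), (4, 1, 3, 1)]),
   (5, 5, 6,
    [(0, 1, 4, 3), (0, 1, 5, 4), (0, 4, 3, 5), (1, 2, 4, 7), (1, 4, 0, 5), (2, 3, 1, 8),
     (2, 3, 5, 4), (3, 0, 2, 3), (3, 0, 5, 2), (3, 2, 0, 5), (3, 4, 1, 2), (4, 0, 2, 7),
     (4, 1, 3, 5)]),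
   (5, 5, 7,
    [(0, 1, 4, 24), (0, 3, 3, 28), (0, 4, 2, 25), (1, 0, 6, 19), (1, 2, 5, 27), (1, 4, 4, 31),
     (2, 0, 5, 28), (2, 3, 1, 13), (2, 3, 6, 36), (3, 1, 3, 27), (3, 2, 0, 29), (3, 4, 1, 21),
     (4, 0, 2, 30), (4, 1, 0, 26), (4, 2, 1, 21)]),
   (5, 5, 8,
    [(0, 1, 4, 3), (0, 3, 7, 2), (0, 4, 3, 1), (0, 4, 4, 2), (1, 2, 5, 3), (1, 2, 6, 5),
     (2, 1, 5, 2), (2, 3, 1, 5), (2, 3, 2, 1), (3, 1, 7, 3), (3, 4, 0, 5), (4, 0, 2, 4),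
     (4, 0, 3, 4)]),
   (5, 5, 9,
    [(0, 1, 7, 21), (0, 2, 8, 15), (0, 3, 3, 34), (0, 4, 3, 11), (1, 2, 0, 17), (1, 3, 8, 19),
     (1, 4, 5, 45), (2, 0, 7, 24), (2, 1, 6, 29), (2, 3, 0, 28), (3, 1, 8, 11), (3, 2, 1, 45),
     (3, 4, 4, 25), (4, 0, 2, 41), (4, 0, 6, 16), (4, 1, 4, 20), (4, 2, 2, 4)]),
   (5, 6, 6,
    [(0, 2, 5, 1), (0, 3, 2, 7), (0, 4, 5, 1), (0, 5, 2, 3), (1, 3, 0, 3), (1, 4, 3, 8),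
     (1, 4, 5, 1), (2, 1, 4, 3), (2, 1, 5, 2), (2, 5, 4, 7), (3, 1, 5, 5), (3, 2, 0, 7),
     (4, 0, 1, 10), (4, 2, 3, 2)]),
   (5, 6, 7,
    [(0, 3, 2, 28), (0, 3, 6, 48), (0, 4, 2, 92), (1, 0, 6, 17), (1, 3, 0, 34), (1, 5, 4, 117),
     (2, 0, 5, 120), (2, 4, 0, 48), (3, 1, 6, 5), (3, 2, 1, 90), (3, 2, 6, 50), (3, 5, 0, 23),
     (4, 0, 4, 3), (4, 1, 0, 15), (4, 1, 3, 120), (4, 3, 1, 30)])]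

lemma T4_ok : allOk T4 = true := by decide +kernel

/-- some table has an entry for `(u, v, w)` -/
def hasAny (u v w : ℕ) : Bool :=
  has T0 u v w || has T1 u v w || has T2 u v w || has T3 u v w || has T4 u v w

lemma cpl_of_hasAny {u v w : ℕ} (h : hasAny u v w = true) : Nonempty (Cpl u v w) := by
  unfold hasAny at h
  simp only [Bool.or_eq_true] at h

  rcases h with (((h | h) | h) | h) | h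
  · exact cpl_of_has T0_ok h
  · exact cpl_of_has T1_ok h
  · exact cpl_of_has T2_ok h
  · exact cpl_of_has T3_ok h
  · exact cpl_of_has T4_ok h

end Pool.Agent.K6.H13.TIG
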