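import Mathlib
import Pool.Agent.K6.H13.TIG.Basic
import Pool.Agent.K6.H13.TIG.Rotation
import Pool.Agent.K6.H13.TIG.Coupling
import Pool.Agent.K6.H13.TIG.Tables

/-!
# The generic value
-/

set_option autoImplicit false
set_option maxRecDepth 100000
set_option synthInstance.maxSize 10000

namespace Pool.Agent.K6.H13.TIG

lemma fam34 (w : ℕ) (h12 : 12 ≤ w) (h13 : w ≠ 13) (h17 : w ≠ 17) : Nonempty (Cpl 3 4 w) := by
  induction w using Nat.strong_induction_on with
  | _ w ih =>
    by_cases hs : w < 24 ∨ w = 25 ∨ w = 29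
    · have base : ∀ w < 30, 12 ≤ w → w ≠ 13 → w ≠ 17 → (w < 24 ∨ w = 25 ∨ w = 29) →
          hasAny 3 4 w = true := by decide +kernel
      exact cpl_of_hasAny (base w (by omega) h12 h13 h17 hs)
    · obtain ⟨C⟩ := ih (w - 12) (by omega) (by omega) (by omega) (by omega)
      obtain ⟨E⟩ := cpl_of_hasAny (u := 3) (v := 4) (w := 12) (by decide +kernel)
      have h := Cpl.lift (w := w - 12) (D := 12) (by norm_num) (by norm_num) (by norm_num)
        (by norm_num) (by norm_num) (by omega) C E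
      rwa [Nat.sub_add_cancel (by omega)] at h

lemma fam35 (w : ℕ) (h15 : 15 ≤ w) : Nonempty (Cpl 3 5 w) := by
  induction w using Nat.strong_induction_on with
  | _ w ih =>
    by_cases hs : w < 30
    · have base : ∀ w < 30, 15 ≤ w → hasAny 3 5 w = true := by decide +kernel
      exact cpl_of_hasAny (base w (by omega) h15)
    · obtain ⟨C⟩ := ih (w - 15) (by omega) (by omega)
      obtain ⟨E⟩ := cpl_of_hasAny (u := 3) (v := 5) (w := 15) (by decide +kernel)
      have h := Cpl.lift (w := w - 15) (D := 15) (by norm_num) (by norm_num) (by norm_num)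
        (by norm_num) (by norm_num) (by omega) C E
      rwa [Nat.sub_add_cancel (by omega)] at h

lemma fam36 (w : ℕ) (h6 : 6 ≤ w) : Nonempty (Cpl 3 6 w) := by
  induction w using Nat.strong_induction_on with
  | _ w ih =>
    by_cases hs : w < 12
    · have base : ∀ w < 12, 6 ≤ w → hasAny 3 6 w = true := by decide +kernel
      exact cpl_of_hasAny (base w (by omega) h6)
    · obtain ⟨C⟩ := ih (w - 6) (by omega) (by omega)
      obtain ⟨E⟩ := cpl_of_hasAny (u := 3) (v := 6) (w := 6) (by decide +kernel)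
      have h := Cpl.lift (w := w - 6) (D := 6) (by norm_num) (by norm_num) (by norm_num)
        (by norm_num) (by norm_num) (by omega) C E
      rwa [Nat.sub_add_cancel (by omega)] at h

lemma fam44 (w : ℕ) (h4 : 4 ≤ w) : Nonempty (Cpl 4 4 w) := by
  induction w using Nat.strong_induction_on with
  | _ w ih =>
    by_cases hs : w < 8
    · have base : ∀ w < 8, 4 ≤ w → hasAny 4 4 w = true := by decide +kernel
      exact cpl_of_hasAny (base w (by omega) h4)
    · obtain ⟨C⟩ := ih (w - 4) (by omega) (by omega)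
      obtain ⟨E⟩ := cpl_of_hasAny (u := 4) (v := 4) (w := 4) (by decide +kernel)
      have h := Cpl.lift (w := w - 4) (D := 4) (by norm_num) (by norm_num) (by norm_num)
        (by norm_num) (by norm_num) (by omega) C E
      rwa [Nat.sub_add_cancel (by omega)] at h

/-- the ten exceptional triples -/
def Exc (u v w : ℕ) : Prop :=
  (u = 3 ∧ v = 4 ∧ (w = 4 ∨ w = 5 ∨ w = 7 ∨ w = 8 ∨ w = 10 ∨ w = 11 ∨ w = 13 ∨ w = 17)) ∨
  (u = 3 ∧ v = 5 ∧ (w = 5 ∨ w = 7))

instance (u v w : ℕ) : Decidable (Exc u v w) := inferInstanceAs (Decidable (_ ∨ _))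

lemma finite_part : ∀ u < 6, ∀ v < 12, ∀ w < 42, (3 ≤ u ∧ u ≤ v ∧ v ≤ w ∧
    u * v * w < 2 * (v * w + u * w + u * v) ∧ ¬ (u = 3 ∧ v = 3) ∧ ¬ Exc u v w ∧
    ¬ (u = 3 ∧ v = 4 ∧ 12 ≤ w) ∧ ¬ (u = 3 ∧ v = 5 ∧ 15 ≤ w) ∧ ¬ (u = 3 ∧ v = 6 ∧ 6 ≤ w) ∧
    ¬ (u = 4 ∧ v = 4)) → hasAny u v w = true := by
  decide +kernel

/-- **The generic value.** -/
theorem G3_generic (u v w : ℕ) (hu : 3 ≤ u) (huv : u ≤ v) (hvw : v ≤ w)
    (h33 : ¬ (u = 3 ∧ v = 3)) (hexc : ¬ Exc u v w) :
    G3 u v w = 1 - 1 / (u : ℝ) - 1 / v - 1 / w := by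
  have hu0 : (0 : ℝ) < u := by exact_mod_cast (show 0 < u by omega)
  have hv0 : (0 : ℝ) < v := by exact_mod_cast (show 0 < v by omega)
  have hw0 : (0 : ℝ) < w := by exact_mod_cast (show 0 < w by omega)
  by_cases hsum : u * v * w < 2 * (v * w + u * w + u * v)
  · suffices h : Nonempty (Cpl u v w) by
      obtain ⟨C⟩ := h
      exact C.value (by omega) (by omega) (by omega)
    by_cases c1 : u = 3 ∧ v = 4 ∧ 12 ≤ w
    · obtain ⟨rfl, rfl, h⟩ := c1
      refine fam34 w h ?_ ?_
      · rintro rfl; exact hexc (by decide)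
      · rintro rfl; exact hexc (by decide)
    by_cases c2 : u = 3 ∧ v = 5 ∧ 15 ≤ w
    · obtain ⟨rfl, rfl, h⟩ := c2
      exact fam35 w h
    by_cases c3 : u = 3 ∧ v = 6 ∧ 6 ≤ w
    · obtain ⟨rfl, rfl, h⟩ := c3
      exact fam36 w h
    by_cases c4 : u = 4 ∧ v = 4
    · obtain ⟨rfl, rfl⟩ := c4
      exact fam44 w hvw
    have hu6 : u < 6 := by
      by_contra hcon
      push Not at hcon
      have h1 : 6 * (v * w) ≤ u * (v * w) := Nat.mul_le_mul_right _ hcon
      have h2 : u * w ≤ v * w := Nat.mul_le_mul_right _ huv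
      have h3 : u * v ≤ v * w := by
        calc u * v ≤ w * v := Nat.mul_le_mul_right _ (huv.trans hvw)
          _ = v * w := Nat.mul_comm _ _
      have h4 : u * v * w = u * (v * w) := Nat.mul_assoc _ _ _
      omega
    have hv12 : v < 12 := by
      by_contra hcon
      push Not at hcon
      have h2 : u * v ≤ u * w := Nat.mul_le_mul_left _ hvw
      have h5 : u * v * w < 2 * (v * w) + 4 * (u * w) := by omega
      have h6 : (u - 2) * v * w < 4 * u * w := by
        zify [show 2 ≤ u by omega] at h5 ⊢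
        nlinarith
      have h7 : (u - 2) * v < 4 * u := Nat.lt_of_mul_lt_mul_right h6
      interval_cases u <;> omega
    have hw42 : w < 42 := by
      have key : ∀ u < 6, ∀ v < 12, (3 ≤ u ∧ u ≤ v ∧ ¬ (u = 3 ∧ v = 3) ∧ ¬ (u = 3 ∧ v = 4) ∧
          ¬ (u = 3 ∧ v = 5) ∧ ¬ (u = 3 ∧ v = 6) ∧ ¬ (u = 4 ∧ v = 4)) →
          (2 * v + 2 * u < u * v ∧ 2 * (u * v) ≤ 42 * (u * v - 2 * v - 2 * u)) := by
        decide +kernel
      by_cases d1 : u = 3 ∧ v = 4
      · by_contra hcon
        exact c1 ⟨d1.1, d1.2, by omega⟩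
      by_cases d2 : u = 3 ∧ v = 5
      · by_contra hcon
        exact c2 ⟨d2.1, d2.2, by omega⟩
      by_cases d3 : u = 3 ∧ v = 6
      · exact absurd ⟨d3.1, d3.2, by omega⟩ c3
      obtain ⟨k1, k2⟩ := key u hu6 v hv12 ⟨hu, huv, h33, d1, d2, d3, c4⟩
      by_contra hcon
      push Not at hcon
      have k3 : u * v * w < 2 * (v * w) + 2 * (u * w) + 2 * (u * v) := by omega
      have k4 : (u * v - 2 * v - 2 * u) * w < 2 * (u * v) := by
        zify [show 2 * u ≤ u * v - 2 * v by omega, show 2 * v ≤ u * v by omega] at k3 ⊢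
        nlinarith
      have k5 : 42 * (u * v - 2 * v - 2 * u) ≤ (u * v - 2 * v - 2 * u) * w := by
        rw [Nat.mul_comm 42]
        exact Nat.mul_le_mul_left _ hcon
      omega
    exact cpl_of_hasAny (finite_part u hu6 v hv12 w hw42
      ⟨hu, huv, hvw, hsum, h33, hexc, c1, c2, c3, c4⟩)
  · refine G3_eq_of_le_half u v w (by omega) (by omega) (by omega) ?_
    push Not at hsum
    have h1 : (2 : ℝ) * ((v : ℝ) * w + u * w + u * v) ≤ u * v * w := by exact_mod_cast hsum
    have h2 : 1 / (u : ℝ) + 1 / v + 1 / w = ((v : ℝ) * w + u * w + u * v) / (u * v * w) := by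
      field_simp
    rw [h2, div_le_iff₀ (by positivity)]
    linarith

end Pool.Agent.K6.H13.TIG
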