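import Mathlib
import Pool.Agent.K6.H13.TIG.Basic
import Pool.Agent.K6.H13.TIG.Coupling
import Pool.Agent.K6.H13.TIG.Blue

/-!
# The values `G(3, 3, w)`
-/

set_option autoImplicit false

namespace Pool.Agent.K6.H13.TIG

open MeasureTheory Set

lemma cpl_333 : Nonempty (Cpl 3 3 3) :=
  cpl_of_chk (by norm_num) (by norm_num) (by norm_num) (l := [(0, 1, 2, 1), (1, 2, 0, 1), (2, 0, 1, 1)])
    (by decide +kernel)

lemma cpl_33 (m : ℕ) : Nonempty (Cpl 3 3 (3 * (m + 1))) := by
  induction m with
  | zero => exact cpl_333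
  | succ m ih =>
    obtain ⟨C⟩ := ih
    obtain ⟨E⟩ := cpl_333
    have h := Cpl.lift (w := 3 * (m + 1)) (D := 3) (by norm_num) (by norm_num) dvd_rfl dvd_rfl
      (by norm_num) (by omega) C E
    have e : 3 * (m + 1 + 1) = 3 * (m + 1) + 3 := by ring
    rw [e]
    exact h

/-- the positions of the atoms, in units of `1 / (9 m - 7)` -/
lemma pos_facts (m : ℕ) (hm : 2 ≤ m) (n : ℕ) (hn : n < 3 * m) :
    ∃ t : ℕ, n / m = t ∧ t < 3 ∧ m * t ≤ n ∧ n < m * t + m := by
  have h1 := Nat.div_add_mod n m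
  have h2 := Nat.mod_lt n (show 0 < m by omega)
  refine ⟨n / m, rfl, ?_, by omega, by omega⟩
  rw [Nat.div_lt_iff_lt_mul (by omega)]
  omega

/-- the counting lemma -/
lemma card_bound (m : ℕ) (hm : 2 ≤ m) (A B C : Finset ℕ)
    (hAm : ∀ n ∈ A, n < 3 * m) (hBm : ∀ n ∈ B, n < 3 * m)
    (hA : ∀ n ∈ A, ∀ n' ∈ A, n' < n + m) (hB : ∀ n ∈ B, ∀ n' ∈ B, n' < n + m)
    (hC : ∀ n ∈ C, ∀ n' ∈ C, n < n' → n' = n + 1 ∧ (n' = m ∨ n' = 2 * m)) :
    (A ∪ B ∪ C).card ≤ 2 * m + 1 := by
  -- enclosing windows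
  have win : ∀ S : Finset ℕ, (∀ n ∈ S, n < 3 * m) → (∀ n ∈ S, ∀ n' ∈ S, n' < n + m) →
      ∃ a, a ≤ 2 * m ∧ S ⊆ Finset.Ico a (a + m) := by
    intro S h1 h2
    rcases S.eq_empty_or_nonempty with rfl | hne
    · exact ⟨0, by omega, by simp⟩
    · by_cases h3 : S.min' hne ≤ 2 * m
      · refine ⟨S.min' hne, h3, fun n hn => ?_⟩
        rw [Finset.mem_Ico]
        exact ⟨Finset.min'_le _ _ hn, h2 _ (Finset.min'_mem _ _) _ hn⟩
      · refine ⟨2 * m, le_rfl, fun n hn => ?_⟩
        rw [Finset.mem_Ico]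
        have := Finset.min'_le _ _ hn
        have := h1 n hn
        omega
  have main : ∀ a b : ℕ, a ≤ 2 * m → b ≤ 2 * m → a ≤ b → A ∪ B ⊆ Finset.Ico a (a + m) ∪
      Finset.Ico b (b + m) → (A ∪ B ∪ C).card ≤ 2 * m + 1 := by
    intro a b ha hb hab hsub
    set U := Finset.Ico a (a + m) ∪ Finset.Ico b (b + m) with hU
    have hUc : U.card ≤ 2 * m := by
      refine (Finset.card_union_le _ _).trans ?_
      rw [Nat.card_Ico, Nat.card_Ico]
      omega
    -- bound for `C`
    have hCc : C.card ≤ 1 ∨ ∃ c, C ⊆ {c, c + 1} ∧ (c + 1 = m ∨ c + 1 = 2 * m) := by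
      by_cases h1 : C.card ≤ 1
      · exact Or.inl h1
      · right
        push Not at h1
        obtain ⟨x, hx, y, hy, hxy⟩ := Finset.one_lt_card.1 h1
        have aux : ∀ x ∈ C, ∀ y ∈ C, x < y → ∃ c, C ⊆ {c, c + 1} ∧ (c + 1 = m ∨ c + 1 = 2 * m) := by
          intro x hx y hy hxy
          obtain ⟨h2, h3⟩ := hC x hx y hy hxy
          refine ⟨x, fun z hz => ?_, by rw [← h2]; exact h3⟩
          rw [Finset.mem_insert, Finset.mem_singleton]
          by_contra hcon
          push Not at hcon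
          rcases lt_trichotomy z x with h4 | h4 | h4
          · have h5 := hC z hz x hx h4
            have h6 := hC z hz y hy (by omega)
            omega
          · exact hcon.1 h4
          · have h5 := hC x hx z hz h4
            exact hcon.2 h5.1
        rcases lt_or_gt_of_ne hxy with h4 | h4
        · exact aux x hx y hy h4
        · exact aux y hy x hx h4
    have hle : (A ∪ B ∪ C).card ≤ (U ∪ C).card :=
      Finset.card_le_card (Finset.union_subset_union_left hsub)
    refine hle.trans ?_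
    rcases hCc with h1 | ⟨c, h1, h2⟩
    · refine (Finset.card_union_le _ _).trans ?_
      omega
    · by_cases hov : b < a + m
      · have h3 : U.card ≤ 2 * m - 1 := by
          have h4 : U ⊆ Finset.Ico a (b + m) := by
            intro z hz
            rw [hU, Finset.mem_union, Finset.mem_Ico, Finset.mem_Ico] at hz
            rw [Finset.mem_Ico]
            omega
          refine (Finset.card_le_card h4).trans ?_
          rw [Nat.card_Ico]
          omega
        refine (Finset.card_union_le _ _).trans ?_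
        have h4 : C.card ≤ 2 := (Finset.card_le_card h1).trans Finset.card_le_two
        omega
      · push Not at hov
        have h3 : c ∈ U ∨ c + 1 ∈ U := by
          rw [hU, Finset.mem_union, Finset.mem_union, Finset.mem_Ico, Finset.mem_Ico,
            Finset.mem_Ico, Finset.mem_Ico]
          omega
        have h4 : U ∪ C ⊆ U ∪ {c, c + 1} := Finset.union_subset_union_right h1
        refine (Finset.card_le_card h4).trans ?_
        rcases h3 with h3 | h3
        · have h5 : U ∪ {c, c + 1} ⊆ U ∪ {c + 1} := by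
            intro z hz
            rw [Finset.mem_union, Finset.mem_insert, Finset.mem_singleton] at hz
            rw [Finset.mem_union, Finset.mem_singleton]
            rcases hz with hz | rfl | rfl
            · exact Or.inl hz
            · exact Or.inl h3
            · exact Or.inr rfl
          refine (Finset.card_le_card h5).trans ((Finset.card_union_le _ _).trans ?_)
          rw [Finset.card_singleton]; omega
        · have h5 : U ∪ {c, c + 1} ⊆ U ∪ {c} := by
            intro z hz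
            rw [Finset.mem_union, Finset.mem_insert, Finset.mem_singleton] at hz
            rw [Finset.mem_union, Finset.mem_singleton]
            rcases hz with hz | rfl | rfl
            · exact Or.inl hz
            · exact Or.inr rfl
            · exact Or.inl h3
          refine (Finset.card_le_card h5).trans ((Finset.card_union_le _ _).trans ?_)
          rw [Finset.card_singleton]; omega
  obtain ⟨a, ha, hAa⟩ := win A hAm hA
  obtain ⟨b, hb, hBb⟩ := win B hBm hB
  rcases le_total a b with hab | hab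
  · exact main a b ha hb hab (Finset.union_subset_union hAa hBb)
  · refine main b a hb ha hab ?_
    rw [Finset.union_comm A B]
    exact Finset.union_subset_union hBb hAa

/-- BLUE's strategy for `(3, 3, w)`. -/
lemma le_G3_33 (m w : ℕ) (hm : 2 ≤ m) (hw : 3 * m ≤ w + 2) :
    1 / 3 - 1 / (3 * (m : ℝ)) ≤ G3 3 3 w := by
  classical
  have hm' : (2 : ℝ) ≤ m := by exact_mod_cast hm
  have hw' : (3 : ℝ) * m ≤ w + 2 := by exact_mod_cast hw
  have hw0 : (0 : ℝ) < w := by linarith
  have hden : (0 : ℝ) < 9 * m - 7 := by linarith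
  let pos : ℕ → ℝ := fun n => (3 * (n : ℝ) - 2 * ((n / m : ℕ) : ℝ)) / (9 * m - 7)
  have hp : (1 : ℝ) - (2 * m + 1) / (3 * m) = 1 / 3 - 1 / (3 * (m : ℝ)) := by
    field_simp; ring
  rw [← hp]
  refine le_G_atoms (lengths_nonneg 3 3 w) (ι := Fin (3 * m)) (fun n => pos n.1) ?_
    (fun _ => 1 / (3 * (m : ℝ))) (fun _ => by positivity) ?_ _ ?_
  · intro n
    obtain ⟨t, h1, h2, h3, h4⟩ := pos_facts m hm n.1 n.2
    have h3' : (m : ℝ) * t ≤ n.1 := by exact_mod_cast h3
    have h4' : (n.1 : ℝ) + 1 ≤ m * t + m := by exact_mod_cast h4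
    have h2' : (t : ℝ) ≤ 2 := by
      have : t ≤ 2 := by omega
      exact_mod_cast this
    have h0 : (0 : ℝ) ≤ t := Nat.cast_nonneg _
    simp only [pos, h1]
    constructor
    · refine div_nonneg ?_ hden.le
      nlinarith
    · rw [div_le_one hden]
      nlinarith
  · rw [Finset.sum_const, Finset.card_univ, Fintype.card_fin, nsmul_eq_mul]
    push_cast
    field_simp
  · intro J hJ
    have idx : ∀ k (b : ℝ), (![1 / ((3 : ℕ) : ℝ), 1 / ((3 : ℕ) : ℝ), 1 / (w : ℝ)] : Fin 3 → ℝ) k = b →
        ∀ n n' : ℕ, pos n ∈ J k → pos n' ∈ J k → pos n' - pos n ≤ b := by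
      intro k b hk n n' hn hn'
      obtain ⟨s, t, h0, h1, h2, h3, h4⟩ := hJ k
      rw [h4] at hn hn'
      rw [hk] at h3
      have := hn.1
      have := hn'.2
      linarith
    let A : Fin 3 → Finset ℕ := fun k => (Finset.range (3 * m)).filter (fun n => pos n ∈ J k)
    have hmem : ∀ k n, n ∈ A k ↔ n < 3 * m ∧ pos n ∈ J k := by
      intro k n; simp [A]
    -- long blocks
    have hlong : ∀ k, (![1 / ((3 : ℕ) : ℝ), 1 / ((3 : ℕ) : ℝ), 1 / (w : ℝ)] : Fin 3 → ℝ) k = 1 / 3 →
        ∀ n ∈ A k, ∀ n' ∈ A k, n' < n + m := by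
      intro k hk n hn n' hn'
      rw [hmem] at hn hn'
      by_contra hcon
      push Not at hcon
      have h1 := idx k _ hk n n' hn.2 hn'.2
      obtain ⟨t, a1, a2, a3, a4⟩ := pos_facts m hm n hn.1
      obtain ⟨t', b1, b2, b3, b4⟩ := pos_facts m hm n' hn'.1
      simp only [pos, a1, b1] at h1
      rw [← sub_div, div_le_iff₀ hden] at h1
      -- `n' = n + m + d`, `t' ≥ t + 1`
      have h2 : (n : ℝ) + m ≤ n' := by exact_mod_cast hcon
      have h3' : (m : ℝ) * t ≤ n := by exact_mod_cast a3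
      have h4' : (n : ℝ) + 1 ≤ m * t + m := by exact_mod_cast a4
      have c3 : (m : ℝ) * t' ≤ n' := by exact_mod_cast b3
      have c4 : (n' : ℝ) + 1 ≤ m * t' + m := by exact_mod_cast b4
      have key : 3 * (n' : ℤ) - 2 * t' - (3 * n - 2 * t) ≥ 3 * m - 2 := by
        interval_cases t <;> interval_cases t' <;> omega
      have key' : 3 * (n' : ℝ) - 2 * t' - (3 * n - 2 * t) ≥ 3 * m - 2 := by exact_mod_cast key
      linarith
    have hshort : ∀ n ∈ A 2, ∀ n' ∈ A 2, n < n' → n' = n + 1 ∧ (n' = m ∨ n' = 2 * m) := by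
      intro n hn n' hn' hlt
      rw [hmem] at hn hn'
      have h1 := idx 2 _ rfl n n' hn.2 hn'.2
      obtain ⟨t, a1, a2, a3, a4⟩ := pos_facts m hm n hn.1
      obtain ⟨t', b1, b2, b3, b4⟩ := pos_facts m hm n' hn'.1
      simp only [pos, a1, b1] at h1
      rw [← sub_div, div_le_iff₀ hden] at h1
      have h2 : 1 / (w : ℝ) * (9 * m - 7) < 3 := by
        rw [one_div, inv_mul_lt_iff₀ hw0]
        linarith
      have h3 : 3 * (n' : ℝ) - 2 * t' - (3 * n - 2 * t) < 3 := by
        change 3 * (n' : ℝ) - 2 * t' - (3 * n - 2 * t) ≤ 1 / (w : ℝ) * (9 * m - 7) at h1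
        linarith
      have key : 3 * (n' : ℤ) - 2 * t' - (3 * n - 2 * t) < 3 := by exact_mod_cast h3
      interval_cases t <;> interval_cases t' <;> omega
    have hcard := card_bound m hm (A 0) (A 1) (A 2) (fun n hn => ((hmem 0 n).1 hn).1)
      (fun n hn => ((hmem 1 n).1 hn).1) (hlong 0 (by norm_num)) (hlong 1 (by norm_num)) hshort
    have e1 : ∑ n : Fin (3 * m), 1 / (3 * (m : ℝ)) * (⋃ k, J k).indicator 1 (pos n.1) =
        ((A 0 ∪ A 1 ∪ A 2).card : ℝ) / (3 * m) := by
      rw [Fin.sum_univ_eq_sum_range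
        (fun n => 1 / (3 * (m : ℝ)) * (⋃ k, J k).indicator 1 (pos n)) (3 * m)]
      have e2 : A 0 ∪ A 1 ∪ A 2 = (Finset.range (3 * m)).filter (fun n => pos n ∈ ⋃ k, J k) := by
        ext n
        rw [Finset.mem_union, Finset.mem_union, hmem, hmem, hmem, Finset.mem_filter,
          Finset.mem_range, mem_iUnion, Fin.exists_fin_succ, Fin.exists_fin_succ,
          Fin.exists_fin_one]
        tauto
      rw [e2, Finset.card_filter, Nat.cast_sum, Finset.sum_div]
      refine Finset.sum_congr rfl fun n _ => ?_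
      by_cases hn : pos n ∈ ⋃ k, J k
      · rw [indicator_of_mem hn, if_pos hn]; simp
      · rw [indicator_of_notMem hn, if_neg hn]; simp
    rw [e1]
    refine div_le_div_of_nonneg_right ?_ (by positivity)
    exact_mod_cast hcard

/-- **`G(3, 3, w) = 1/3 - 1/(3 m)` for `3 m - 2 ≤ w ≤ 3 m`.** -/
theorem G3_33 (m w : ℕ) (hm : 1 ≤ m) (h1 : 3 * m ≤ w + 2) (h2 : w ≤ 3 * m) :
    G3 3 3 w = 1 / 3 - 1 / (3 * (m : ℝ)) := by
  have hm' : (1 : ℝ) ≤ m := by exact_mod_cast hm
  have hw : 0 < w := by omega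
  have hw' : (0 : ℝ) < w := by exact_mod_cast hw
  refine le_antisymm ?_ ?_
  · obtain ⟨m', rfl⟩ : ∃ m', m = m' + 1 := ⟨m - 1, by omega⟩
    obtain ⟨C⟩ := cpl_33 m'
    have h3 := C.value (by norm_num) (by norm_num) (by omega)
    have h4 : G3 3 3 w ≤ G3 3 3 (3 * (m' + 1)) := by
      unfold G3
      refine G_anti (lengths_nonneg 3 3 (3 * (m' + 1))) ?_
      intro k
      fin_cases k
      · exact le_rfl
      · exact le_rfl
      · show 1 / ((3 * (m' + 1) : ℕ) : ℝ) ≤ 1 / (w : ℝ)
        exact one_div_le_one_div_of_le hw' (by exact_mod_cast h2)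
    rw [h3] at h4
    refine h4.trans (le_of_eq ?_)
    push_cast
    ring
  · rcases Nat.lt_or_ge m 2 with h3 | h3
    · obtain rfl : m = 1 := by omega
      -- `w ≤ 3`
      have h5 : (0 : ℝ) ≤ G3 3 3 w := by
        have := red_nonempty (lengths_nonneg 3 3 w)
        unfold G3 G
        refine le_trans ?_ (le_ciSup sup_bdd (Classical.arbitrary BlueStrategy))
        exact le_ciInf fun J => measureReal_nonneg
      norm_num
      exact h5
    · exact le_G3_33 m w h3 h1

end Pool.Agent.K6.H13.TIG
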